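import Mathlib

/-!
Interfaces for the theorem: every elementwise conservative action of a group commensurable
with `SL n ℤ`, `n ≥ 3`, has an equivalent invariant probability measure.

The chain is `RigidStmt → CoreStmt → PlaneStmt`, and `PlaneStmt → BGStmt → FinalStmt`.
-/

namespace Pool.Agent.MP_2b113a_an.H83

open MeasureTheory ProbabilityTheory
open scoped ENNReal NNReal

/-- A nonsingular measurable flow of the plane with a strict Radon-Nikodym cocycle. -/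
structure NSFlow (Ω : Type) [MeasurableSpace Ω] (M : Measure Ω) where
  τ : ℝ × ℝ → Ω → Ω
  W : ℝ × ℝ → Ω → ℝ≥0∞
  meas_τ : Measurable fun x : (ℝ × ℝ) × Ω => τ x.1 x.2
  meas_W : Measurable fun x : (ℝ × ℝ) × Ω => W x.1 x.2
  τ_zero : ∀ ω, τ 0 ω = ω
  τ_add : ∀ p q ω, τ (p + q) ω = τ p (τ q ω)
  W_add : ∀ p q ω, W (p + q) ω = W q ω * W p (τ q ω)
  W_ne_zero : ∀ q ω, W q ω ≠ 0
  W_ne_top : ∀ q ω, W q ω ≠ ∞
  inv : ∀ (q : ℝ × ℝ) (φ : Ω → ℝ≥0∞), Measurable φ →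
    ∫⁻ ω, φ (τ q ω) * W q ω ∂M = ∫⁻ ω, φ ω ∂M

/-- A nonsingular symmetry of a flow, acting on the time plane by `δ`, with bounded cocycle. -/
structure Sym {Ω : Type} [MeasurableSpace Ω] {M : Measure Ω} (F : NSFlow Ω M)
    (δ : ℝ × ℝ → ℝ × ℝ) where
  S : Ω → Ω
  ρ : Ω → ℝ≥0∞
  C : ℝ≥0
  meas_S : Measurable S
  meas_ρ : Measurable ρ
  ρ_le : ∀ ω, ρ ω ≤ C
  le_ρ : ∀ ω, 1 ≤ C * ρ ω
  comm : ∀ q ω, S (F.τ q ω) = F.τ (δ q) (S ω)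
  cocy : ∀ q ω, F.W (δ q) (S ω) * ρ ω = F.W q ω * ρ (F.τ q ω)
  inv : ∀ φ : Ω → ℝ≥0∞, Measurable φ → ∫⁻ ω, φ (S ω) * ρ ω ∂M = ∫⁻ ω, φ ω ∂M

/-- The rotation with cosine `c` and sine `s`. -/
def rot (c s : ℝ) (q : ℝ × ℝ) : ℝ × ℝ := (c * q.1 - s * q.2, s * q.1 + c * q.2)

/-- A sequence of symmetries acting as `diag (l ^ k, l ^ (-k))` in the frame `rot c s`, which is
conservative on the invariant sets of the flow. -/
def HypSeq {Ω : Type} [MeasurableSpace Ω] {M : Measure Ω} (F : NSFlow Ω M) (l c s : ℝ) : Prop :=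
  ∃ (δ : ℕ → ℝ × ℝ → ℝ × ℝ) (Sy : ∀ k, Sym F (δ k)),
    (∀ k q, δ k (rot c s q) = rot c s (l ^ k * q.1, (l ^ k)⁻¹ * q.2)) ∧
    ∀ Z : Set Ω, MeasurableSet Z → (∀ q ω, F.τ q ω ∈ Z ↔ ω ∈ Z) → M Z ≠ 0 →
      ∑' k, ∫⁻ ω in Z, (Sy k).ρ ω ∂M = ∞

/-- The core theorem on flows. -/
def CoreStmt : Prop :=
  ∀ (Ω : Type) [MeasurableSpace Ω] (M : Measure Ω) [IsProbabilityMeasure M] (F : NSFlow Ω M)
    (l c₁ s₁ c₂ s₂ : ℝ), 2 ≤ l → c₁ ^ 2 + s₁ ^ 2 = 1 → c₂ ^ 2 + s₂ ^ 2 = 1 →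
    c₁ * c₂ + s₁ * s₂ ≠ 0 → c₁ * s₂ - s₁ * c₂ ≠ 0 →
    HypSeq F l c₁ s₁ → HypSeq F l c₂ s₂ →
    (∀ᵐ ω ∂M, ∫⁻ q, F.W q ω = ∞) →
    ∃ ν : Measure Ω, IsFiniteMeasure ν ∧ ν ≪ M ∧ M ≪ ν ∧ ∀ q, ν.map (F.τ q) = ν

/-- The centred planar Gaussian measure with variances `a` and `b`. -/
noncomputable def N2 (a b : ℝ≥0) : Measure (ℝ × ℝ) := (gaussianReal 0 a).prod (gaussianReal 0 b)

/-- The two coordinates are `δ`-almost independent under `π`. -/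
def Dep (π : Measure (ℝ × ℝ)) (δ : ℝ) : Prop :=
  ∀ g₁ g₂ : ℝ → ℝ, Measurable g₁ → Measurable g₂ → (∀ x, 0 ≤ g₁ x ∧ g₁ x ≤ 1) →
    (∀ x, 0 ≤ g₂ x ∧ g₂ x ≤ 1) →
    |∫ u, g₁ u.1 * g₂ u.2 ∂π - (∫ u, g₁ u.1 ∂π) * ∫ u, g₂ u.2 ∂π| ≤ δ

/-- Stable form of Bernstein's theorem: a planar law that is almost a product in two different
orthonormal frames is, after a fixed smoothing, close in total variation to a round Gaussian. -/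
def RigidStmt : Prop :=
  ∀ (c s : ℝ), c ^ 2 + s ^ 2 = 1 → c ≠ 0 → s ≠ 0 → ∀ (M₀ s₀ : ℝ≥0), s₀ ≠ 0 → s₀ ≤ 1 →
    ∀ η : ℝ≥0, η ≠ 0 → ∃ δ : ℝ, 0 < δ ∧ ∀ (σ : ℝ≥0), σ ≠ 0 →
      ∀ (π : Measure (ℝ × ℝ)) [IsProbabilityMeasure π],
        ∫⁻ u, ENNReal.ofReal (u.1 ^ 2 + u.2 ^ 2) ∂π ≤ (M₀ * σ : ℝ≥0) →
        Dep π δ → Dep (π.map (rot c s)) δ →
        ∃ (m : ℝ × ℝ) (v : ℝ≥0), v ≠ 0 ∧ m.1 ^ 2 + m.2 ^ 2 ≤ (2 * M₀ + 4) * σ ∧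
          ∀ φ : ℝ × ℝ → ℝ≥0∞, Measurable φ → (∀ u, φ u ≤ 1) →
            ∫⁻ z, ∫⁻ ζ, φ (z + ζ) ∂(N2 (σ * s₀) (σ * s₀)) ∂π ≤
              ∫⁻ u, φ u ∂((gaussianReal m.1 v).prod (gaussianReal m.2 v)) + η

/-- The symmetric hyperbolic matrix `[[2, e], [e, 1]]`, used with `e = 1` and `e = -1`. -/
def hyp (e : ℤ) (v : ℤ × ℤ) : ℤ × ℤ := (2 * v.1 + e * v.2, e * v.1 + v.2)

/-- The action is by measurable maps, is nonsingular and is elementwise conservative. -/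
structure EC (G : Type) [Group G] {X : Type} [MeasurableSpace X] [MulAction G X]
    (μ : Measure X) : Prop where
  meas : ∀ g : G, Measurable fun x : X => g • x
  ns : ∀ (g : G) (s : Set X), MeasurableSet s → μ s = 0 → μ ((fun x : X => g • x) '' s) = 0
  cons : ∀ (g : G) (s : Set X), MeasurableSet s →
    (∀ k : ℤ, k ≠ 0 → μ ((fun x : X => g ^ k • x) '' s ∩ s) = 0) → μ s = 0

/-- The theorem for a plane lattice normalised by two hyperbolic elements. -/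
def PlaneStmt : Prop :=
  ∀ (G : Type) [Group G] [Countable G] (X : Type) [MeasurableSpace X] [MulAction G X]
    (μ : Measure X) [IsProbabilityMeasure μ], EC G μ →
    ∀ (α : ℤ × ℤ → G) (t₁ t₂ : G) (k : ℕ), 1 ≤ k → (∀ v w, α (v + w) = α v * α w) →
      (∀ v, t₁ * α v = α ((hyp 1)^[k] v) * t₁) → (∀ v, t₂ * α v = α ((hyp (-1))^[k] v) * t₂) →
      ∃ ν : Measure X, IsFiniteMeasure ν ∧ ν ≪ μ ∧ μ ≪ ν ∧
        ∀ v, ν.map (fun x : X => α v • x) = ν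

/-- Bounded elementary generation of `SL n ℤ` for `n ≥ 3` (Carter and Keller). -/
def BGStmt : Prop :=
  ∀ n : ℕ, 3 ≤ n → ∃ m : ℕ, ∀ g : Matrix.SpecialLinearGroup (Fin n) ℤ,
    ∃ L : List (Matrix.SpecialLinearGroup (Fin n) ℤ), L.length ≤ m ∧ L.prod = g ∧
      ∀ e ∈ L, ∃ (i j : Fin n) (c : ℤ), i ≠ j ∧
        (e : Matrix (Fin n) (Fin n) ℤ) = Matrix.transvection i j c

/-- The final theorem. -/
def FinalStmt : Prop :=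
  ∀ (n : ℕ), 3 ≤ n → ∀ (Γ : Type) [Group Γ] (Λ : Subgroup Γ), Λ.FiniteIndex →
    ∀ φ : Λ →* Matrix.SpecialLinearGroup (Fin n) ℤ, Function.Injective φ →
      φ.range.FiniteIndex →
      ∀ (X : Type) [MeasurableSpace X] [MulAction Γ X] (μ : Measure X) [IsProbabilityMeasure μ],
        EC Γ μ → ∃ ν : Measure X, IsProbabilityMeasure ν ∧ ν ≪ μ ∧ μ ≪ ν ∧
          ∀ γ : Γ, ν.map (fun x : X => γ • x) = ν

end Pool.Agent.MP_2b113a_an.H83
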