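import Mathlib
import Pool.Agent.MP_2b113a_an.H83.Defs

/-!
Planar Gaussian measures and bump functions.
-/

namespace Pool.Agent.MP_2b113a_an.H83

open MeasureTheory ProbabilityTheory Filter Topology
open scoped ENNReal NNReal Real

/-- The squared Euclidean norm. -/
def nsq (u : ℝ × ℝ) : ℝ := u.1 ^ 2 + u.2 ^ 2

lemma nsq_nonneg (u : ℝ × ℝ) : 0 ≤ nsq u := by unfold nsq; positivity

@[fun_prop] lemma continuous_nsq : Continuous nsq := by unfold nsq; fun_prop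

@[fun_prop] lemma measurable_nsq : Measurable nsq := continuous_nsq.measurable

@[simp] lemma nsq_neg (u : ℝ × ℝ) : nsq (-u) = nsq u := by simp [nsq]

lemma nsq_sub_comm (u v : ℝ × ℝ) : nsq (u - v) = nsq (v - u) := by
  simp only [nsq, Prod.fst_sub, Prod.snd_sub]; ring

lemma nsq_add_le (u v : ℝ × ℝ) : nsq (u + v) ≤ 2 * nsq u + 2 * nsq v := by
  simp only [nsq, Prod.fst_add, Prod.snd_add]
  nlinarith [sq_nonneg (u.1 - v.1), sq_nonneg (u.2 - v.2)]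

/-- The unnormalised round Gaussian bump. -/
noncomputable def bmp (s : ℝ) (u : ℝ × ℝ) : ℝ≥0∞ := ENNReal.ofReal (Real.exp (-nsq u / (2 * s)))

@[fun_prop] lemma measurable_bmp (s : ℝ) : Measurable (bmp s) := by unfold bmp; fun_prop

lemma bmp_ne_zero (s : ℝ) (u : ℝ × ℝ) : bmp s u ≠ 0 := by
  simp [bmp, Real.exp_pos]

lemma bmp_ne_top (s : ℝ) (u : ℝ × ℝ) : bmp s u ≠ ∞ := ENNReal.ofReal_ne_top

lemma bmp_le_one {s : ℝ} (hs : 0 < s) (u : ℝ × ℝ) : bmp s u ≤ 1 := by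
  rw [bmp, ENNReal.ofReal_le_one, Real.exp_le_one_iff]
  exact div_nonpos_of_nonpos_of_nonneg (by linarith [nsq_nonneg u]) (by positivity)

@[simp] lemma bmp_neg (s : ℝ) (u : ℝ × ℝ) : bmp s (-u) = bmp s u := by simp [bmp]

lemma bmp_le_of {s s' : ℝ} {u u' : ℝ × ℝ} (h : nsq u' / (2 * s') ≤ nsq u / (2 * s)) :
    bmp s u ≤ bmp s' u' := by
  refine ENNReal.ofReal_le_ofReal (Real.exp_le_exp.2 ?_)
  rw [neg_div, neg_div]; linarith

lemma bmp_mono {s s' : ℝ} (hs : 0 < s) (h : s ≤ s') (u : ℝ × ℝ) : bmp s u ≤ bmp s' u :=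
  bmp_le_of (div_le_div_of_nonneg_left (nsq_nonneg u) (by positivity) (by linarith))

/-- The planar Gaussian measure with mean `m` and variances `a`, `b`. -/
noncomputable def G2 (m : ℝ × ℝ) (a b : ℝ≥0) : Measure (ℝ × ℝ) :=
  (gaussianReal m.1 a).prod (gaussianReal m.2 b)

instance (m : ℝ × ℝ) (a b : ℝ≥0) : IsProbabilityMeasure (G2 m a b) := by
  unfold G2; infer_instance

instance (a b : ℝ≥0) : IsProbabilityMeasure (N2 a b) := by
  unfold N2; infer_instance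

lemma N2_eq_G2 (a b : ℝ≥0) : N2 a b = G2 0 a b := rfl

/-- The density of `G2`. -/
noncomputable def pdf2 (m : ℝ × ℝ) (a b : ℝ≥0) (u : ℝ × ℝ) : ℝ≥0∞ :=
  gaussianPDF m.1 a u.1 * gaussianPDF m.2 b u.2

@[fun_prop] lemma measurable_pdf2 (m : ℝ × ℝ) (a b : ℝ≥0) : Measurable (pdf2 m a b) := by
  unfold pdf2; fun_prop

lemma pdf2_ne_top (m : ℝ × ℝ) (a b : ℝ≥0) (u : ℝ × ℝ) : pdf2 m a b u ≠ ∞ :=
  ENNReal.mul_ne_top gaussianPDF_ne_top gaussianPDF_ne_top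

lemma pdf2_ne_zero (m : ℝ × ℝ) {a b : ℝ≥0} (ha : a ≠ 0) (hb : b ≠ 0) (u : ℝ × ℝ) :
    pdf2 m a b u ≠ 0 :=
  mul_ne_zero (gaussianPDF_pos _ ha _).ne' (gaussianPDF_pos _ hb _).ne'

lemma G2_eq (m : ℝ × ℝ) {a b : ℝ≥0} (ha : a ≠ 0) (hb : b ≠ 0) :
    G2 m a b = volume.withDensity (pdf2 m a b) := by
  rw [G2, gaussianReal_of_var_ne_zero _ ha, gaussianReal_of_var_ne_zero _ hb,
    prod_withDensity (by fun_prop) (by fun_prop)]
  rfl

lemma lintegral_G2 (m : ℝ × ℝ) {a b : ℝ≥0} (ha : a ≠ 0) (hb : b ≠ 0) {f : ℝ × ℝ → ℝ≥0∞}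
    (hf : Measurable f) : ∫⁻ u, f u ∂G2 m a b = ∫⁻ u, pdf2 m a b u * f u := by
  rw [G2_eq m ha hb, lintegral_withDensity_eq_lintegral_mul _ (by fun_prop) hf]
  rfl

lemma lintegral_N2 {a b : ℝ≥0} (ha : a ≠ 0) (hb : b ≠ 0) {f : ℝ × ℝ → ℝ≥0∞}
    (hf : Measurable f) : ∫⁻ u, f u ∂N2 a b = ∫⁻ u, pdf2 0 a b u * f u :=
  lintegral_G2 0 ha hb hf

lemma pdf2_iso (m : ℝ × ℝ) {s : ℝ≥0} (hs : s ≠ 0) (u : ℝ × ℝ) :
    pdf2 m s s u = ENNReal.ofReal ((2 * π * s)⁻¹) * bmp s (u - m) := by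
  have hs' : (0 : ℝ) < s := by positivity
  rw [pdf2, gaussianPDF, gaussianPDF, bmp, ← ENNReal.ofReal_mul (gaussianPDFReal_nonneg _ _ _),
    ← ENNReal.ofReal_mul (by positivity)]
  congr 1
  simp only [gaussianPDFReal, nsq, Prod.fst_sub, Prod.snd_sub]
  have h1 : (√(2 * π * s))⁻¹ * (√(2 * π * s))⁻¹ = (2 * π * s)⁻¹ := by
    rw [← mul_inv, Real.mul_self_sqrt (by positivity)]
  rw [mul_mul_mul_comm, h1, ← Real.exp_add]
  congr 2
  ring

lemma lintegral_N2_iso {s : ℝ≥0} (hs : s ≠ 0) {f : ℝ × ℝ → ℝ≥0∞} (hf : Measurable f) :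
    ∫⁻ u, f u ∂N2 s s = ENNReal.ofReal ((2 * π * s)⁻¹) * ∫⁻ u, f u * bmp s u := by
  rw [lintegral_N2 hs hs hf, ← lintegral_const_mul' _ _ ENNReal.ofReal_ne_top]
  refine lintegral_congr fun u => ?_
  rw [pdf2_iso 0 hs, sub_zero, mul_assoc, mul_comm (f u)]

lemma lintegral_mul_bmp {s : ℝ≥0} (hs : s ≠ 0) {f : ℝ × ℝ → ℝ≥0∞} (hf : Measurable f) :
    ∫⁻ u, f u * bmp s u = ENNReal.ofReal (2 * π * s) * ∫⁻ u, f u ∂N2 s s := by
  have hs' : (0 : ℝ) < s := by positivity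
  rw [lintegral_N2_iso hs hf, ← mul_assoc, ← ENNReal.ofReal_mul (by positivity),
    mul_inv_cancel₀ (by positivity), ENNReal.ofReal_one, one_mul]

lemma lintegral_bmp {s : ℝ} (hs : 0 < s) : ∫⁻ u, bmp s u = ENNReal.ofReal (2 * π * s) := by
  lift s to ℝ≥0 using hs.le
  have h := lintegral_mul_bmp (s := s) (f := fun _ => 1)
    (by exact_mod_cast hs.ne') measurable_const
  simpa using h

lemma lintegral_conv1 {m : ℝ} {a a' : ℝ≥0} {f : ℝ → ℝ≥0∞} (hf : Measurable f) :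
    ∫⁻ x, ∫⁻ y, f (x + y) ∂gaussianReal 0 a' ∂gaussianReal m a =
      ∫⁻ x, f x ∂gaussianReal m (a + a') := by
  rw [← Measure.lintegral_conv hf, gaussianReal_conv_gaussianReal, add_zero]

lemma lintegral_conv2 (m : ℝ × ℝ) (a b a' b' : ℝ≥0) {f : ℝ × ℝ → ℝ≥0∞} (hf : Measurable f) :
    ∫⁻ z, ∫⁻ ζ, f (z + ζ) ∂N2 a' b' ∂G2 m a b = ∫⁻ u, f u ∂G2 m (a + a') (b + b') := by
  have h1 : ∀ z : ℝ × ℝ, ∫⁻ ζ, f (z + ζ) ∂N2 a' b' =
      ∫⁻ x, ∫⁻ y, f (z.1 + x, z.2 + y) ∂gaussianReal 0 b' ∂gaussianReal 0 a' := fun z => by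
    rw [N2, lintegral_prod _ (by fun_prop)]; rfl
  simp_rw [h1]
  rw [G2, G2, lintegral_prod _ (by fun_prop), lintegral_prod _ (by fun_prop),
    ← lintegral_conv1 (by fun_prop)]
  refine lintegral_congr fun z1 => ?_
  rw [lintegral_lintegral_swap (by fun_prop)]
  refine lintegral_congr fun x => ?_
  exact lintegral_conv1 (f := fun y => f (z1 + x, y)) (by fun_prop)

lemma lintegral_convN (a b a' b' : ℝ≥0) {f : ℝ × ℝ → ℝ≥0∞} (hf : Measurable f) :
    ∫⁻ z, ∫⁻ ζ, f (z + ζ) ∂N2 a' b' ∂N2 a b = ∫⁻ u, f u ∂N2 (a + a') (b + b') :=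
  lintegral_conv2 0 a b a' b' hf

lemma N2_map_scale (a b : ℝ≥0) (x y : ℝ) :
    (N2 a b).map (fun u => (x * u.1, y * u.2)) =
      N2 (.mk (x ^ 2) (sq_nonneg _) * a) (.mk (y ^ 2) (sq_nonneg _) * b) := by
  have h1 := gaussianReal_map_const_mul (μ := 0) (v := a) x
  have h2 := gaussianReal_map_const_mul (μ := 0) (v := b) y
  rw [mul_zero] at h1 h2
  rw [N2, N2, ← h1, ← h2, Measure.map_prod_map _ _ (by fun_prop) (by fun_prop)]
  rfl

lemma N2_map_neg (a b : ℝ≥0) : (N2 a b).map (fun u => -u) = N2 a b := by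
  have h := N2_map_scale a b (-1) (-1)
  have h1 : NNReal.mk ((-1 : ℝ) ^ 2) (sq_nonneg _) = 1 := by ext; simp
  rw [h1, one_mul, one_mul] at h
  rw [← h]
  conv_rhs => rw [h]
  rw [h]
  conv_rhs => rw [← h]
  congr 1
  ext u <;> simp

lemma lintegral_N2_neg (a b : ℝ≥0) {f : ℝ × ℝ → ℝ≥0∞} (hf : Measurable f) :
    ∫⁻ u, f (-u) ∂N2 a b = ∫⁻ u, f u ∂N2 a b := by
  rw [← lintegral_map hf measurable_neg, N2_map_neg]

lemma lintegral_N2_left (a : ℝ≥0) {f : ℝ × ℝ → ℝ≥0∞} (hf : Measurable f) :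
    ∫⁻ u, f u ∂N2 a 0 = ∫⁻ x, f (x, 0) ∂gaussianReal 0 a := by
  rw [N2, lintegral_prod _ (by fun_prop)]
  simp

lemma lintegral_N2_right (b : ℝ≥0) {f : ℝ × ℝ → ℝ≥0∞} (hf : Measurable f) :
    ∫⁻ u, f u ∂N2 0 b = ∫⁻ y, f (0, y) ∂gaussianReal 0 b := by
  rw [N2, lintegral_prod _ (by fun_prop)]
  simp

@[fun_prop] lemma continuous_rot (c s : ℝ) : Continuous (rot c s) := by unfold rot; fun_prop

@[fun_prop] lemma measurable_rot (c s : ℝ) : Measurable (rot c s) := (continuous_rot c s).measurable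

lemma rot_add (c s : ℝ) (p q : ℝ × ℝ) : rot c s (p + q) = rot c s p + rot c s q := by
  simp only [rot, Prod.fst_add, Prod.snd_add, Prod.mk_add_mk, Prod.mk.injEq]
  constructor <;> ring

lemma rot_zero (c s : ℝ) : rot c s 0 = 0 := by simp [rot]

lemma rot_neg (c s : ℝ) (p : ℝ × ℝ) : rot c s (-p) = -rot c s p := by
  simp only [rot, Prod.fst_neg, Prod.snd_neg, Prod.neg_mk, Prod.mk.injEq]
  constructor <;> ring

lemma nsq_rot {c s : ℝ} (h : c ^ 2 + s ^ 2 = 1) (q : ℝ × ℝ) : nsq (rot c s q) = nsq q := by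
  simp only [nsq, rot]
  linear_combination (q.1 ^ 2 + q.2 ^ 2) * h

lemma rot_rot_neg {c s : ℝ} (h : c ^ 2 + s ^ 2 = 1) (q : ℝ × ℝ) :
    rot c s (rot c (-s) q) = q := by
  ext
  · simp only [rot]; linear_combination q.1 * h
  · simp only [rot]; linear_combination q.2 * h

lemma rot_neg_rot {c s : ℝ} (h : c ^ 2 + s ^ 2 = 1) (q : ℝ × ℝ) :
    rot c (-s) (rot c s q) = q := by
  have := rot_rot_neg (c := c) (s := -s) (by rw [neg_sq]; exact h) q
  rwa [neg_neg] at this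

lemma bmp_rot {c s : ℝ} (h : c ^ 2 + s ^ 2 = 1) (t : ℝ) (q : ℝ × ℝ) :
    bmp t (rot c s q) = bmp t q := by rw [bmp, nsq_rot h, bmp]

lemma mp_linear (a b c d : ℝ) (h : a * d - b * c = 1) :
    MeasurePreserving (fun q : ℝ × ℝ => (a * q.1 + b * q.2, c * q.1 + d * q.2)) := by
  let A : Matrix (Fin 2) (Fin 2) ℝ := !![a, b; c, d]
  let L : (ℝ × ℝ) →ₗ[ℝ] (ℝ × ℝ) :=
    Matrix.toLin (Module.Basis.finTwoProd ℝ) (Module.Basis.finTwoProd ℝ) A
  have hL : (fun q : ℝ × ℝ => (a * q.1 + b * q.2, c * q.1 + d * q.2)) = L := by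
    ext q <;> simp [L, A, Matrix.toLin_finTwoProd_apply]
  have hd : LinearMap.det L = 1 := by
    simp [L, A, LinearMap.det_toLin, Matrix.det_fin_two, h]
  refine ⟨by fun_prop, ?_⟩
  rw [hL, Measure.map_linearMap_addHaar_eq_smul_addHaar _ (by rw [hd]; exact one_ne_zero), hd]
  simp

lemma mp_rot {c s : ℝ} (h : c ^ 2 + s ^ 2 = 1) : MeasurePreserving (rot c s) := by
  have := mp_linear c (-s) s c (by linear_combination h)
  convert this using 2 with q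
  simp [rot, sub_eq_add_neg]

lemma mp_diag {x : ℝ} (hx : x ≠ 0) :
    MeasurePreserving (fun q : ℝ × ℝ => (x * q.1, x⁻¹ * q.2)) := by
  have := mp_linear x 0 0 x⁻¹ (by simp [hx])
  simpa using this

lemma lintegral_N2_rot {c s : ℝ} (h : c ^ 2 + s ^ 2 = 1) (t : ℝ≥0) {f : ℝ × ℝ → ℝ≥0∞}
    (hf : Measurable f) : ∫⁻ u, f (rot c s u) ∂N2 t t = ∫⁻ u, f u ∂N2 t t := by
  by_cases ht : t = 0
  · subst ht
    rw [lintegral_N2_left _ (by fun_prop), lintegral_N2_left _ hf]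
    simp [rot]
  rw [lintegral_N2_iso ht (by fun_prop), lintegral_N2_iso ht hf]
  congr 1
  rw [← (mp_rot h).lintegral_comp (f := fun u => f u * bmp t u) (by fun_prop)]
  simp [bmp_rot h]

lemma N2_map_rot {c s : ℝ} (h : c ^ 2 + s ^ 2 = 1) (t : ℝ≥0) :
    (N2 t t).map (rot c s) = N2 t t := by
  refine Measure.ext_of_lintegral _ fun f hf => ?_
  rw [lintegral_map hf (by fun_prop), lintegral_N2_rot h t hf]

lemma gaussianPDFReal_le {m : ℝ} {v v' : ℝ≥0} (hv : v ≠ 0) (h : v ≤ v') (x : ℝ) :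
    gaussianPDFReal m v x ≤ √(v' / v) * gaussianPDFReal m v' x := by
  have hv0 : (0 : ℝ) < v := by positivity
  have h' : (v : ℝ) ≤ v' := h
  have hv1 : (0 : ℝ) < v' := lt_of_lt_of_le hv0 h'
  simp only [gaussianPDFReal]
  rw [← mul_assoc]
  have h1 : √(v' / v) * (√(2 * π * v'))⁻¹ = (√(2 * π * v))⁻¹ := by
    rw [← Real.sqrt_inv, ← Real.sqrt_mul (by positivity), ← Real.sqrt_inv]
    congr 1
    field_simp
  rw [h1]
  refine mul_le_mul_of_nonneg_left (Real.exp_le_exp.2 ?_) (by positivity)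
  rw [neg_div, neg_div, neg_le_neg_iff]
  exact div_le_div_of_nonneg_left (sq_nonneg _) (by positivity) (by linarith)

lemma pdf2_le (m : ℝ × ℝ) {a b v : ℝ≥0} {r : ℝ} (ha : a ≠ 0) (hb : b ≠ 0) (hav : a ≤ v)
    (hbv : b ≤ v) (hra : (v : ℝ) ≤ r * a) (hrb : (v : ℝ) ≤ r * b) (u : ℝ × ℝ) :
    pdf2 m a b u ≤ ENNReal.ofReal r * pdf2 m v v u := by
  have ha0 : (0 : ℝ) < a := by positivity
  have hb0 : (0 : ℝ) < b := by positivity
  have hr : 0 ≤ r := by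
    by_contra hr
    have : r * a < 0 := mul_neg_of_neg_of_pos (not_le.1 hr) ha0
    linarith [v.2]
  simp only [pdf2, gaussianPDF]
  rw [← ENNReal.ofReal_mul (gaussianPDFReal_nonneg _ _ _),
    ← ENNReal.ofReal_mul (gaussianPDFReal_nonneg _ _ _), ← ENNReal.ofReal_mul hr]
  refine ENNReal.ofReal_le_ofReal ?_
  have h1 := gaussianPDFReal_le (m := m.1) ha hav u.1
  have h2 := gaussianPDFReal_le (m := m.2) hb hbv u.2
  have h3 : √(v / a) ≤ √r := Real.sqrt_le_sqrt ((div_le_iff₀ ha0).2 hra)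
  have h4 : √(v / b) ≤ √r := Real.sqrt_le_sqrt ((div_le_iff₀ hb0).2 hrb)
  have p1 := gaussianPDFReal_nonneg m.1 v u.1
  have p2 := gaussianPDFReal_nonneg m.2 v u.2
  calc _ ≤ (√r * gaussianPDFReal m.1 v u.1) * (√r * gaussianPDFReal m.2 v u.2) := by
        refine mul_le_mul (h1.trans ?_) (h2.trans ?_) (gaussianPDFReal_nonneg _ _ _)
          (by positivity)
        · exact mul_le_mul_of_nonneg_right h3 p1
        · exact mul_le_mul_of_nonneg_right h4 p2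
    _ = _ := by
        rw [mul_mul_mul_comm, Real.mul_self_sqrt hr]

lemma lintegral_G2_le (m : ℝ × ℝ) {a b v : ℝ≥0} {r : ℝ} (ha : a ≠ 0) (hb : b ≠ 0) (hav : a ≤ v)
    (hbv : b ≤ v) (hra : (v : ℝ) ≤ r * a) (hrb : (v : ℝ) ≤ r * b) {f : ℝ × ℝ → ℝ≥0∞}
    (hf : Measurable f) :
    ∫⁻ u, f u ∂G2 m a b ≤ ENNReal.ofReal r * ∫⁻ u, f u ∂G2 m v v := by
  have hv : v ≠ 0 := fun h => ha (le_antisymm (h ▸ hav) zero_le)
  rw [lintegral_G2 m ha hb hf, lintegral_G2 m hv hv hf,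
    ← lintegral_const_mul' _ _ ENNReal.ofReal_ne_top]
  refine lintegral_mono fun u => ?_
  rw [← mul_assoc]
  exact mul_le_mul_left (pdf2_le m ha hb hav hbv hra hrb u) _

lemma lintegral_sq_gauss (m : ℝ) (v : ℝ≥0) :
    ∫⁻ x, ENNReal.ofReal ((x - m) ^ 2) ∂gaussianReal m v = v := by
  have h1 : Integrable (fun x => (x - m) ^ 2) (gaussianReal m v) :=
    ((memLp_id_gaussianReal (μ := m) (v := v) 2).sub (memLp_const m)).integrable_sq
  rw [← ofReal_integral_eq_lintegral_ofReal h1 (ae_of_all _ fun x => sq_nonneg _)]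
  have h2 := variance_fun_id_gaussianReal (μ := m) (v := v)
  rw [variance_eq_integral (by fun_prop), integral_id_gaussianReal] at h2
  rw [h2]; simp

lemma lintegral_nsq_G2 (m : ℝ × ℝ) (a b : ℝ≥0) :
    ∫⁻ u, ENNReal.ofReal (nsq (u - m)) ∂G2 m a b = a + b := by
  have : ∀ u : ℝ × ℝ, ENNReal.ofReal (nsq (u - m)) =
      ENNReal.ofReal ((u.1 - m.1) ^ 2) + ENNReal.ofReal ((u.2 - m.2) ^ 2) := fun u => by
    rw [← ENNReal.ofReal_add (sq_nonneg _) (sq_nonneg _)]; rfl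
  simp_rw [this]
  rw [lintegral_add_left (by fun_prop), G2, lintegral_prod _ (by fun_prop),
    lintegral_prod _ (by fun_prop)]
  simp [lintegral_sq_gauss]

lemma lintegral_nsq_N2 (a b : ℝ≥0) :
    ∫⁻ u, ENNReal.ofReal (nsq u) ∂N2 a b = a + b := by
  simpa [N2_eq_G2] using lintegral_nsq_G2 0 a b

/-- Shifting a wide bump changes it little. -/
lemma bmp_shift (q : ℝ × ℝ) {ε : ℝ} (hε : 0 < ε) :
    ∃ s₀ : ℝ, 0 < s₀ ∧ ∀ s, s₀ ≤ s → ∀ v,
      bmp s (v + q) ≤ bmp s v + ENNReal.ofReal ε * bmp (2 * s) v := by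
  set η : ℝ := min (ε / 8) (1 / 4) with hη
  have hη0 : 0 < η := lt_min (by positivity) (by norm_num)
  have hη1 : η ≤ ε / 8 := min_le_left _ _
  have hη2 : η ≤ 1 / 4 := min_le_right _ _
  refine ⟨nsq q / η ^ 2 + 1, by have := nsq_nonneg q; positivity, fun s hs v => ?_⟩
  have hq := nsq_nonneg q
  have hv := nsq_nonneg v
  have hs0 : 0 < s := lt_of_lt_of_le (by positivity) hs
  simp only [bmp]
  rw [← ENNReal.ofReal_mul hε.le, ← ENNReal.ofReal_add (by positivity) (by positivity)]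
  refine ENNReal.ofReal_le_ofReal ?_
  set A := nsq v / (4 * s) with hA
  have hA0 : 0 ≤ A := by positivity
  have e1 : -nsq v / (2 * s) = -2 * A := by rw [hA]; field_simp; ring
  have e2 : -nsq v / (2 * (2 * s)) = -A := by rw [hA]; field_simp; ring
  have hqs : nsq q ≤ η ^ 2 * s := by
    have : nsq q / η ^ 2 ≤ s := by linarith
    rwa [div_le_iff₀ (by positivity), mul_comm] at this
  have e3 : -nsq (v + q) / (2 * s) ≤ -2 * A + (2 * η * A + η / 2) := by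
    rw [hA, div_le_iff₀ (by positivity)]
    have h1 : (-2 * (nsq v / (4 * s)) + (2 * η * (nsq v / (4 * s)) + η / 2)) * (2 * s) =
        -nsq v + η * nsq v + η * s := by field_simp; ring
    rw [h1]
    have h2 : η * (nsq v - nsq (v + q)) ≤ η * (η * nsq v + η * s) := by
      simp only [nsq, Prod.fst_add, Prod.snd_add] at hqs ⊢
      nlinarith [sq_nonneg (η * v.1 + q.1), sq_nonneg (η * v.2 + q.2), sq_nonneg q.1,
        sq_nonneg q.2]
    have := le_of_mul_le_mul_left h2 hη0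
    linarith
  rw [e1, e2]
  refine (Real.exp_le_exp.2 e3).trans ?_
  have c1 : Real.exp (2 * η * A) ≤ 1 + 2 * η * Real.exp A := by
    have := convexOn_exp.2 (Set.mem_univ 0) (Set.mem_univ A)
      (show 0 ≤ 1 - 2 * η by linarith) (show 0 ≤ 2 * η by linarith) (by ring)
    simp only [smul_eq_mul, mul_zero, zero_add, Real.exp_zero, mul_one] at this
    linarith
  have c2 : Real.exp (η / 2) ≤ 1 + η := by
    have := Real.exp_bound' (x := η / 2) (by positivity) (by linarith) (n := 1) one_pos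
    simp at this
    linarith
  have c3 : Real.exp (-2 * A) * Real.exp A = Real.exp (-A) := by
    rw [← Real.exp_add]; congr 1; ring
  have c4 : Real.exp (-2 * A) ≤ Real.exp (-A) := Real.exp_le_exp.2 (by linarith)
  have p1 := Real.exp_pos (-2 * A)
  have p2 := Real.exp_pos (-A)
  rw [Real.exp_add, Real.exp_add]
  calc Real.exp (-2 * A) * (Real.exp (2 * η * A) * Real.exp (η / 2))
      ≤ Real.exp (-2 * A) * ((1 + 2 * η * Real.exp A) * (1 + η)) := by gcongr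
    _ = (Real.exp (-2 * A) + 2 * η * Real.exp (-A)) * (1 + η) := by rw [← c3]; ring
    _ ≤ _ := by nlinarith [mul_pos hη0 p2, mul_pos hη0 p1]

end Pool.Agent.MP_2b113a_an.H83
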