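import Mathlib
import Pool.Agent.MP_2b113a_an.H83.Gauss

/-!
Densities along the orbits of a nonsingular flow.
-/

namespace Pool.Agent.MP_2b113a_an.H83

open MeasureTheory ProbabilityTheory Filter Topology
open scoped ENNReal NNReal Real

variable {Ω : Type} [MeasurableSpace Ω] {M : Measure Ω}

namespace NSFlow

variable (F : NSFlow Ω M)

@[fun_prop] lemma measurable_τ {α : Type*} [MeasurableSpace α] {f : α → ℝ × ℝ} {g : α → Ω}
    (hf : Measurable f) (hg : Measurable g) : Measurable fun x => F.τ (f x) (g x) :=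
  F.meas_τ.comp (hf.prodMk hg)

@[fun_prop] lemma measurable_W {α : Type*} [MeasurableSpace α] {f : α → ℝ × ℝ} {g : α → Ω}
    (hf : Measurable f) (hg : Measurable g) : Measurable fun x => F.W (f x) (g x) :=
  F.meas_W.comp (hf.prodMk hg)

lemma W_zero (ω : Ω) : F.W 0 ω = 1 := by
  have h := F.W_add 0 0 ω
  rw [add_zero, F.τ_zero] at h
  have h0 := F.W_ne_zero 0 ω
  have h1 := F.W_ne_top 0 ω
  calc F.W 0 ω = (F.W 0 ω)⁻¹ * (F.W 0 ω * F.W 0 ω) := by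
        rw [← mul_assoc, ENNReal.inv_mul_cancel h0 h1, one_mul]
    _ = 1 := by rw [← h, ENNReal.inv_mul_cancel h0 h1]

lemma τ_neg_τ (q : ℝ × ℝ) (ω : Ω) : F.τ (-q) (F.τ q ω) = ω := by
  rw [← F.τ_add, neg_add_cancel, F.τ_zero]

lemma τ_τ_neg (q : ℝ × ℝ) (ω : Ω) : F.τ q (F.τ (-q) ω) = ω := by
  rw [← F.τ_add, add_neg_cancel, F.τ_zero]

/-- The density `X` read along the orbit of `ω`. -/
noncomputable def tl (X : Ω → ℝ≥0∞) (ω : Ω) (q : ℝ × ℝ) : ℝ≥0∞ := X (F.τ q ω) * F.W q ω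

/-- The density `X` averaged along orbits. -/
noncomputable def cv (X : Ω → ℝ≥0∞) (μ : Measure (ℝ × ℝ)) (ω : Ω) : ℝ≥0∞ :=
  ∫⁻ q, F.tl X ω q ∂μ

@[fun_prop] lemma measurable_tl {α : Type*} [MeasurableSpace α] {X : Ω → ℝ≥0∞} {g : α → Ω}
    {f : α → ℝ × ℝ} (hX : Measurable X) (hg : Measurable g) (hf : Measurable f) :
    Measurable fun x => F.tl X (g x) (f x) := by
  unfold tl; fun_prop

@[fun_prop] lemma measurable_cv {X : Ω → ℝ≥0∞} (hX : Measurable X) (μ : Measure (ℝ × ℝ))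
    [SFinite μ] : Measurable (F.cv X μ) := by
  unfold cv; fun_prop

lemma tl_zero (X : Ω → ℝ≥0∞) (ω : Ω) : F.tl X ω 0 = X ω := by
  simp [tl, F.τ_zero, F.W_zero]

lemma tl_τ (X : Ω → ℝ≥0∞) (ω : Ω) (p q : ℝ × ℝ) :
    F.tl X (F.τ p ω) q * F.W p ω = F.tl X ω (q + p) := by
  simp only [tl, F.τ_add, F.W_add]; ring

lemma tl_cv (X : Ω → ℝ≥0∞) (μ : Measure (ℝ × ℝ)) (ω : Ω) (p : ℝ × ℝ) :
    F.tl (F.cv X μ) ω p = ∫⁻ q, F.tl X ω (q + p) ∂μ := by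
  rw [tl, cv, ← lintegral_mul_const' _ _ (F.W_ne_top p ω)]
  simp_rw [tl_τ]

lemma tl_add (X Y : Ω → ℝ≥0∞) (ω : Ω) (q : ℝ × ℝ) :
    F.tl (fun x => X x + Y x) ω q = F.tl X ω q + F.tl Y ω q := by
  simp only [tl, add_mul]

lemma tl_mono {X Y : Ω → ℝ≥0∞} (h : ∀ ω, X ω ≤ Y ω) (ω : Ω) (q : ℝ × ℝ) :
    F.tl X ω q ≤ F.tl Y ω q := mul_le_mul_left (h _) _

lemma tl_one (ω : Ω) (q : ℝ × ℝ) : F.tl (fun _ => 1) ω q = F.W q ω := by simp [tl]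

lemma cv_mono {X Y : Ω → ℝ≥0∞} (h : ∀ ω, X ω ≤ Y ω) (μ : Measure (ℝ × ℝ)) (ω : Ω) :
    F.cv X μ ω ≤ F.cv Y μ ω := lintegral_mono fun q => F.tl_mono h ω q

lemma cv_add {X Y : Ω → ℝ≥0∞} (hX : Measurable X) (μ : Measure (ℝ × ℝ)) (ω : Ω) :
    F.cv (fun x => X x + Y x) μ ω = F.cv X μ ω + F.cv Y μ ω := by
  simp only [cv, tl_add]
  rw [lintegral_add_left (by fun_prop)]

lemma lintegral_tl {X : Ω → ℝ≥0∞} (hX : Measurable X) (q : ℝ × ℝ) :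
    ∫⁻ ω, F.tl X ω q ∂M = ∫⁻ ω, X ω ∂M := F.inv q X hX

lemma qmp (q : ℝ × ℝ) : Measure.QuasiMeasurePreserving (F.τ q) M M := by
  refine ⟨by fun_prop, Measure.AbsolutelyContinuous.mk fun s hs h0 => ?_⟩
  rw [Measure.map_apply (by fun_prop) hs]
  have h := F.inv q (s.indicator 1) (measurable_one.indicator hs)
  have hm : Measurable fun ω => s.indicator (1 : Ω → ℝ≥0∞) (F.τ q ω) * F.W q ω :=
    ((measurable_one.indicator hs).comp (by fun_prop)).mul (by fun_prop)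
  rw [lintegral_indicator_one hs, h0, lintegral_eq_zero_iff hm] at h
  refine measure_mono_null (fun ω hω => ?_) (ae_iff.1 h)
  have : F.τ q ω ∈ s := hω
  simp [this, F.W_ne_zero]

variable [SFinite M]

/-- Mass transport. -/
lemma mtp (μ : Measure (ℝ × ℝ)) [SFinite μ] {H : ℝ × ℝ → Ω → ℝ≥0∞}
    (hH : Measurable fun x : (ℝ × ℝ) × Ω => H x.1 x.2) :
    ∫⁻ ω, ∫⁻ q, H q (F.τ q ω) * F.W q ω ∂μ ∂M = ∫⁻ ω, ∫⁻ q, H q ω ∂μ ∂M := by
  have h1 : Measurable fun x : Ω × (ℝ × ℝ) => H x.2 (F.τ x.2 x.1) :=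
    hH.comp (f := fun x : Ω × (ℝ × ℝ) => (x.2, F.τ x.2 x.1)) (by fun_prop)
  have h2 : Measurable fun x : Ω × (ℝ × ℝ) => H x.2 x.1 := hH.comp measurable_swap
  rw [lintegral_lintegral_swap (h1.mul (by fun_prop)).aemeasurable,
    lintegral_lintegral_swap (f := fun ω q => H q ω) h2.aemeasurable]
  exact lintegral_congr fun q => F.inv q (H q) (hH.comp measurable_prodMk_left)

lemma lintegral_cv {X : Ω → ℝ≥0∞} (hX : Measurable X) (μ : Measure (ℝ × ℝ)) [SFinite μ] :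
    ∫⁻ ω, F.cv X μ ω ∂M = μ Set.univ * ∫⁻ ω, X ω ∂M := by
  have := F.mtp μ (H := fun _ ω => X ω) (by fun_prop)
  simp only [cv, tl]
  rw [this]
  simp [lintegral_mul_const _ hX, mul_comm]

lemma lintegral_cv_prob {X : Ω → ℝ≥0∞} (hX : Measurable X) (μ : Measure (ℝ × ℝ))
    [IsProbabilityMeasure μ] : ∫⁻ ω, F.cv X μ ω ∂M = ∫⁻ ω, X ω ∂M := by
  rw [F.lintegral_cv hX, measure_univ, one_mul]

/-- Duality between averaging of densities and averaging of functions. -/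
lemma lintegral_mul_cv {X φ : Ω → ℝ≥0∞} (hX : Measurable X) (hφ : Measurable φ)
    (μ : Measure (ℝ × ℝ)) [SFinite μ] :
    ∫⁻ ω, φ ω * F.cv X μ ω ∂M = ∫⁻ ω, X ω * ∫⁻ q, φ (F.τ (-q) ω) ∂μ ∂M := by
  have := F.mtp μ (H := fun q ω => X ω * φ (F.τ (-q) ω)) (by fun_prop)
  simp only [τ_neg_τ] at this
  calc _ = ∫⁻ ω, ∫⁻ q, X (F.τ q ω) * φ ω * F.W q ω ∂μ ∂M := by
        refine lintegral_congr fun ω => ?_
        rw [cv, ← lintegral_const_mul _ (by fun_prop)]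
        refine lintegral_congr fun q => ?_
        rw [tl]; ring
    _ = _ := by
        rw [this]
        refine lintegral_congr fun ω => ?_
        rw [lintegral_const_mul _ (by fun_prop)]

omit [SFinite M]

lemma cv_cv {X : Ω → ℝ≥0∞} (hX : Measurable X) (a b a' b' : ℝ≥0) :
    F.cv (F.cv X (N2 a b)) (N2 a' b') = F.cv X (N2 (a + a') (b + b')) := by
  ext ω
  rw [cv]
  simp_rw [tl_cv, add_comm _ (_ : ℝ × ℝ)]
  rw [cv, add_comm a, add_comm b, ← lintegral_convN _ _ _ _ (by fun_prop)]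

/-- Strictly invariant functions. -/
def Inv {β : Type*} (f : Ω → β) : Prop := ∀ q ω, f (F.τ q ω) = f ω

lemma tl_inv_mul {s : Ω → ℝ≥0∞} (hs : F.Inv s) (X : Ω → ℝ≥0∞) (ω : Ω) (q : ℝ × ℝ) :
    F.tl (fun x => s x * X x) ω q = s ω * F.tl X ω q := by
  simp only [tl, hs q ω, mul_assoc]

lemma cv_inv_mul {s : Ω → ℝ≥0∞} (hs : F.Inv s) {X : Ω → ℝ≥0∞} (hX : Measurable X)
    (μ : Measure (ℝ × ℝ)) (ω : Ω) : F.cv (fun x => s x * X x) μ ω = s ω * F.cv X μ ω := by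
  simp only [cv, tl_inv_mul _ hs]
  rw [lintegral_const_mul _ (by fun_prop)]

lemma cv_inv {s : Ω → ℝ≥0∞} (hs : F.Inv s) (μ : Measure (ℝ × ℝ)) (ω : Ω) :
    F.cv s μ ω = s ω * F.cv (fun _ => 1) μ ω := by
  rw [← F.cv_inv_mul hs measurable_const]; simp

lemma cv_one_ne_zero (μ : Measure (ℝ × ℝ)) [NeZero μ] (ω : Ω) : F.cv (fun _ => 1) μ ω ≠ 0 := by
  rw [cv, Ne, lintegral_eq_zero_iff (by fun_prop)]
  intro h
  obtain ⟨q, hq⟩ := h.exists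
  exact F.W_ne_zero q ω (by simpa [tl_one] using hq)

/-- The same flow in a rotated frame. -/
def rotate (c s : ℝ) : NSFlow Ω M where
  τ q := F.τ (rot c s q)
  W q := F.W (rot c s q)
  meas_τ := by fun_prop
  meas_W := by fun_prop
  τ_zero ω := by rw [rot_zero, F.τ_zero]
  τ_add p q ω := by rw [rot_add, F.τ_add]
  W_add p q ω := by rw [rot_add, F.W_add]
  W_ne_zero q ω := F.W_ne_zero _ _
  W_ne_top q ω := F.W_ne_top _ _
  inv q φ hφ := F.inv _ φ hφ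

lemma rotate_tl (c s : ℝ) (X : Ω → ℝ≥0∞) (ω : Ω) (q : ℝ × ℝ) :
    (F.rotate c s).tl X ω q = F.tl X ω (rot c s q) := rfl

lemma rotate_cv {c s : ℝ} (h : c ^ 2 + s ^ 2 = 1) {X : Ω → ℝ≥0∞} (hX : Measurable X) (t : ℝ≥0) :
    (F.rotate c s).cv X (N2 t t) = F.cv X (N2 t t) := by
  ext ω
  exact lintegral_N2_rot h t (f := F.tl X ω) (by fun_prop)

lemma rotate_inv {c s : ℝ} (h : c ^ 2 + s ^ 2 = 1) {β : Type*} {f : Ω → β} :
    (F.rotate c s).Inv f ↔ F.Inv f := by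
  refine ⟨fun H q ω => ?_, fun H q ω => H _ _⟩
  have := H (rot c (-s) q) ω
  rwa [show (F.rotate c s).τ (rot c (-s) q) ω = F.τ q ω by
    simp only [rotate, rot_rot_neg h]] at this

end NSFlow

namespace Sym

variable {F : NSFlow Ω M} {δ : ℝ × ℝ → ℝ × ℝ} (Y : Sym F δ)

lemma ρ_ne_top (ω : Ω) : Y.ρ ω ≠ ∞ := ne_top_of_le_ne_top ENNReal.coe_ne_top (Y.ρ_le ω)

lemma ρ_ne_zero (ω : Ω) : Y.ρ ω ≠ 0 := fun h => by simpa [h] using Y.le_ρ ω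

lemma tl_ρ (ω : Ω) (q : ℝ × ℝ) : F.tl Y.ρ ω q = F.W (δ q) (Y.S ω) * Y.ρ ω := by
  rw [NSFlow.tl, Y.cocy, mul_comm]

lemma lintegral_ρ [IsProbabilityMeasure M] : ∫⁻ ω, Y.ρ ω ∂M = 1 := by
  simpa using Y.inv (fun _ => 1) measurable_const

end Sym

/-- The diagonal map of the plane. -/
noncomputable def dg (l : ℝ) (k : ℕ) (q : ℝ × ℝ) : ℝ × ℝ := (l ^ k * q.1, (l ^ k)⁻¹ * q.2)

@[fun_prop] lemma measurable_dg (l : ℝ) (k : ℕ) : Measurable (dg l k) := by unfold dg; fun_prop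

/-- The diagonal form of `HypSeq`. -/
structure Hyp (F : NSFlow Ω M) (l : ℝ) where
  Y : ∀ k, Sym F (dg l k)
  wander : ∀ Z : Set Ω, MeasurableSet Z → (∀ q ω, F.τ q ω ∈ Z ↔ ω ∈ Z) → M Z ≠ 0 →
      ∑' k, ∫⁻ ω in Z, (Y k).ρ ω ∂M = ∞

lemma HypSeq.hyp {F : NSFlow Ω M} {l c s : ℝ} (h : c ^ 2 + s ^ 2 = 1) (H : HypSeq F l c s) :
    Nonempty (Hyp (F.rotate c s) l) := by
  obtain ⟨δ, Sy, h1, h2⟩ := H
  refine ⟨⟨fun k => ⟨(Sy k).S, (Sy k).ρ, (Sy k).C, (Sy k).meas_S, (Sy k).meas_ρ, (Sy k).ρ_le,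
    (Sy k).le_ρ, fun q ω => ?_, fun q ω => ?_, (Sy k).inv⟩, fun Z hZ hi h0 => ?_⟩⟩
  · simp only [NSFlow.rotate, (Sy k).comm, h1, dg]
  · simp only [NSFlow.rotate, dg, ← h1, (Sy k).cocy]
  · refine h2 Z hZ (fun q ω => ?_) h0
    have := hi (rot c (-s) q) ω
    simpa only [NSFlow.rotate, rot_rot_neg h] using this

end Pool.Agent.MP_2b113a_an.H83
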