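import Mathlib
import Pool.Agent.MP_2b113a_an.H83.Flow

/-!
Invariant functions, conditional densities and asymptotically invariant sequences.
-/

namespace Pool.Agent.MP_2b113a_an.H83

open MeasureTheory ProbabilityTheory Filter Topology
open scoped ENNReal NNReal Real InnerProductSpace

lemma weak_cluster {E : Type*} [NormedAddCommGroup E] [InnerProductSpace ℝ E] [CompleteSpace E]
    (x : ℕ → E) (C : ℝ) (h : ∀ i, ‖x i‖ ≤ C) :
    ∃ y : E, ∀ (φ : E) (c : ℝ), (∀ᶠ i in atTop, ⟪x i, φ⟫_ℝ ≤ c) → ⟪y, φ⟫_ℝ ≤ c := by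
  let z : ℕ → WeakDual ℝ E := fun i => StrongDual.toWeakDual (InnerProductSpace.toDual ℝ E (x i))
  have hc := WeakDual.isCompact_closedBall (𝕜 := ℝ) (E := E) 0 C
  have hz : Tendsto z atTop (𝓟 (WeakDual.toStrongDual ⁻¹' Metric.closedBall 0 C)) := by
    refine tendsto_principal.2 (Eventually.of_forall fun i => ?_)
    simpa [z] using h i
  obtain ⟨L, -, hL⟩ := hc.exists_mapClusterPt hz
  refine ⟨(InnerProductSpace.toDual ℝ E).symm (WeakDual.toStrongDual L), fun φ c hφ => ?_⟩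
  rw [InnerProductSpace.toDual_symm_apply]
  have hcl : IsClosed {T : WeakDual ℝ E | T φ ≤ c} :=
    isClosed_le (WeakDual.eval_continuous φ) continuous_const
  exact hcl.mem_of_mapClusterPt hL hφ

variable {Ω : Type} [MeasurableSpace Ω] {M : Measure Ω}

lemma int_mul {f g : Ω → ℝ} (hf : MemLp f 2 M) (hg : MemLp g 2 M) :
    Integrable (fun ω => f ω * g ω) M := hf.integrable_mul hg

lemma weak_cluster_fun (f : ℕ → Ω → ℝ) (hf : ∀ i, MemLp (f i) 2 M) (C : ℝ)
    (h : ∀ i, ∫ ω, f i ω ^ 2 ∂M ≤ C) :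
    ∃ y : Ω → ℝ, Measurable y ∧ MemLp y 2 M ∧ ∀ (φ : Ω → ℝ) (c : ℝ), MemLp φ 2 M →
      (∀ᶠ i in atTop, ∫ ω, f i ω * φ ω ∂M ≤ c) → ∫ ω, y ω * φ ω ∂M ≤ c := by
  have key : ∀ {a b : Ω → ℝ} (ha : MemLp a 2 M) (hb : MemLp b 2 M),
      ⟪ha.toLp a, hb.toLp b⟫_ℝ = ∫ ω, a ω * b ω ∂M := fun ha hb => by
    rw [L2.inner_def]
    refine integral_congr_ae ?_
    filter_upwards [ha.coeFn_toLp, hb.coeFn_toLp] with ω h1 h2
    rw [h1, h2]; simp [mul_comm]
  obtain ⟨y, hy⟩ := weak_cluster (fun i => (hf i).toLp (f i)) (√C) fun i => by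
    refine Real.le_sqrt_of_sq_le ?_
    rw [← real_inner_self_eq_norm_sq, key]
    simpa [sq] using h i
  have hm := (Lp.aestronglyMeasurable y).aemeasurable
  have hy2 : MemLp (hm.mk y) 2 M := (Lp.memLp y).ae_eq hm.ae_eq_mk
  refine ⟨hm.mk y, hm.measurable_mk, hy2, fun φ c hφ H => ?_⟩
  have := hy (hφ.toLp φ) c (by simpa only [key] using H)
  rw [← key hy2 hφ, Lp.ext (hy2.coeFn_toLp.trans hm.ae_eq_mk.symm)]
  exact this

lemma N2_shift (p : ℝ × ℝ) {ε : ℝ} (hε : 0 < ε) :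
    ∃ s₀ : ℝ, ∀ t : ℝ≥0, s₀ ≤ t → ∀ g : ℝ × ℝ → ℝ≥0∞, Measurable g →
      ∫⁻ q, g (q + p) ∂N2 t t ≤
        ∫⁻ q, g q ∂N2 t t + ENNReal.ofReal ε * ∫⁻ q, g q ∂N2 (2 * t) (2 * t) := by
  obtain ⟨s₀, h0, h⟩ := bmp_shift (-p) (half_pos hε)
  refine ⟨s₀, fun t ht g hg => ?_⟩
  have ht0 : (0 : ℝ) < t := h0.trans_le ht
  have ht1 : t ≠ 0 := by exact_mod_cast ht0.ne'
  rw [lintegral_N2_iso ht1 (by fun_prop), lintegral_N2_iso ht1 hg,
    lintegral_N2_iso (mul_ne_zero two_ne_zero ht1) hg]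
  have h1 : ∫⁻ u, g (u + p) * bmp t u = ∫⁻ u, g u * bmp t (u + -p) := by
    rw [← lintegral_add_right_eq_self (fun u => g u * bmp t (u + -p)) p]
    simp
  have h2 : ENNReal.ofReal ε * ENNReal.ofReal (2 * π * (2 * t : ℝ≥0))⁻¹ =
      ENNReal.ofReal (2 * π * t)⁻¹ * ENNReal.ofReal (ε / 2) := by
    rw [← ENNReal.ofReal_mul hε.le, ← ENNReal.ofReal_mul (by positivity)]
    congr 1
    push_cast
    field_simp
  rw [h1, ← mul_assoc, h2, mul_assoc (ENNReal.ofReal _), ← mul_add]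
  refine mul_le_mul_right ?_ _
  rw [← lintegral_const_mul' _ _ ENNReal.ofReal_ne_top, ← lintegral_add_left (by fun_prop)]
  refine lintegral_mono fun u => ?_
  calc g u * bmp t (u + -p) ≤ g u * (bmp t u + ENNReal.ofReal (ε / 2) * bmp (2 * t) u) :=
        mul_le_mul_right (h t ht u) _
    _ = _ := by push_cast; ring

namespace NSFlow

variable (F : NSFlow Ω M)

lemma map_τ (q : ℝ × ℝ) : (M.withDensity (F.W q)).map (F.τ q) = M := by
  refine Measure.ext_of_lintegral _ fun f hf => ?_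
  rw [lintegral_map hf (by fun_prop), lintegral_withDensity_eq_lintegral_mul _ (by fun_prop)
    (by fun_prop), ← F.inv q f hf]
  exact lintegral_congr fun ω => mul_comm _ _

lemma integral_τ (q : ℝ × ℝ) {g : Ω → ℝ} (hg : Measurable g) :
    ∫ ω, g (F.τ q ω) * (F.W q ω).toReal ∂M = ∫ ω, g ω ∂M := by
  conv_rhs => rw [← F.map_τ q]
  rw [integral_map (by fun_prop) hg.aestronglyMeasurable,
    integral_withDensity_eq_integral_toReal_smul (by fun_prop)
      (ae_of_all _ fun ω => (F.W_ne_top q ω).lt_top)]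
  simp [mul_comm]

lemma W_neg_mul (q : ℝ × ℝ) (ω : Ω) : F.W q ω * F.W (-q) (F.τ q ω) = 1 := by
  rw [← F.W_add, neg_add_cancel, F.W_zero]

lemma upgrade [SFinite M] {f : Ω → ℝ≥0∞} (hf : Measurable f)
    (h : ∀ q, ∀ᵐ ω ∂M, f (F.τ q ω) ≤ f ω) :
    ∃ g : Ω → ℝ≥0∞, Measurable g ∧ F.Inv g ∧ g =ᵐ[M] f := by
  have h1 : ∀ q, ∀ᵐ ω ∂M, f (F.τ q ω) = f ω := fun q => by
    filter_upwards [h q, (F.qmp q).ae (h (-q))] with ω h1 h2
    rw [F.τ_neg_τ] at h2
    exact le_antisymm h1 h2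
  refine ⟨fun ω => essSup (fun q => f (F.τ q ω)) volume, ?_, fun p ω => ?_, ?_⟩
  · refine measurable_of_Iic fun r => ?_
    have : (fun ω => essSup (fun q => f (F.τ q ω)) volume) ⁻¹' Set.Iic r =
        {ω | volume (Prod.mk ω ⁻¹' {x : Ω × (ℝ × ℝ) | r < f (F.τ x.2 x.1)}) = 0} := by
      ext ω
      simp only [Set.mem_preimage, Set.mem_Iic, Set.mem_ofPred_eq]
      constructor
      · intro hr
        refine measure_mono_null (fun q hq => ?_)
          (ae_iff.1 (ENNReal.ae_le_essSup (μ := volume) fun q => f (F.τ q ω)))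
        exact not_le.2 (lt_of_le_of_lt hr hq)
      · intro hr
        refine essSup_le_of_ae_le r ?_
        refine measure_mono_null (fun q hq => ?_) hr
        exact not_le.1 (show ¬ f (F.τ q ω) ≤ r from hq)
    rw [this]
    exact measurable_measure_prodMk_left (measurableSet_lt measurable_const (by fun_prop))
      (measurableSet_singleton 0)
  · have := essSup_map_measure_of_measurable (μ := (volume : Measure (ℝ × ℝ)))
      (g := fun q => f (F.τ q ω)) (f := fun q => q + p) (by fun_prop) (by fun_prop)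
    rw [map_add_right_eq_self] at this
    simp only [this, Function.comp_def, F.τ_add]
  · have := (Measure.ae_ae_comm (μ := M) (ν := (volume : Measure (ℝ × ℝ)))
      (p := fun ω q => f (F.τ q ω) = f ω)
      (measurableSet_eq_fun (by fun_prop) (by fun_prop))).2 (ae_of_all _ h1)
    filter_upwards [this] with ω hω
    rw [essSup_congr_ae hω, essSup_const']

/-- The two densities have the same integrals against invariant functions. -/
def Rel (ρ s : Ω → ℝ≥0∞) : Prop :=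
  ∀ f : Ω → ℝ≥0∞, Measurable f → F.Inv f → ∫⁻ ω, f ω * ρ ω ∂M = ∫⁻ ω, f ω * s ω ∂M

lemma Rel.symm {F : NSFlow Ω M} {ρ s : Ω → ℝ≥0∞} (h : F.Rel ρ s) : F.Rel s ρ :=
  fun f hf hi => (h f hf hi).symm

/-- The invariant sets. -/
@[instance_reducible] def invSigma : MeasurableSpace Ω where
  MeasurableSet' Z := MeasurableSet Z ∧ ∀ q, F.τ q ⁻¹' Z = Z
  measurableSet_empty := ⟨MeasurableSet.empty, fun _ => rfl⟩
  measurableSet_compl Z h := ⟨h.1.compl, fun q => by rw [Set.preimage_compl, h.2]⟩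
  measurableSet_iUnion Z h :=
    ⟨MeasurableSet.iUnion fun i => (h i).1, fun q => by simp [Set.preimage_iUnion, (h _).2]⟩

lemma exists_cond [IsProbabilityMeasure M] {ρ : Ω → ℝ≥0∞} (hρ : Measurable ρ) {C : ℝ≥0}
    (h1 : ∀ ω, ρ ω ≤ C) (h2 : ∀ ω, 1 ≤ C * ρ ω) :
    ∃ s : Ω → ℝ≥0∞, Measurable s ∧ F.Inv s ∧ (∀ ω, s ω ≤ C) ∧ (∀ ω, 1 ≤ C * s ω) ∧
      F.Rel ρ s := by
  classical
  have hm : F.invSigma ≤ ‹MeasurableSpace Ω› := fun Z h => h.1
  obtain ⟨ω₀⟩ : Nonempty Ω := nonempty_of_isProbabilityMeasure M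
  set s₀ := condLExp F.invSigma M ρ with hs₀
  have hI : Measurable[F.invSigma] s₀ := measurable_condLExp _ _ _
  have hs : Measurable s₀ := hI.mono hm le_rfl
  have hinv : F.Inv s₀ := fun q ω => by
    have := (hI (measurableSet_singleton (s₀ ω))).2 q
    have h3 : ω ∈ F.τ q ⁻¹' (s₀ ⁻¹' {s₀ ω}) := by rw [this]; rfl
    exact h3
  have hle : ∀ᵐ ω ∂M, s₀ ω ≤ C := by
    have := condLExp_mono (mΩ := F.invSigma) (P := M) (X := ρ) (Y := fun _ => (C : ℝ≥0∞))
      (ae_of_all _ h1)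
    rwa [condLExp_const hm] at this
  have hge : ∀ᵐ ω ∂M, 1 ≤ C * s₀ ω := by
    have := condLExp_mono (mΩ := F.invSigma) (P := M) (Y := (C : ℝ≥0∞) • ρ)
      (X := fun _ => (1 : ℝ≥0∞)) (ae_of_all _ h2)
    rw [condLExp_const hm] at this
    filter_upwards [this, condLExp_smul (mΩ := F.invSigma) ρ hρ.aemeasurable (C : ℝ≥0∞)]
      with ω a b
    rw [b] at a
    exact a
  refine ⟨fun ω => if s₀ ω ≤ C ∧ 1 ≤ C * s₀ ω then s₀ ω else ρ ω₀, ?_, fun q ω => ?_,
    fun ω => ?_, fun ω => ?_, fun f hf hi => ?_⟩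
  · exact Measurable.ite ((measurableSet_le hs measurable_const).inter
      (measurableSet_le measurable_const (hs.const_mul _))) hs measurable_const
  · simp only [hinv q ω]
  · dsimp only
    split_ifs with h
    exacts [h.1, h1 _]
  · dsimp only
    split_ifs with h
    exacts [h.2, h2 _]
  · have hfI : Measurable[F.invSigma] f := fun t ht =>
      ⟨hf ht, fun q => by ext ω; simp [hi q ω]⟩
    have he : (M.withDensity ρ).trim hm = (M.withDensity s₀).trim hm := by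
      refine @Measure.ext _ F.invSigma _ _ fun Z hZ => ?_
      rw [trim_measurableSet_eq hm hZ, trim_measurableSet_eq hm hZ, withDensity_apply _ hZ.1,
        withDensity_apply _ hZ.1, setLIntegral_condLExp hm _ _ hZ]
    calc _ = ∫⁻ ω, f ω ∂(M.withDensity ρ).trim hm := by
          rw [lintegral_trim hm hfI, lintegral_withDensity_eq_lintegral_mul _ hρ hf]
          exact lintegral_congr fun ω => mul_comm _ _
      _ = ∫⁻ ω, f ω * s₀ ω ∂M := by
          rw [he, lintegral_trim hm hfI, lintegral_withDensity_eq_lintegral_mul _ hs hf]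
          exact lintegral_congr fun ω => mul_comm _ _
      _ = _ := by
          refine lintegral_congr_ae ?_
          filter_upwards [hle, hge] with ω a b
          rw [if_pos ⟨a, b⟩]

end NSFlow

lemma memLp_of_bdd [IsFiniteMeasure M] {f : Ω → ℝ} (hf : Measurable f) (C : ℝ)
    (h : ∀ ω, |f ω| ≤ C) : MemLp f 2 M :=
  MemLp.of_bound hf.aestronglyMeasurable C (ae_of_all _ h)

lemma integrable_of_bdd [IsFiniteMeasure M] {f : Ω → ℝ} (hf : Measurable f) (C : ℝ)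
    (h : ∀ ω, |f ω| ≤ C) : Integrable f M :=
  Integrable.of_bound hf.aestronglyMeasurable C (ae_of_all _ h)

lemma abs_toReal_le {x : ℝ≥0∞} {B : ℝ≥0} (h : x ≤ B) : |x.toReal| ≤ B := by
  rw [abs_of_nonneg ENNReal.toReal_nonneg]
  simpa using ENNReal.toReal_mono ENNReal.coe_ne_top h

lemma integral_toReal_mul {f g : Ω → ℝ≥0∞} (hf : Measurable f) (hg : Measurable g) {B C : ℝ≥0}
    (h1 : ∀ ω, f ω ≤ B) (h2 : ∀ ω, g ω ≤ C) :
    ∫ ω, (f ω).toReal * (g ω).toReal ∂M = (∫⁻ ω, f ω * g ω ∂M).toReal := by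
  simp_rw [← ENNReal.toReal_mul]
  refine integral_toReal (by fun_prop) (ae_of_all _ fun ω => ?_)
  exact ENNReal.mul_lt_top ((h1 ω).trans_lt ENNReal.coe_lt_top)
    ((h2 ω).trans_lt ENNReal.coe_lt_top)

lemma lintegral_mul_ne_top [IsFiniteMeasure M] {f g : Ω → ℝ≥0∞} {B C : ℝ≥0}
    (h1 : ∀ ω, f ω ≤ B) (h2 : ∀ ω, g ω ≤ C) : ∫⁻ ω, f ω * g ω ∂M ≠ ∞ := by
  refine ne_top_of_le_ne_top ?_ (lintegral_mono fun ω => mul_le_mul' (h1 ω) (h2 ω))
  rw [lintegral_const]
  exact ENNReal.mul_ne_top (ENNReal.mul_ne_top ENNReal.coe_ne_top ENNReal.coe_ne_top)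
    (measure_ne_top _ _)

namespace NSFlow

variable (F : NSFlow Ω M)

/-- A weak cluster point of an asymptotically invariant sequence is invariant. -/
lemma cluster_inv [IsFiniteMeasure M] {Φ : ℕ → Ω → ℝ≥0∞} (hΦ : ∀ i, Measurable (Φ i)) {B : ℝ≥0}
    (hB : ∀ i ω, Φ i ω ≤ B) (q : ℝ × ℝ)
    (hq : Tendsto (fun i => ∫⁻ ω, Φ i (F.τ q ω) - Φ i ω ∂M) atTop (𝓝 0))
    {y : Ω → ℝ} (hy : Measurable y) (hy2 : MemLp y 2 M)
    (H : ∀ (φ : Ω → ℝ) (c : ℝ), MemLp φ 2 M →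
      (∀ᶠ i in atTop, ∫ ω, (Φ i ω).toReal * φ ω ∂M ≤ c) → ∫ ω, y ω * φ ω ∂M ≤ c) :
    ∀ᵐ ω ∂M, y (F.τ q ω) ≤ y ω := by
  classical
  set A := {ω | y ω < y (F.τ q ω)} with hA
  have hAm : MeasurableSet A := measurableSet_lt hy (by fun_prop)
  let θ : Ω → ℝ := fun ω => A.indicator (fun ω => min 1 (F.W q ω).toReal) ω
  have hθ : Measurable θ := Measurable.indicator (by fun_prop) hAm
  have θ0 : ∀ ω, 0 ≤ θ ω := fun ω =>
    Set.indicator_nonneg (fun _ _ => le_min zero_le_one ENNReal.toReal_nonneg) ω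
  have θ1 : ∀ ω, θ ω ≤ 1 := fun ω =>
    Set.indicator_apply_le' (fun _ => min_le_left _ _) fun _ => zero_le_one
  have θ2 : ∀ ω, θ ω ≤ (F.W q ω).toReal := fun ω =>
    Set.indicator_apply_le' (fun _ => min_le_right _ _) fun _ => ENNReal.toReal_nonneg
  let φ₁ : Ω → ℝ := fun ω => θ (F.τ (-q) ω) * (F.W (-q) ω).toReal
  have hφ₁ : Measurable φ₁ := by fun_prop
  have φ0 : ∀ ω, 0 ≤ φ₁ ω := fun ω => mul_nonneg (θ0 _) ENNReal.toReal_nonneg
  have φ1 : ∀ ω, φ₁ ω ≤ 1 := fun ω => by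
    refine (mul_le_mul_of_nonneg_right (θ2 _) ENNReal.toReal_nonneg).trans ?_
    have := F.W_neg_mul (-q) ω
    rw [neg_neg] at this
    rw [← ENNReal.toReal_mul, mul_comm, this]; simp
  have hθ2 : MemLp θ 2 M := memLp_of_bdd hθ 1 fun ω => by rw [abs_of_nonneg (θ0 ω)]; exact θ1 ω
  have hφ2 : MemLp φ₁ 2 M := memLp_of_bdd hφ₁ 1 fun ω => by rw [abs_of_nonneg (φ0 ω)]; exact φ1 ω
  have tr : ∀ g : Ω → ℝ, Measurable g → ∫ ω, g ω * φ₁ ω ∂M = ∫ ω, g (F.τ q ω) * θ ω ∂M :=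
    fun g hg => by
      rw [← F.integral_τ (-q) (g := fun ω => g (F.τ q ω) * θ ω) (by fun_prop)]
      simp only [F.τ_τ_neg, φ₁, mul_assoc]
  have sp : ∀ g : Ω → ℝ, Measurable g → MemLp g 2 M →
      ∫ ω, g ω * (φ₁ ω - θ ω) ∂M = ∫ ω, g (F.τ q ω) * θ ω ∂M - ∫ ω, g ω * θ ω ∂M :=
    fun g hg hg2 => by
      simp_rw [mul_sub]
      rw [integral_sub (int_mul hg2 hφ2) (int_mul hg2 hθ2), tr g hg]
  have main : ∫ ω, y ω * (φ₁ ω - θ ω) ∂M ≤ 0 := by
    refine le_of_forall_pos_le_add fun ε hε => ?_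
    rw [zero_add]
    refine H _ ε (hφ2.sub hθ2) ?_
    filter_upwards [(ENNReal.tendsto_nhds_zero.1 hq) (ENNReal.ofReal ε) (by simpa)] with i hi
    have b1 : ∀ ω, |(Φ i ω).toReal| ≤ B := fun ω => abs_toReal_le (hB i ω)
    have b2 : ∀ x ω, |(Φ i x).toReal * θ ω| ≤ B := fun x ω => by
      rw [abs_mul, abs_of_nonneg (θ0 ω)]
      exact (mul_le_of_le_one_right (abs_nonneg _) (θ1 ω)).trans (b1 x)
    have m1 := hΦ i
    rw [sp _ (by fun_prop) (memLp_of_bdd (by fun_prop) B b1), ← integral_sub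
      (integrable_of_bdd (by fun_prop) B fun ω => b2 _ _)
      (integrable_of_bdd (by fun_prop) B fun ω => b2 _ _)]
    have fin : ∀ ω, Φ i ω ≠ ∞ := fun ω => ne_top_of_le_ne_top ENNReal.coe_ne_top (hB i ω)
    calc _ ≤ ∫ ω, (Φ i (F.τ q ω) - Φ i ω).toReal ∂M := by
          refine integral_mono ((integrable_of_bdd (by fun_prop) B fun ω => b2 _ _).sub
            (integrable_of_bdd (by fun_prop) B fun ω => b2 _ _))
            (integrable_of_bdd (by fun_prop) B fun ω =>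
              abs_toReal_le (tsub_le_self.trans (hB i _))) fun ω => ?_
          have e := ENNReal.le_toReal_sub (a := Φ i (F.τ q ω)) (fin ω)
          have e0 : 0 ≤ (Φ i (F.τ q ω) - Φ i ω).toReal := ENNReal.toReal_nonneg
          show _ - _ ≤ _
          rw [← sub_mul]
          exact (mul_le_mul_of_nonneg_right e (θ0 ω)).trans (mul_le_of_le_one_right e0 (θ1 ω))
      _ = (∫⁻ ω, Φ i (F.τ q ω) - Φ i ω ∂M).toReal :=
          integral_toReal (by fun_prop) (ae_of_all _ fun ω =>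
            (tsub_le_self.trans (hB i _)).trans_lt ENNReal.coe_lt_top)
      _ ≤ ε := ENNReal.toReal_le_of_le_ofReal hε.le hi
  have i1 : Integrable (fun ω => y (F.τ q ω) * θ ω) M := by
    have h1 : Integrable (fun ω => y (F.τ q ω) * (F.W q ω).toReal) M := by
      have h2 : Integrable y ((M.withDensity (F.W q)).map (F.τ q)) := by
        rw [F.map_τ]; exact hy2.integrable one_le_two
      rw [integrable_map_measure hy.aestronglyMeasurable (by fun_prop),
        integrable_withDensity_iff (by fun_prop)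
          (ae_of_all _ fun ω => (F.W_ne_top q ω).lt_top)] at h2
      exact h2
    refine h1.mono (by fun_prop) (ae_of_all _ fun ω => ?_)
    simp only [norm_mul, Real.norm_eq_abs, abs_of_nonneg (θ0 ω), ENNReal.abs_toReal]
    exact mul_le_mul_of_nonneg_left (θ2 ω) (abs_nonneg _)
  have i2 : Integrable (fun ω => y ω * θ ω) M := hy2.integrable_mul hθ2
  rw [sp y hy hy2, ← integral_sub i1 i2] at main
  have nn : ∀ ω, 0 ≤ y (F.τ q ω) * θ ω - y ω * θ ω := fun ω => by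
    rw [← sub_mul]
    by_cases h : ω ∈ A
    · exact mul_nonneg (sub_nonneg.2 (le_of_lt h)) (θ0 ω)
    · simp [θ, h]
  have z := (integral_eq_zero_iff_of_nonneg nn (i1.sub i2)).1
    (le_antisymm main (integral_nonneg nn))
  filter_upwards [z] with ω hω
  by_contra h
  have h' : ω ∈ A := not_le.1 h
  have p1 : 0 < θ ω := by
    simp only [θ, Set.indicator_of_mem h']
    exact lt_min one_pos (ENNReal.toReal_pos (F.W_ne_zero _ _) (F.W_ne_top _ _))
  have : 0 < (y (F.τ q ω) - y ω) * θ ω := mul_pos (sub_pos.2 h') p1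
  rw [sub_mul] at this
  exact this.ne' hω

/-- Asymptotically invariant bounded sequences do not distinguish related densities. -/
lemma asymp_inv [IsFiniteMeasure M] {ρ s : Ω → ℝ≥0∞} (hρ : Measurable ρ) (hs : Measurable s)
    {C : ℝ≥0} (h1 : ∀ ω, ρ ω ≤ C) (h2 : ∀ ω, s ω ≤ C) (hR : F.Rel ρ s)
    {Φ : ℕ → Ω → ℝ≥0∞} (hΦ : ∀ i, Measurable (Φ i)) {B : ℝ≥0} (hB : ∀ i ω, Φ i ω ≤ B)
    (hq : ∀ q, Tendsto (fun i => ∫⁻ ω, Φ i (F.τ q ω) - Φ i ω ∂M) atTop (𝓝 0))
    {ε : ℝ≥0∞} (hε : ε ≠ 0) :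
    ∀ᶠ i in atTop, ∫⁻ ω, Φ i ω * s ω ∂M ≤ ∫⁻ ω, Φ i ω * ρ ω ∂M + ε := by
  wlog hε' : ε ≠ ∞
  · simp [not_not.1 hε']
  by_contra hcon
  obtain ⟨u, hu, hP⟩ := extraction_of_frequently_atTop (not_eventually.1 hcon)
  obtain ⟨y, hy, hy2, H⟩ := weak_cluster_fun (M := M) (fun i ω => (Φ (u i) ω).toReal)
    (fun i => memLp_of_bdd (hΦ _).ennreal_toReal B fun ω => abs_toReal_le (hB _ ω))
    (∫ _, (B : ℝ) ^ 2 ∂M) fun i => by
      have m1 := hΦ (u i)
      have b : ∀ ω, (Φ (u i) ω).toReal ^ 2 ≤ (B : ℝ) ^ 2 := fun ω =>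
        sq_le_sq.2 ((abs_toReal_le (hB _ ω)).trans (le_abs_self _))
      exact integral_mono (integrable_of_bdd (by fun_prop) (B ^ 2) fun ω => by
        rw [abs_of_nonneg (sq_nonneg _)]; exact b ω) (integrable_const _) b
  have hinv : ∀ q, ∀ᵐ ω ∂M, y (F.τ q ω) ≤ y ω := fun q =>
    F.cluster_inv (Φ := fun i => Φ (u i)) (fun i => hΦ _) (fun i => hB _) q
      ((hq q).comp hu.tendsto_atTop) hy hy2 H
  have hpos : ∀ᵐ ω ∂M, 0 ≤ y ω := by
    have hm : MeasurableSet {ω | y ω < 0} := measurableSet_lt hy measurable_const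
    let φ : Ω → ℝ := {ω | y ω < 0}.indicator fun _ => -1
    have hφ : MemLp φ 2 M := (memLp_const (-1)).indicator hm
    have h3 := H φ 0 hφ (Eventually.of_forall fun i => integral_nonpos fun ω => by
      refine mul_nonpos_of_nonneg_of_nonpos ENNReal.toReal_nonneg ?_
      exact Set.indicator_apply_nonpos fun _ => by norm_num)
    have nn : ∀ ω, 0 ≤ y ω * φ ω := fun ω => by
      by_cases h : y ω < 0
      · simp [φ, h, h.le]
      · simp [φ, h]
    filter_upwards [(integral_eq_zero_iff_of_nonneg nn (int_mul hy2 hφ)).1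
      (le_antisymm h3 (integral_nonneg nn))] with ω hω
    by_contra h
    have h' : y ω < 0 := not_le.1 h
    simp [φ, h', h'.ne] at hω
  obtain ⟨g, hg, hgi, hge⟩ := F.upgrade (f := fun ω => ENNReal.ofReal (y ω)) (by fun_prop)
    fun q => (hinv q).mono fun ω h => ENNReal.ofReal_le_ofReal h
  have mem : ∀ {r : Ω → ℝ≥0∞}, Measurable r → (∀ ω, r ω ≤ C) →
      MemLp (fun ω => (r ω).toReal) 2 M := fun hr hC =>
    memLp_of_bdd hr.ennreal_toReal C fun ω => abs_toReal_le (hC ω)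
  have ev : ∀ {r : Ω → ℝ≥0∞}, Measurable r → (∀ ω, r ω ≤ C) →
      ∫ ω, y ω * (r ω).toReal ∂M = (∫⁻ ω, g ω * r ω ∂M).toReal := fun {r} hr hC => by
    rw [← integral_toReal (by fun_prop)]
    · refine integral_congr_ae ?_
      filter_upwards [hge, hpos] with ω a b
      rw [ENNReal.toReal_mul, a, ENNReal.toReal_ofReal b]
    · filter_upwards [hge] with ω a
      rw [a]
      exact ENNReal.mul_lt_top ENNReal.ofReal_lt_top ((hC ω).trans_lt ENNReal.coe_lt_top)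
  have h4 := H (fun ω => (ρ ω).toReal - (s ω).toReal) (-ε.toReal) ((mem hρ h1).sub (mem hs h2))
    (Eventually.of_forall fun i => by
      have mΦ : MemLp (fun ω => (Φ (u i) ω).toReal) 2 M :=
        memLp_of_bdd (hΦ _).ennreal_toReal B fun ω => abs_toReal_le (hB _ ω)
      simp_rw [mul_sub]
      rw [integral_sub (int_mul mΦ (mem hρ h1)) (int_mul mΦ (mem hs h2)),
        integral_toReal_mul (hΦ _) hρ (hB _) h1, integral_toReal_mul (hΦ _) hs (hB _) h2]
      have := ENNReal.toReal_mono (lintegral_mul_ne_top (hB _) h2) (not_le.1 (hP i)).le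
      rw [ENNReal.toReal_add (lintegral_mul_ne_top (hB _) h1) hε'] at this
      linarith)
  simp_rw [mul_sub] at h4
  rw [integral_sub (int_mul hy2 (mem hρ h1)) (int_mul hy2 (mem hs h2)),
    ev hρ h1, ev hs h2, hR g hg hgi] at h4
  have := ENNReal.toReal_pos hε hε'
  linarith

/-- The ratio ergodic theorem in the mean, for wide Gaussian averages. -/
lemma cv_sub_tendsto [IsFiniteMeasure M] {ρ s : Ω → ℝ≥0∞} (hρ : Measurable ρ)
    (hs : Measurable s) {C : ℝ≥0} (h1 : ∀ ω, ρ ω ≤ C) (h2 : ∀ ω, s ω ≤ C) (hR : F.Rel ρ s)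
    {t : ℕ → ℝ≥0} (ht : Tendsto t atTop atTop) {ε : ℝ≥0∞} (hε : ε ≠ 0) :
    ∀ᶠ i in atTop, ∫⁻ ω, F.cv s (N2 (t i) (t i)) ω - F.cv ρ (N2 (t i) (t i)) ω ∂M ≤ ε := by
  classical
  let A : ℕ → Set Ω := fun i => {ω | F.cv ρ (N2 (t i) (t i)) ω < F.cv s (N2 (t i) (t i)) ω}
  have hA : ∀ i, MeasurableSet (A i) := fun i => measurableSet_lt (by fun_prop) (by fun_prop)
  let σ : ℕ → Ω → ℝ≥0∞ := fun i => (A i).indicator 1
  have hσ : ∀ i, Measurable (σ i) := fun i => measurable_one.indicator (hA i)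
  have σ1 : ∀ i ω, σ i ω ≤ 1 := fun i ω => Set.indicator_apply_le' (fun _ => le_rfl) fun _ => by simp
  let Φ : ℕ → Ω → ℝ≥0∞ := fun i ω => ∫⁻ q, σ i (F.τ (-q) ω) ∂N2 (t i) (t i)
  have hΦ : ∀ i, Measurable (Φ i) := fun i => by
    have := hσ i
    simp only [Φ]; fun_prop
  have hb : ∀ i ω (μ : Measure (ℝ × ℝ)) [IsProbabilityMeasure μ],
      ∫⁻ q, σ i (F.τ (-q) ω) ∂μ ≤ 1 := fun i ω μ _ =>
    (lintegral_mono fun q => σ1 i _).trans (by simp)
  have key := F.asymp_inv hρ hs h1 h2 hR hΦ (B := 1) (fun i ω => hb i ω _) (fun p => ?_) hε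
  · filter_upwards [key] with i hi
    have e : ∀ {r : Ω → ℝ≥0∞}, Measurable r →
        ∫⁻ ω, Φ i ω * r ω ∂M = ∫⁻ ω, σ i ω * F.cv r (N2 (t i) (t i)) ω ∂M := fun hr => by
      rw [F.lintegral_mul_cv hr (hσ i)]
      exact lintegral_congr fun ω => mul_comm _ _
    have fin : ∫⁻ ω, Φ i ω * ρ ω ∂M ≠ ∞ := lintegral_mul_ne_top (B := 1) (fun ω => hb i ω _) h1
    rw [e hs, e hρ] at hi
    rw [e hρ] at fin
    have m1 := hσ i
    refine (ENNReal.add_le_add_iff_left fin).1 (le_trans (le_of_eq ?_) hi)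
    rw [← lintegral_add_left (by fun_prop)]
    refine lintegral_congr fun ω => ?_
    by_cases h : ω ∈ A i
    · simp only [σ, Set.indicator_of_mem h, Pi.one_apply, one_mul]
      exact add_tsub_cancel_of_le (le_of_lt h)
    · simp only [σ, Set.indicator_of_notMem h, zero_mul, zero_add]
      exact tsub_eq_zero_of_le (not_lt.1 h)
  · refine ENNReal.tendsto_nhds_zero.2 fun e he => ?_
    obtain ⟨δ, hδ, hδ'⟩ : ∃ δ : ℝ, 0 < δ ∧ ENNReal.ofReal δ * M Set.univ ≤ e := by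
      obtain ⟨r, hr, hr'⟩ := ENNReal.exists_nnreal_pos_mul_lt (measure_ne_top M Set.univ) he.ne'
      exact ⟨r, hr, by simpa using hr'.le⟩
    obtain ⟨s₀, hs₀⟩ := N2_shift (-p) hδ
    have ht' : Tendsto (fun i => (t i : ℝ)) atTop atTop := NNReal.tendsto_coe_atTop.2 ht
    filter_upwards [ht'.eventually_ge_atTop s₀] with i hi
    refine le_trans (lintegral_mono fun ω => ?_) (le_of_eq_of_le (lintegral_const _) hδ')
    have m1 := hσ i
    have := hs₀ (t i) hi (fun q => σ i (F.τ (-q) ω)) (by fun_prop)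
    rw [tsub_le_iff_left]
    refine le_trans (le_of_eq ?_) (this.trans (add_le_add_right ?_ _))
    · refine lintegral_congr fun q => ?_
      rw [← F.τ_add, neg_add, neg_neg]
    · exact (mul_le_mul_right (hb i ω _) _).trans (mul_one _).le

end NSFlow

/-- The conditional densities of a hyperbolic sequence of symmetries. -/
structure Cond {F : NSFlow Ω M} {l : ℝ} (H : Hyp F l) where
  s : ℕ → Ω → ℝ≥0∞
  meas : ∀ k, Measurable (s k)
  inv : ∀ k, F.Inv (s k)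
  le : ∀ k ω, s k ω ≤ (H.Y k).C
  ge : ∀ k ω, 1 ≤ (H.Y k).C * s k ω
  rel : ∀ k, F.Rel (H.Y k).ρ (s k)
  small : ∀ (L : ℝ≥0) (ε : ℝ≥0∞), ε ≠ 0 →
    ∃ N : ℕ, M {ω | ∑ k ∈ Finset.range N, s k ω < L} ≤ ε

lemma Hyp.cond [IsProbabilityMeasure M] {F : NSFlow Ω M} {l : ℝ} (H : Hyp F l) :
    Nonempty (Cond H) := by
  choose s h1 h2 h3 h4 h5 using fun k =>
    F.exists_cond (H.Y k).meas_ρ (H.Y k).ρ_le (H.Y k).le_ρ
  refine ⟨⟨s, h1, h2, h3, h4, h5, fun L ε hε => ?_⟩⟩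
  let Z : ℕ → Set Ω := fun N => {ω | ∑ k ∈ Finset.range N, s k ω < L}
  have hZ : ∀ N, MeasurableSet (Z N) := fun N =>
    measurableSet_lt (Finset.measurable_sum _ fun k _ => h1 k) measurable_const
  have anti : Antitone Z := fun a b hab ω hω =>
    show ∑ k ∈ Finset.range a, s k ω < L from
      lt_of_le_of_lt (Finset.sum_le_sum_of_subset (Finset.range_mono hab)) hω
  have hI := MeasurableSet.iInter hZ
  have h0 : M (⋂ N, Z N) = 0 := by
    by_contra h0
    have hinv : ∀ q ω, F.τ q ω ∈ ⋂ N, Z N ↔ ω ∈ ⋂ N, Z N := fun q ω => by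
      simp only [Set.mem_iInter, Z, Set.mem_ofPred_eq, h2 _ q ω]
    have hw := H.wander _ hI hinv h0
    have e : ∀ k, ∫⁻ ω in ⋂ N, Z N, (H.Y k).ρ ω ∂M = ∫⁻ ω in ⋂ N, Z N, s k ω ∂M := fun k => by
      have := h5 k ((⋂ N, Z N).indicator 1) (measurable_one.indicator hI) fun q ω => by
        by_cases h : ω ∈ ⋂ N, Z N
        · rw [Set.indicator_of_mem h, Set.indicator_of_mem ((hinv q ω).2 h)]; rfl
        · rw [Set.indicator_of_notMem h, Set.indicator_of_notMem (mt (hinv q ω).1 h)]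
      rw [← lintegral_indicator hI, ← lintegral_indicator hI]
      simpa only [← Set.indicator_mul_left, Pi.one_apply, one_mul] using this
    simp_rw [e] at hw
    rw [← lintegral_tsum fun k => (h1 k).aemeasurable] at hw
    refine (ne_top_of_le_ne_top ?_ (setLIntegral_mono' (g := fun _ => (L : ℝ≥0∞)) hI
      fun ω hω => ?_)) hw
    · rw [lintegral_const]
      exact ENNReal.mul_ne_top ENNReal.coe_ne_top (measure_ne_top _ _)
    · exact ENNReal.tsum_le_of_sum_range_le fun N => le_of_lt (Set.mem_iInter.1 hω N)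
  have := tendsto_measure_iInter_atTop (μ := M) (fun N => (hZ N).nullMeasurableSet) anti
    ⟨0, measure_ne_top _ _⟩
  rw [h0] at this
  exact ((ENNReal.tendsto_nhds_zero.1 this) ε (pos_iff_ne_zero.2 hε)).exists

end Pool.Agent.MP_2b113a_an.H83
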