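import Mathlib
import Pool.Agent.MP_2b113a_an.H83.Inv

/-!
Weighted masses along orbits, the bound on incoming mass, and slowly varying weights.
-/

namespace Pool.Agent.MP_2b113a_an.H83

open MeasureTheory ProbabilityTheory Filter Topology
open scoped ENNReal NNReal Real

variable {Ω : Type} [MeasurableSpace Ω] {M : Measure Ω}

lemma bmp_mul_le (s : ℝ) (hs : 0 < s) (u u' p : ℝ × ℝ) :
    bmp (s / 2) (u - p) * bmp (s / 2) (u' - p) ≤ bmp s (u' - u) := by
  simp only [bmp]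
  rw [← ENNReal.ofReal_mul (by positivity), ← Real.exp_add]
  refine ENNReal.ofReal_le_ofReal (Real.exp_le_exp.2 ?_)
  have h := nsq_add_le (u' - p) (p - u)
  rw [sub_add_sub_cancel, nsq_sub_comm p u] at h
  rw [← add_div, div_le_div_iff₀ (by positivity) (by positivity)]
  nlinarith

lemma bmp_mul_le' (s : ℝ) (hs : 0 < s) (u p : ℝ × ℝ) :
    bmp (s / 8) (p - u) * bmp (2 * s) u ≤
      bmp (4 * s) p * (bmp (s / 2) (u - p) * bmp (s / 2) (u - p)) := by
  simp only [bmp]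
  rw [← ENNReal.ofReal_mul (by positivity), ← ENNReal.ofReal_mul (by positivity),
    ← ENNReal.ofReal_mul (by positivity), ← Real.exp_add, ← Real.exp_add, ← Real.exp_add]
  refine ENNReal.ofReal_le_ofReal (Real.exp_le_exp.2 ?_)
  have h := nsq_add_le u (p - u)
  rw [add_sub_cancel] at h
  rw [nsq_sub_comm u p]
  have h0 := nsq_nonneg (p - u)
  have e1 : -nsq (p - u) / (2 * (s / 8)) + -nsq u / (2 * (2 * s)) =
      (-32 * nsq (p - u) - 2 * nsq u) / (8 * s) := by field_simp; ring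
  have e2 : -nsq p / (2 * (4 * s)) + (-nsq (p - u) / (2 * (s / 2)) + -nsq (p - u) / (2 * (s / 2))) =
      (-nsq p - 16 * nsq (p - u)) / (8 * s) := by field_simp; ring
  rw [e1, e2]
  exact div_le_div_of_nonneg_right (by linarith) (by positivity)

namespace NSFlow

variable (F : NSFlow Ω M)

/-- The mass of the density `X` along the orbit of `ω`, with weight `β`. -/
noncomputable def nm (X : Ω → ℝ≥0∞) (β : ℝ × ℝ → ℝ≥0∞) (ω : Ω) : ℝ≥0∞ :=
  ∫⁻ u, F.tl X ω u * β u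

/-- The mass at scale `s`. -/
noncomputable def ms (s : ℝ) : Ω → ℝ≥0∞ := F.nm (fun _ => 1) (bmp s)

@[fun_prop] lemma measurable_nm {X : Ω → ℝ≥0∞} {β : ℝ × ℝ → ℝ≥0∞} (hX : Measurable X)
    (hβ : Measurable β) : Measurable (F.nm X β) := by
  unfold nm; fun_prop

@[fun_prop] lemma measurable_ms (s : ℝ) : Measurable (F.ms s) := by
  unfold ms; fun_prop

lemma nm_mono (X : Ω → ℝ≥0∞) {β β' : ℝ × ℝ → ℝ≥0∞} (h : ∀ u, β u ≤ β' u) (ω : Ω) :
    F.nm X β ω ≤ F.nm X β' ω := lintegral_mono fun u => mul_le_mul_right (h u) _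

lemma ms_mono {s s' : ℝ} (hs : 0 < s) (h : s ≤ s') (ω : Ω) : F.ms s ω ≤ F.ms s' ω :=
  F.nm_mono _ (bmp_mono hs h) ω

lemma nm_add {X : Ω → ℝ≥0∞} {β : ℝ × ℝ → ℝ≥0∞} (hX : Measurable X) (hβ : Measurable β)
    (β' : ℝ × ℝ → ℝ≥0∞) (ω : Ω) :
    F.nm X (fun u => β u + β' u) ω = F.nm X β ω + F.nm X β' ω := by
  simp only [nm, mul_add]
  rw [lintegral_add_left (by fun_prop)]

lemma nm_const_mul {X : Ω → ℝ≥0∞} {β : ℝ × ℝ → ℝ≥0∞} (hX : Measurable X) (hβ : Measurable β)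
    (c : ℝ≥0∞) (ω : Ω) : F.nm X (fun u => c * β u) ω = c * F.nm X β ω := by
  simp only [nm]
  rw [← lintegral_const_mul _ (by fun_prop)]
  exact lintegral_congr fun u => by ring

lemma nm_inv {s : Ω → ℝ≥0∞} (hs : F.Inv s) {β : ℝ × ℝ → ℝ≥0∞} (hβ : Measurable β) (ω : Ω) :
    F.nm s β ω = s ω * F.nm (fun _ => 1) β ω := by
  simp only [nm]
  rw [← lintegral_const_mul _ (by fun_prop)]
  refine lintegral_congr fun u => ?_
  simp only [tl, hs u ω, one_mul, mul_assoc]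

lemma nm_τ (X : Ω → ℝ≥0∞) (β : ℝ × ℝ → ℝ≥0∞) (ω : Ω) (p : ℝ × ℝ) :
    F.nm X β (F.τ p ω) * F.W p ω = ∫⁻ u, F.tl X ω u * β (u - p) := by
  rw [nm, ← lintegral_mul_const' _ _ (F.W_ne_top p ω),
    ← lintegral_add_right_eq_self (fun u => F.tl X ω u * β (u - p)) p]
  refine lintegral_congr fun u => ?_
  rw [add_sub_cancel_right, ← F.tl_τ]; ring

lemma nm_ne_zero {X : Ω → ℝ≥0∞} {β : ℝ × ℝ → ℝ≥0∞} (hX : Measurable X) (hβ : Measurable β)
    (h1 : ∀ ω, X ω ≠ 0) (h2 : ∀ u, β u ≠ 0) (ω : Ω) : F.nm X β ω ≠ 0 := by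
  rw [nm, Ne, lintegral_eq_zero_iff (by fun_prop)]
  intro h
  obtain ⟨q, hq⟩ := h.exists
  exact mul_ne_zero (mul_ne_zero (h1 _) (F.W_ne_zero q ω)) (h2 q) hq

lemma ms_ne_zero (s : ℝ) (ω : Ω) : F.ms s ω ≠ 0 :=
  F.nm_ne_zero measurable_const (measurable_bmp s) (fun _ => one_ne_zero) (bmp_ne_zero s) ω

lemma nm_bmp {X : Ω → ℝ≥0∞} (hX : Measurable X) {s : ℝ≥0} (hs : s ≠ 0) (ω : Ω) :
    F.nm X (bmp s) ω = ENNReal.ofReal (2 * π * s) * F.cv X (N2 s s) ω :=
  lintegral_mul_bmp hs (by fun_prop)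

/-- The bound on the incoming mass. -/
lemma in_mass {s : ℝ} (hs : 0 < s) (ω : Ω) :
    ∫⁻ u, (F.ms s (F.τ (-u) ω))⁻¹ * bmp (2 * s) u ≤ 32 := by
  rw [← lintegral_neg_eq_self]
  simp only [neg_neg, bmp_neg]
  let n : ℝ × ℝ → ℝ≥0∞ := fun p => ∫⁻ u, F.W u ω * bmp (s / 2) (u - p)
  have hn : Measurable n := by simp only [n]; fun_prop
  let c := ENNReal.ofReal (4 / (π * s))
  have h1 : ∀ u : ℝ × ℝ, ∫⁻ p, c * bmp (s / 8) (p - u) = 1 := fun u => by
    rw [lintegral_const_mul _ (by fun_prop), lintegral_sub_right_eq_self (bmp (s / 8)) u,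
      lintegral_bmp (by positivity), ← ENNReal.ofReal_mul (by positivity), ← ENNReal.ofReal_one]
    congr 1; field_simp; norm_num
  have h2 : ∀ u p : ℝ × ℝ, (F.ms s (F.τ u ω))⁻¹ * bmp (s / 2) (u - p) ≤ F.W u ω * (n p)⁻¹ :=
    fun u p => by
      have h3 : bmp (s / 2) (u - p) * n p ≤ F.ms s (F.τ u ω) * F.W u ω := by
        rw [ms, F.nm_τ, ← lintegral_const_mul _ (by fun_prop)]
        refine lintegral_mono fun u' => ?_
        rw [tl_one, mul_left_comm]
        exact mul_le_mul_right (bmp_mul_le s hs u u' p) _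
      have h4 : n p ≠ 0 := by
        have := F.nm_τ (fun _ => 1) (bmp (s / 2)) ω p
        simp only [tl_one] at this
        simp only [n, ← this]
        exact mul_ne_zero (F.ms_ne_zero _ _) (F.W_ne_zero _ _)
      by_cases h5 : F.ms s (F.τ u ω) = ∞
      · simp [h5]
      rw [← ENNReal.div_eq_inv_mul, ← div_eq_mul_inv]
      refine ENNReal.div_le_of_le_mul ?_
      rw [div_eq_mul_inv (F.W u ω), mul_right_comm, ← div_eq_mul_inv (_ * _),
        ENNReal.le_div_iff_mul_le (Or.inl h4) (Or.inr ?_), mul_comm (F.W u ω)]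
      · exact h3
      · exact ENNReal.mul_ne_top (F.W_ne_top _ _) h5
  calc _ = ∫⁻ u, ∫⁻ p, (F.ms s (F.τ u ω))⁻¹ * bmp (2 * s) u * (c * bmp (s / 8) (p - u)) := by
        refine lintegral_congr fun u => ?_
        rw [lintegral_const_mul _ (by fun_prop), h1, mul_one]
    _ ≤ ∫⁻ u, ∫⁻ p, c * bmp (4 * s) p * (n p)⁻¹ * (F.W u ω * bmp (s / 2) (u - p)) := by
        refine lintegral_mono fun u => lintegral_mono fun p => ?_
        calc _ = c * (F.ms s (F.τ u ω))⁻¹ * (bmp (s / 8) (p - u) * bmp (2 * s) u) := by ring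
          _ ≤ c * (F.ms s (F.τ u ω))⁻¹ *
              (bmp (4 * s) p * (bmp (s / 2) (u - p) * bmp (s / 2) (u - p))) :=
              mul_le_mul_right (bmp_mul_le' s hs u p) _
          _ = c * bmp (4 * s) p * bmp (s / 2) (u - p) *
              ((F.ms s (F.τ u ω))⁻¹ * bmp (s / 2) (u - p)) := by ring
          _ ≤ c * bmp (4 * s) p * bmp (s / 2) (u - p) * (F.W u ω * (n p)⁻¹) :=
              mul_le_mul_right (h2 u p) _
          _ = _ := by ring
    _ = ∫⁻ p, c * bmp (4 * s) p * (n p)⁻¹ * n p := by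
        rw [lintegral_lintegral_swap (by fun_prop)]
        exact lintegral_congr fun p => lintegral_const_mul _ (by fun_prop)
    _ ≤ ∫⁻ p, c * bmp (4 * s) p := by
        refine lintegral_mono fun p => ?_
        rw [mul_assoc]
        exact (mul_le_mul_right (ENNReal.inv_mul_le_one _) _).trans (mul_one _).le
    _ = 32 := by
        rw [lintegral_const_mul _ (by fun_prop), lintegral_bmp (by positivity),
          ← ENNReal.ofReal_mul (by positivity), ← ENNReal.ofReal_ofNat]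
        congr 1; field_simp; norm_num

lemma transport [SFinite M] {G r : Ω → ℝ≥0∞} {β : ℝ × ℝ → ℝ≥0∞} (hG : Measurable G)
    (hr : Measurable r) (hβ : Measurable β) :
    ∫⁻ ω, G ω * F.nm r β ω ∂M = ∫⁻ ω, (∫⁻ u, G (F.τ (-u) ω) * β u) * r ω ∂M := by
  have := F.mtp volume (H := fun q ω => G (F.τ (-q) ω) * β q * r ω) (by fun_prop)
  simp only [τ_neg_τ] at this
  calc _ = ∫⁻ ω, ∫⁻ q, G ω * β q * r (F.τ q ω) * F.W q ω ∂volume ∂M := by
        refine lintegral_congr fun ω => ?_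
        rw [nm, ← lintegral_const_mul _ (by fun_prop)]
        refine lintegral_congr fun q => ?_
        rw [tl]; ring
    _ = _ := by
        rw [this]
        exact lintegral_congr fun ω => lintegral_mul_const _ (by fun_prop)

lemma lintegral_nm [SFinite M] {r : Ω → ℝ≥0∞} {β : ℝ × ℝ → ℝ≥0∞} (hr : Measurable r)
    (hβ : Measurable β) : ∫⁻ ω, F.nm r β ω ∂M = (∫⁻ u, β u) * ∫⁻ ω, r ω ∂M := by
  have := F.transport (G := fun _ => 1) measurable_const hr hβ
  simp only [one_mul] at this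
  rw [this, lintegral_const_mul _ hr]

lemma nm_bmp_lt_top [IsFiniteMeasure M] {r : Ω → ℝ≥0∞} (hr : Measurable r) {C : ℝ≥0}
    (hC : ∀ ω, r ω ≤ C) {s : ℝ} (hs : 0 < s) : ∀ᵐ ω ∂M, F.nm r (bmp s) ω < ∞ := by
  refine ae_lt_top (by fun_prop) ?_
  rw [F.lintegral_nm hr (by fun_prop), lintegral_bmp hs]
  refine ENNReal.mul_ne_top ENNReal.ofReal_ne_top ?_
  simpa using lintegral_mul_ne_top (M := M) hC (g := fun _ => 1) (C := 1) fun _ => le_rfl

lemma out_mass [IsProbabilityMeasure M] {s : ℝ} (hs : 0 < s) :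
    ∫⁻ ω, (F.ms s ω)⁻¹ * F.ms (2 * s) ω ∂M ≤ 32 := by
  rw [ms, ms, F.transport (by fun_prop) measurable_const (by fun_prop)]
  refine (lintegral_mono fun ω => ?_).trans (le_of_eq (lintegral_const 32)) |>.trans (by simp)
  rw [mul_one]
  exact F.in_mass hs ω

/-- Slowly varying weights, relative to the mass at scale `s i`. -/
def SV (β : ℕ → ℝ × ℝ → ℝ≥0∞) (s : ℕ → ℝ) : Prop :=
  ∀ (q : ℝ × ℝ) (ε : ℝ≥0∞), ε ≠ 0 → ∀ᶠ i in atTop, ∃ e : ℝ × ℝ → ℝ≥0∞, Measurable e ∧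
    (∀ v, β i (v + q) ≤ β i v + e v) ∧ ∫⁻ ω, (F.ms (s i) ω)⁻¹ * F.nm (fun _ => 1) e ω ∂M ≤ ε

lemma small_ball [IsProbabilityMeasure M] (hW : ∀ᵐ ω ∂M, ∫⁻ q, F.W q ω = ∞) {s : ℕ → ℝ}
    (hs : Tendsto s atTop atTop) (R : ℝ) :
    Tendsto (fun i => ∫⁻ ω, (F.ms (s i) ω)⁻¹ *
      F.nm (fun _ => 1) ({v | nsq v ≤ R}.indicator 1) ω ∂M) atTop (𝓝 0) := by
  have hB : MeasurableSet {v : ℝ × ℝ | nsq v ≤ R} := measurableSet_le (by fun_prop) measurable_const
  have hm : Measurable ({v : ℝ × ℝ | nsq v ≤ R}.indicator (1 : ℝ × ℝ → ℝ≥0∞)) :=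
    measurable_one.indicator hB
  let c := ENNReal.ofReal (Real.exp (R / 2))
  have h1 : ∀ ω, F.nm (fun _ => 1) ({v | nsq v ≤ R}.indicator 1) ω ≤ c * F.ms 1 ω := fun ω => by
    rw [ms, ← F.nm_const_mul measurable_const (by fun_prop)]
    refine F.nm_mono _ (fun v => ?_) ω
    refine Set.indicator_apply_le' (fun hv => ?_) fun _ => zero_le
    have hv' : nsq v ≤ R := hv
    rw [bmp, ← ENNReal.ofReal_mul (by positivity), ← Real.exp_add, Pi.one_apply,
      ENNReal.one_le_ofReal, Real.one_le_exp_iff]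
    linarith
  have := tendsto_lintegral_filter_of_dominated_convergence (μ := M) (l := atTop)
    (F := fun i ω => (F.ms (s i) ω)⁻¹ * F.nm (fun _ => 1) ({v | nsq v ≤ R}.indicator 1) ω)
    (f := fun _ => 0) (fun _ => c) (Eventually.of_forall fun i => by fun_prop) ?_
    (by simp [c]) ?_
  · simpa using this
  · filter_upwards [hs.eventually_ge_atTop 1] with i hi
    refine ae_of_all _ fun ω => ?_
    calc _ ≤ (F.ms (s i) ω)⁻¹ * (c * F.ms (s i) ω) :=
          mul_le_mul_right ((h1 ω).trans (mul_le_mul_right (F.ms_mono one_pos hi ω) _)) _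
      _ = c * ((F.ms (s i) ω)⁻¹ * F.ms (s i) ω) := by ring
      _ ≤ c := (mul_le_mul_right (ENNReal.inv_mul_le_one _) _).trans (mul_one _).le
  · filter_upwards [hW, F.nm_bmp_lt_top (r := fun _ => 1) measurable_const (C := 1)
      (fun _ => le_rfl) one_pos] with ω h2 h3
    have h4 : Tendsto (fun i => F.ms (s i) ω) atTop (𝓝 ∞) := by
      have h5 : ∀ u, Tendsto (fun i => F.tl (fun _ => 1) ω u * bmp (s i) u) atTop
          (𝓝 (F.W u ω)) := fun u => by
        have h6 : Tendsto (fun i => bmp (s i) u) atTop (𝓝 1) := by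
          have h7 : Tendsto (fun i => -nsq u / (2 * s i)) atTop (𝓝 0) :=
            tendsto_const_nhds.div_atTop (hs.const_mul_atTop two_pos)
          simpa [bmp] using ENNReal.tendsto_ofReal ((Real.continuous_exp.tendsto 0).comp h7)
        simpa [tl_one] using ENNReal.Tendsto.const_mul h6 (Or.inl one_ne_zero)
      have h8 := lintegral_liminf_le (μ := (volume : Measure (ℝ × ℝ))) (u := atTop)
        (f := fun i u => F.tl (fun _ => 1) ω u * bmp (s i) u) fun i => by fun_prop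
      simp_rw [fun u => (h5 u).liminf_eq] at h8
      rw [h2, top_le_iff] at h8
      exact tendsto_of_le_liminf_of_limsup_le h8.ge le_top
    have h9 : Tendsto (fun i => (F.ms (s i) ω)⁻¹) atTop (𝓝 0) := by
      simpa using tendsto_inv_iff.2 h4
    have h10 : F.nm (fun _ => 1) ({v | nsq v ≤ R}.indicator 1) ω ≠ ∞ :=
      ne_top_of_le_ne_top (ENNReal.mul_ne_top ENNReal.ofReal_ne_top h3.ne) (h1 ω)
    simpa using ENNReal.Tendsto.mul_const h9 (Or.inr h10)

lemma sv_of [IsProbabilityMeasure M] (hW : ∀ᵐ ω ∂M, ∫⁻ q, F.W q ω = ∞) {s₁ s₂ : ℕ → ℝ}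
    (hs : Tendsto s₁ atTop atTop) (h12 : ∀ i, s₁ i ≤ s₂ i) {χ : ℝ × ℝ → ℝ≥0∞}
    (h1 : ∀ v, χ v ≤ 1) (hχ : ∀ (q : ℝ × ℝ) (η : ℝ), 0 < η → ∃ R : ℝ, ∀ v, R < nsq v →
      χ (v + q) ≤ χ v + ENNReal.ofReal η) :
    F.SV (fun i v => bmp (s₁ i) v * χ v) s₂ := by
  intro q ε hε
  obtain ⟨η, hη, hη'⟩ := ENNReal.exists_nnreal_pos_mul_lt (a := 64) (by simp)
    (ENNReal.half_pos hε).ne'
  obtain ⟨R, hR⟩ := hχ q η hη
  obtain ⟨s₀, h0, hs₀⟩ := bmp_shift q (ε := η) hη
  have hB : MeasurableSet {v : ℝ × ℝ | nsq v ≤ R} := measurableSet_le (by fun_prop) measurable_const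
  have hm : Measurable ({v : ℝ × ℝ | nsq v ≤ R}.indicator (1 : ℝ × ℝ → ℝ≥0∞)) :=
    measurable_one.indicator hB
  filter_upwards [hs.eventually_ge_atTop s₀, (ENNReal.tendsto_nhds_zero.1
    (F.small_ball hW (tendsto_atTop_mono h12 hs) R)) (ε / 2) (ENNReal.half_pos hε)] with i hi hi'
  have p1 : 0 < s₁ i := h0.trans_le hi
  have p2 : 0 < s₂ i := p1.trans_le (h12 i)
  refine ⟨fun v => 2 * η * bmp (2 * s₂ i) v + {v | nsq v ≤ R}.indicator 1 v, by fun_prop,
    fun v => ?_, ?_⟩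
  · by_cases hv : nsq v ≤ R
    · dsimp only
      rw [Set.indicator_of_mem (show v ∈ {v | nsq v ≤ R} from hv)]
      exact (mul_le_one' (bmp_le_one p1 _) (h1 _)).trans (le_add_left le_add_self)
    · have b1 : bmp (s₁ i) v ≤ bmp (2 * s₂ i) v := bmp_mono p1 (by linarith [h12 i]) v
      have b2 : bmp (2 * s₁ i) v ≤ bmp (2 * s₂ i) v :=
        bmp_mono (by positivity) (by linarith [h12 i]) v
      have b3 := hs₀ _ hi v
      have b4 := hR v (not_le.1 hv)
      rw [ENNReal.ofReal_coe_nnreal] at b3 b4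
      calc _ ≤ (bmp (s₁ i) v + η * bmp (2 * s₁ i) v) * χ (v + q) := mul_le_mul_left b3 _
        _ = bmp (s₁ i) v * χ (v + q) + η * bmp (2 * s₁ i) v * χ (v + q) := add_mul _ _ _
        _ ≤ bmp (s₁ i) v * (χ v + η) + η * bmp (2 * s₂ i) v * 1 := by gcongr; exact h1 _
        _ = bmp (s₁ i) v * χ v + (η * bmp (s₁ i) v + η * bmp (2 * s₂ i) v) := by ring
        _ ≤ bmp (s₁ i) v * χ v + (η * bmp (2 * s₂ i) v + η * bmp (2 * s₂ i) v) := by gcongr
        _ ≤ _ := by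
          refine add_le_add_right (le_add_right (le_of_eq ?_)) _
          ring
  · simp_rw [F.nm_add (β := fun v => 2 * η * bmp (2 * s₂ i) v) measurable_const (by fun_prop),
      F.nm_const_mul measurable_const (measurable_bmp _), mul_add, mul_left_comm _ (2 * (η : ℝ≥0∞))]
    rw [lintegral_add_left (by fun_prop), lintegral_const_mul _ (by fun_prop),
      ← ENNReal.add_halves ε]
    refine add_le_add ((mul_le_mul_right (F.out_mass p2) _).trans ?_) hi'
    refine le_trans (le_of_eq ?_) hη'.le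
    ring

/-- Related densities have asymptotically the same relative masses. -/
lemma nm_rel [IsProbabilityMeasure M] {r₁ r₂ : Ω → ℝ≥0∞} (m₁ : Measurable r₁)
    (m₂ : Measurable r₂) {C : ℝ≥0} (h₁ : ∀ ω, r₁ ω ≤ C) (h₂ : ∀ ω, r₂ ω ≤ C) (hR : F.Rel r₁ r₂)
    {β : ℕ → ℝ × ℝ → ℝ≥0∞} {s : ℕ → ℝ} (hβ : ∀ i, Measurable (β i)) (hs : ∀ i, 0 < s i)
    (hb : ∀ i v, β i v ≤ bmp (2 * s i) v) (hSV : F.SV β s) {ε : ℝ≥0∞} (hε : ε ≠ 0) :
    ∀ᶠ i in atTop, ∫⁻ ω, (F.ms (s i) ω)⁻¹ * (F.nm r₂ (β i) ω - F.nm r₁ (β i) ω) ∂M ≤ ε := by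
  classical
  let A : ℕ → Set Ω := fun i => {ω | F.nm r₁ (β i) ω < F.nm r₂ (β i) ω}
  have hA : ∀ i, MeasurableSet (A i) := fun i =>
    measurableSet_lt (F.measurable_nm m₁ (hβ i)) (F.measurable_nm m₂ (hβ i))
  let G : ℕ → Ω → ℝ≥0∞ := fun i => (A i).indicator fun ω => (F.ms (s i) ω)⁻¹
  have hG : ∀ i, Measurable (G i) := fun i => Measurable.indicator (by fun_prop) (hA i)
  have G1 : ∀ i ω, G i ω ≤ (F.ms (s i) ω)⁻¹ := fun i ω => Set.indicator_le_self _ _ _
  let Φ : ℕ → Ω → ℝ≥0∞ := fun i ω => ∫⁻ u, G i (F.τ (-u) ω) * β i u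
  have hΦ : ∀ i, Measurable (Φ i) := fun i => by
    have := hG i
    have := hβ i
    simp only [Φ]; fun_prop
  have hB : ∀ i ω, Φ i ω ≤ (32 : ℝ≥0) := fun i ω =>
    (lintegral_mono fun u => mul_le_mul' (G1 i _) (hb i u)).trans (F.in_mass (hs i) ω)
  have key := F.asymp_inv m₁ m₂ h₁ h₂ hR hΦ hB (fun p => ?_) hε
  · filter_upwards [key] with i hi
    have fin : ∫⁻ ω, Φ i ω * r₁ ω ∂M ≠ ∞ := lintegral_mul_ne_top (hB i) h₁
    rw [← F.transport (hG i) m₂ (hβ i), ← F.transport (hG i) m₁ (hβ i)] at hi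
    rw [← F.transport (hG i) m₁ (hβ i)] at fin
    have m1 := hG i
    have m2 := hβ i
    refine (ENNReal.add_le_add_iff_left fin).1 (le_trans (le_of_eq ?_) hi)
    rw [← lintegral_add_left (by fun_prop)]
    refine lintegral_congr fun ω => ?_
    by_cases h : ω ∈ A i
    · simp only [G, Set.indicator_of_mem h]
      rw [← mul_add, add_tsub_cancel_of_le (le_of_lt h)]
    · simp only [G, Set.indicator_of_notMem h, zero_mul, zero_add]
      rw [tsub_eq_zero_of_le (not_lt.1 h), mul_zero]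
  · refine ENNReal.tendsto_nhds_zero.2 fun e he => ?_
    filter_upwards [hSV p e he.ne'] with i ⟨e', m1, h1, h2⟩
    have m2 := hG i
    have m3 := hβ i
    have h3 := F.transport (hG i) (measurable_const (a := 1)) m1
    simp only [mul_one] at h3
    refine le_trans (lintegral_mono fun ω => ?_) (h3.ge.trans ((lintegral_mono fun ω =>
      mul_le_mul_left (G1 i ω) _).trans h2))
    rw [tsub_le_iff_left, ← lintegral_add_left (by fun_prop)]
    simp only [Φ]
    rw [← lintegral_add_right_eq_self _ p]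
    refine lintegral_mono fun u => ?_
    rw [← F.τ_add, ← mul_add, show -(u + p) + p = -u by abel]
    exact mul_le_mul_right (h1 u) _

end NSFlow

end Pool.Agent.MP_2b113a_an.H83
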