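import Mathlib
import Pool.Agent.MP_2b113a_an.H83.Mass

/-!
Interfaces for the pieces of the core theorem:
`EntStmt`, `EmpStmt`, `WinStmt`, `PDStmt`, `SpecStmt`.
-/

namespace Pool.Agent.MP_2b113a_an.H83

open MeasureTheory ProbabilityTheory Filter Topology
open scoped ENNReal NNReal Real

/-- The ratio of consecutive variances. -/
noncomputable def kap (l : ℝ) : ℝ≥0 := NNReal.mk (l ^ 2) (sq_nonneg l)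

namespace NSFlow

variable {Ω : Type} [MeasurableSpace Ω] {M : Measure Ω} (F : NSFlow Ω M)

/-- The density of the Gaussian average of the base measure. -/
noncomputable def hh (a b : ℝ≥0) : Ω → ℝ≥0∞ := F.cv (fun _ => 1) (N2 a b)

/-- The unnormalised total variation distance between the posterior law of the displacement and
the product of its marginals. -/
noncomputable def dep (X : Ω → ℝ≥0∞) (a a' b b' : ℝ≥0) (ω : Ω) : ℝ≥0∞ :=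
  ∫⁻ u, F.tl (F.cv X (N2 a b)) ω u -
    F.tl (F.cv X (N2 a b')) ω (u.1, 0) * F.tl (F.cv X (N2 a' b)) ω (0, u.2) /
      F.cv X (N2 a' b') ω ∂N2 (a' - a) (b' - b)

/-- The posterior laws are almost products, in the Cesaro sense. -/
def EntOut (κ : ℝ≥0) : Prop :=
  ∀ (K : ℕ) (ε : ℝ≥0∞), K ≠ 0 → ε ≠ 0 → ∀ᶠ n : ℕ in atTop, ∀ᶠ T₀ : ℕ in atTop,
    ∑ T ∈ Finset.range n, ∫⁻ ω, F.dep (fun _ => 1) (κ ^ (T₀ + T)) (κ ^ (T₀ + T + K))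
      (κ ^ (T₀ + T)) (κ ^ (T₀ + T + K)) ω ∂M ≤ n * ε

/-- The orbit mass grows uniformly along the scales. -/
def EmpOut (κ : ℝ≥0) : Prop :=
  ∀ ε : ℝ≥0∞, ε ≠ 0 → ∃ N : ℕ, ∀ᶠ i : ℕ in atTop,
    ∫⁻ ω, (F.ms ((κ : ℝ) ^ (i + N)) ω)⁻¹ * F.ms ((κ : ℝ) ^ i) ω ∂M ≤ ε

/-- At the scale `t` the Gaussian averages are insensitive to distortion. -/
def Win (κ : ℝ≥0) (N t : ℕ) (ε : ℝ≥0∞) : Prop :=
  ∀ k ≤ N, ∫⁻ ω, F.hh (κ ^ (t + k)) (κ ^ (t - k)) ω - F.hh (κ ^ t) (κ ^ t) ω ∂M ≤ ε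

end NSFlow

def EntStmt : Prop :=
  ∀ (Ω : Type) [MeasurableSpace Ω] (M : Measure Ω) [IsProbabilityMeasure M] (F : NSFlow Ω M)
    (l : ℝ), 2 ≤ l → Nonempty (Hyp F l) → F.EntOut (kap l)

def EmpStmt : Prop :=
  ∀ (Ω : Type) [MeasurableSpace Ω] (M : Measure Ω) [IsProbabilityMeasure M] (F : NSFlow Ω M)
    (l c s : ℝ), 2 ≤ l → c ^ 2 + s ^ 2 = 1 → c ≠ 0 → s ≠ 0 → Nonempty (Hyp F l) →
    Nonempty (Hyp (F.rotate c s) l) → (∀ᵐ ω ∂M, ∫⁻ q, F.W q ω = ∞) → F.EmpOut (kap l)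

def WinStmt : Prop :=
  ∀ (Ω : Type) [MeasurableSpace Ω] (M : Measure Ω) [IsProbabilityMeasure M] (F : NSFlow Ω M)
    (κ : ℝ≥0) (c s : ℝ), 4 ≤ κ → c ^ 2 + s ^ 2 = 1 → c ≠ 0 → s ≠ 0 →
    F.EntOut κ → (F.rotate c s).EntOut κ → F.EmpOut κ →
    ∀ (N : ℕ) (ε : ℝ≥0∞), ε ≠ 0 →
      ∃ᶠ t : ℕ in atTop, F.Win κ N t ε ∧ (F.rotate c s).Win κ N t ε

/-- Bounded measurable positive definite functions. -/
def PD (f : ℝ × ℝ → ℝ) : Prop :=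
  Measurable f ∧ (∃ B : ℝ, ∀ q, |f q| ≤ B) ∧
    ∀ g : ℝ × ℝ → ℝ, Measurable g → Integrable g → 0 ≤ ∫ p, ∫ q, g p * g q * f (p - q)

/-- Gaussian averages. -/
noncomputable def Gi (f : ℝ × ℝ → ℝ) (a b : ℝ≥0) : ℝ := ∫ q, f q ∂N2 a b

/-- Mixed differences of Gaussian averages. -/
noncomputable def Dk (κ : ℝ≥0) (f : ℝ × ℝ → ℝ) (i j : ℕ) : ℝ :=
  Gi f (κ ^ i) (κ ^ j) - Gi f (κ ^ (i + 1)) (κ ^ j) - Gi f (κ ^ i) (κ ^ (j + 1)) +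
    Gi f (κ ^ (i + 1)) (κ ^ (j + 1))

def PDStmt : Prop :=
  ∀ κ : ℝ≥0, 2 ≤ κ →
    (∀ f, PD f → ∀ i j, 0 ≤ Dk κ f i j) ∧
    (∀ f, PD f → ∀ J : Finset (ℕ × ℕ), ∑ x ∈ J, Dk κ f x.1 x.2 ≤ Gi f 1 1) ∧
    ∀ c s : ℝ, c ^ 2 + s ^ 2 = 1 → c ≠ 0 → s ≠ 0 → ∃ c₁ : ℝ, 0 < c₁ ∧ ∀ f, PD f →
      ∀ (N : ℕ) (v : ℝ≥0), v ≠ 0 → ∃ m₁ : ℕ,
        c₁ * (Gi f (κ ^ N) (κ ^ N) - Real.exp (1 / 2) * Gi f v v) ≤
          ∑ m ∈ Finset.range m₁,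
            (Dk κ f (N + m) (N + m) + Dk κ (fun q => f (rot c s q)) (N + m) (N + m))

def SpecStmt : Prop :=
  ∀ (Ω : Type) [MeasurableSpace Ω] (M : Measure Ω) [IsProbabilityMeasure M] (F : NSFlow Ω M)
    (l c s : ℝ), 2 ≤ l → c ^ 2 + s ^ 2 = 1 → c ≠ 0 → s ≠ 0 → Nonempty (Hyp F l) →
    Nonempty (Hyp (F.rotate c s) l) →
    (∀ (N : ℕ) (ε : ℝ≥0∞), ε ≠ 0 →
      ∃ᶠ t : ℕ in atTop, F.Win (kap l) N t ε ∧ (F.rotate c s).Win (kap l) N t ε) →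
    ∃ ν : Measure Ω, IsFiniteMeasure ν ∧ ν ≪ M ∧ M ≪ ν ∧ ∀ q, ν.map (F.τ q) = ν

end Pool.Agent.MP_2b113a_an.H83
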