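import Mathlib
import Pool.Agent.MP_2b113a_an.H83.Mass

/-!
Directions of offsets: long windows of scales without new mass are rare.
-/

namespace Pool.Agent.MP_2b113a_an.H83

open MeasureTheory ProbabilityTheory Filter Topology
open scoped ENNReal NNReal Real

variable {Ω : Type} [MeasurableSpace Ω] {M : Measure Ω}

/-- The vertical share of a vector. -/
noncomputable def shr (v : ℝ × ℝ) : ℝ := v.2 ^ 2 / nsq v

/-- A weight on directions vanishing on the two axes. -/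
noncomputable def psi (v : ℝ × ℝ) : ℝ≥0∞ := ENNReal.ofReal (v.1 ^ 2 * v.2 ^ 2 / nsq v ^ 2)

@[fun_prop] lemma measurable_psi : Measurable psi := by unfold psi; fun_prop

lemma shr_nonneg (v : ℝ × ℝ) : 0 ≤ shr v := div_nonneg (sq_nonneg _) (nsq_nonneg _)

lemma shr_le_one (v : ℝ × ℝ) : shr v ≤ 1 :=
  div_le_one_of_le₀ (by unfold nsq; linarith [sq_nonneg v.1]) (nsq_nonneg _)

lemma psi_eq (v : ℝ × ℝ) : psi v = ENNReal.ofReal (shr v * (1 - shr v)) := by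
  rw [psi, shr]
  congr 1
  by_cases h : nsq v = 0
  · simp [h]
  · field_simp
    simp only [nsq]; ring

lemma psi_le_one (v : ℝ × ℝ) : psi v ≤ 1 := by
  rw [psi_eq, ENNReal.ofReal_le_one]
  nlinarith [shr_nonneg v, shr_le_one v]

lemma shr_sub_sq (v q : ℝ × ℝ) (hv : 0 < nsq v) :
    (shr (v + q) - shr v) ^ 2 * nsq v ≤ nsq q := by
  by_cases hw : nsq (v + q) = 0
  · have h1 : v.1 + q.1 = 0 ∧ v.2 + q.2 = 0 := by
      simp only [nsq, Prod.fst_add, Prod.snd_add] at hw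
      constructor <;> nlinarith [sq_nonneg (v.1 + q.1), sq_nonneg (v.2 + q.2)]
    have h2 : nsq q = nsq v := by
      simp only [nsq]
      rw [eq_neg_of_add_eq_zero_left h1.1, eq_neg_of_add_eq_zero_left h1.2]; ring
    rw [h2, shr, hw, div_zero]
    have := shr_nonneg v
    have := shr_le_one v
    have : (0 - shr v) ^ 2 ≤ 1 := by nlinarith
    nlinarith
  · have hw' : 0 < nsq (v + q) := lt_of_le_of_ne (nsq_nonneg _) (Ne.symm hw)
    set w := v + q with hwd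
    have e1 : q.1 = w.1 - v.1 := by simp [hwd]
    have e2 : q.2 = w.2 - v.2 := by simp [hwd]
    have e : shr w - shr v = (w.2 * v.1 - v.2 * w.1) * (w.2 * v.1 + v.2 * w.1) /
        (nsq w * nsq v) := by
      simp only [shr]; field_simp; simp only [nsq]; ring
    have a1 : (w.2 * v.1 - v.2 * w.1) ^ 2 ≤ nsq q * nsq w := by
      simp only [nsq, e1, e2]
      nlinarith [sq_nonneg ((w.1 - v.1) * w.1 + (w.2 - v.2) * w.2)]
    have a2 : (w.2 * v.1 + v.2 * w.1) ^ 2 ≤ nsq v * nsq w := by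
      simp only [nsq]
      nlinarith [sq_nonneg (v.1 * w.1 - v.2 * w.2)]
    rw [e, div_pow, mul_pow, div_mul_eq_mul_div, div_le_iff₀ (by positivity)]
    have := mul_le_mul a1 a2 (sq_nonneg _) (mul_nonneg (nsq_nonneg _) hw'.le)
    calc _ ≤ nsq q * nsq w * (nsq v * nsq w) * nsq v := mul_le_mul_of_nonneg_right this hv.le
      _ = _ := by ring

lemma psi_slow (q : ℝ × ℝ) (η : ℝ) (hη : 0 < η) :
    ∃ R : ℝ, ∀ v, R < nsq v → psi (v + q) ≤ psi v + ENNReal.ofReal η := by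
  refine ⟨nsq q / η ^ 2, fun v hv => ?_⟩
  have h0 : 0 < nsq v := lt_of_le_of_lt (div_nonneg (nsq_nonneg _) (sq_nonneg _)) hv
  have h1 := shr_sub_sq v q h0
  rw [div_lt_iff₀ (by positivity)] at hv
  have h2 : (shr (v + q) - shr v) ^ 2 ≤ η ^ 2 := by
    refine le_of_mul_le_mul_right ?_ h0
    nlinarith
  have h3 := abs_le.1 (abs_le_of_sq_le_sq' h2 hη.le |> abs_le.2)
  have a1 := shr_nonneg v
  have a2 := shr_le_one v
  have a3 := shr_nonneg (v + q)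
  have a4 := shr_le_one (v + q)
  rw [psi_eq, psi_eq, ← ENNReal.ofReal_add (by nlinarith) hη.le]
  refine ENNReal.ofReal_le_ofReal ?_
  rcases le_total (shr v) (shr (v + q)) with h | h <;> nlinarith [h3.1, h3.2]

/-- The inverse of the diagonal map. -/
noncomputable def dgi (l : ℝ) (k : ℕ) (q : ℝ × ℝ) : ℝ × ℝ := ((l ^ k)⁻¹ * q.1, l ^ k * q.2)

@[fun_prop] lemma measurable_dgi (l : ℝ) (k : ℕ) : Measurable (dgi l k) := by
  unfold dgi; fun_prop

lemma dgi_dg {l : ℝ} (hl : l ≠ 0) (k : ℕ) (q : ℝ × ℝ) : dgi l k (dg l k q) = q := by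
  have : l ^ k ≠ 0 := pow_ne_zero _ hl
  ext <;> simp [dgi, dg, this]

lemma psi_step {l : ℝ} (hl : 2 ≤ l) (v : ℝ × ℝ) :
    shr v * (1 - shr v) ≤ 2 * (shr (l⁻¹ * v.1, l * v.2) - shr v) := by
  have l0 : 0 < l := by linarith
  by_cases h : nsq v = 0
  · have h1 : v.1 = 0 ∧ v.2 = 0 := by
      simp only [nsq] at h
      constructor <;> nlinarith [sq_nonneg v.1, sq_nonneg v.2]
    simp [shr, h1.2]
  have h' : 0 < nsq v := lt_of_le_of_ne (nsq_nonneg _) (Ne.symm h)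
  have l4 : 16 ≤ l ^ 4 := by
    have := pow_le_pow_left₀ (by norm_num) hl 4
    linarith
  simp only [shr, nsq] at h' ⊢
  set x := v.1 ^ 2
  set y := v.2 ^ 2
  have hx : 0 ≤ x := sq_nonneg _
  have hy : 0 ≤ y := sq_nonneg _
  have p1 : 0 < x + l ^ 4 * y := by nlinarith
  have e : (l * v.2) ^ 2 / ((l⁻¹ * v.1) ^ 2 + (l * v.2) ^ 2) = l ^ 4 * y / (x + l ^ 4 * y) := by
    have : (l⁻¹ * v.1) ^ 2 + (l * v.2) ^ 2 = (x + l ^ 4 * y) / l ^ 2 := by
      simp only [x, y]; field_simp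
    rw [this]; simp only [x, y]; field_simp
  have e2 : y / (x + y) * (1 - y / (x + y)) = x * y / ((x + y) * (x + y)) := by
    field_simp; ring
  have e3 : 2 * (l ^ 4 * y / (x + l ^ 4 * y) - y / (x + y)) =
      2 * (l ^ 4 - 1) * (x * y) / ((x + y) * (x + l ^ 4 * y)) := by
    field_simp; ring
  rw [e, e2, e3, div_le_div_iff₀ (by positivity) (by positivity)]
  have a : x + l ^ 4 * y ≤ 2 * (l ^ 4 - 1) * (x + y) := by nlinarith
  calc x * y * ((x + y) * (x + l ^ 4 * y)) ≤ x * y * ((x + y) * (2 * (l ^ 4 - 1) * (x + y))) := by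
        gcongr
    _ = _ := by ring

lemma psi_sum {l : ℝ} (hl : 2 ≤ l) (N : ℕ) (u : ℝ × ℝ) :
    ∑ k ∈ Finset.range N, psi (dgi l k u) ≤ 2 := by
  have h : ∑ k ∈ Finset.range N, shr (dgi l k u) * (1 - shr (dgi l k u)) ≤ 2 := by
    have h1 : ∀ k, dgi l (k + 1) u = (l⁻¹ * (dgi l k u).1, l * (dgi l k u).2) := fun k => by
      ext <;> simp only [dgi, pow_succ, mul_inv] <;> ring
    calc _ ≤ ∑ k ∈ Finset.range N, 2 * (shr (dgi l (k + 1) u) - shr (dgi l k u)) :=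
          Finset.sum_le_sum fun k _ => by rw [h1]; exact psi_step hl _
      _ = 2 * (shr (dgi l N u) - shr (dgi l 0 u)) := by
          rw [← Finset.mul_sum, Finset.sum_range_sub fun k => shr (dgi l k u)]
      _ ≤ 2 := by linarith [shr_le_one (dgi l N u), shr_nonneg (dgi l 0 u)]
  simp_rw [psi_eq]
  rw [← ENNReal.ofReal_sum_of_nonneg fun k _ =>
    mul_nonneg (shr_nonneg _) (sub_nonneg.2 (shr_le_one _))]
  exact (ENNReal.ofReal_le_ofReal h).trans (by simp)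

lemma two_frames {c s : ℝ} (h : c ^ 2 + s ^ 2 = 1) (u : ℝ × ℝ) :
    c ^ 2 * s ^ 2 / 3 * nsq u ^ 2 ≤
      u.1 ^ 2 * u.2 ^ 2 + (rot c (-s) u).1 ^ 2 * (rot c (-s) u).2 ^ 2 := by
  simp only [rot, nsq]
  set x := u.1
  set y := u.2
  set w := (c * x - -s * y) * (-s * x + c * y) with hw
  have e : c * s * (y ^ 2 - x ^ 2) = w - (c ^ 2 - s ^ 2) * (x * y) := by rw [hw]; ring
  have a1 : (c ^ 2 - s ^ 2) ^ 2 ≤ 1 := by nlinarith [sq_nonneg (c * s)]
  have a2 : 4 * (c ^ 2 * s ^ 2) ≤ 1 := by nlinarith [sq_nonneg (c ^ 2 - s ^ 2)]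
  have a3 : (c * s * (y ^ 2 - x ^ 2)) ^ 2 ≤ 2 * w ^ 2 + 2 * (x * y) ^ 2 := by
    rw [e]
    nlinarith [sq_nonneg (w + (c ^ 2 - s ^ 2) * (x * y)),
      mul_le_mul_of_nonneg_right a1 (sq_nonneg (x * y))]
  have a4 := mul_le_mul_of_nonneg_right a2 (sq_nonneg (x * y))
  rw [← mul_pow (c * x - -s * y), ← hw]
  nlinarith [sq_nonneg w]

lemma psi_lower {c s : ℝ} (h : c ^ 2 + s ^ 2 = 1) {u : ℝ × ℝ} (hu : u ≠ 0) :
    ENNReal.ofReal (c ^ 2 * s ^ 2 / 3) ≤ psi u + psi (rot c (-s) u) := by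
  have h0 : 0 < nsq u := by
    refine lt_of_le_of_ne (nsq_nonneg _) fun h0 => hu ?_
    simp only [nsq] at h0
    ext <;> simp only [Prod.fst_zero, Prod.snd_zero] <;> nlinarith [sq_nonneg u.1, sq_nonneg u.2]
  rw [psi, psi, nsq_rot (by rw [neg_sq]; exact h), ← ENNReal.ofReal_add (by positivity)
    (by positivity), ← add_div]
  exact ENNReal.ofReal_le_ofReal ((le_div_iff₀ (by positivity)).2 (two_frames h u))

lemma nsq_dgi_le {l : ℝ} (hl : 2 ≤ l) (k : ℕ) (u : ℝ × ℝ) :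
    nsq (dgi l k u) ≤ (l ^ 2) ^ k * nsq u ∧ nsq u ≤ (l ^ 2) ^ k * nsq (dgi l k u) := by
  have h1 : 1 ≤ l ^ k := one_le_pow₀ (by linarith)
  rw [← pow_mul, mul_comm 2, pow_mul]
  simp only [nsq, dgi]
  set a := l ^ k
  have h2 : 1 ≤ a ^ 2 := one_le_pow₀ h1
  have h3 : (a⁻¹ * u.1) ^ 2 * a ^ 2 = u.1 ^ 2 := by field_simp
  have h4 := sq_nonneg (a⁻¹ * u.1)
  have h5 := sq_nonneg u.2
  have h6 : 1 ≤ a ^ 2 * a ^ 2 := one_le_mul_of_one_le_of_one_le h2 h2
  constructor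
  · rw [← h3]; nlinarith
  · rw [← h3]; nlinarith

lemma ratio_le {n m n' m' s : ℝ≥0∞} {C : ℝ≥0} (h1 : n ≤ m) (h2 : n' ≤ m') (m0 : m ≠ 0)
    (m1 : m ≠ ∞) (m0' : m' ≠ 0) (m1' : m' ≠ ∞) (s1 : s ≠ ∞) (hC : 1 ≤ C * s) :
    m⁻¹ * n ≤ m'⁻¹ * n' + C * (m⁻¹ * (s * n - n') + m⁻¹ * (m' - s * m)) := by
  have hA : s * n ≤ n' + (s * n - n') := le_add_tsub
  have hB : m' ≤ s * m + (m' - s * m) := le_add_tsub
  have fA : s * n - n' ≠ ∞ :=
    ne_top_of_le_ne_top (ENNReal.mul_ne_top s1 (ne_top_of_le_ne_top m1 h1)) tsub_le_self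
  have fB : m' - s * m ≠ ∞ := ne_top_of_le_ne_top m1' tsub_le_self
  generalize s * n - n' = A at hA fA
  generalize m' - s * m = B at hB fB
  lift n to ℝ≥0 using ne_top_of_le_ne_top m1 h1
  lift n' to ℝ≥0 using ne_top_of_le_ne_top m1' h2
  lift m to ℝ≥0 using m1
  lift m' to ℝ≥0 using m1'
  lift s to ℝ≥0 using s1
  lift A to ℝ≥0 using fA
  lift B to ℝ≥0 using fB
  have z : m ≠ 0 := by simpa using m0
  have z' : m' ≠ 0 := by simpa using m0'
  rw [← ENNReal.coe_inv z, ← ENNReal.coe_inv z']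
  norm_cast at *
  rw [← NNReal.coe_le_coe] at h1 h2 hA hB hC ⊢
  push_cast at *
  have p : (0 : ℝ) < m := by positivity
  have p' : (0 : ℝ) < m' := by positivity
  have ps : (0 : ℝ) < s := by
    rcases (NNReal.coe_nonneg s).eq_or_lt with h | h
    · rw [← h] at hC; norm_num at hC
    · exact h
  have a0 : (0 : ℝ) ≤ A := A.2
  have b0 : (0 : ℝ) ≤ B := B.2
  have n0 : (0 : ℝ) ≤ n' := n'.2
  have k1 : (s : ℝ) * n * m' ≤ s * m * n' + (A + B) * m' := by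
    nlinarith [mul_le_mul_of_nonneg_right hA p'.le, mul_le_mul_of_nonneg_right hB n0,
      mul_le_mul_of_nonneg_left h2 b0]
  have k2 : ((A : ℝ) + B) * m' ≤ C * s * ((A + B) * m') := le_mul_of_one_le_left (by positivity) hC
  have k3 : (n : ℝ) * m' ≤ m * n' + C * ((A + B) * m') :=
    le_of_mul_le_mul_left (by nlinarith) ps
  have e : (m' : ℝ)⁻¹ * n' + C * ((m : ℝ)⁻¹ * A + (m : ℝ)⁻¹ * B) =
      (m * n' + C * ((A + B) * m')) / (m * m') := by field_simp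
  rw [e, le_div_iff₀ (by positivity)]
  calc (m : ℝ)⁻¹ * n * (m * m') = n * m' := by field_simp
    _ ≤ _ := k3

lemma Sym.nm_ρ {F : NSFlow Ω M} {l : ℝ} (hl : l ≠ 0) {k : ℕ} (Y : Sym F (dg l k))
    {β : ℝ × ℝ → ℝ≥0∞} (hβ : Measurable β) (ω : Ω) :
    F.nm Y.ρ β ω = Y.ρ ω * F.nm (fun _ => 1) (fun u => β (dgi l k u)) (Y.S ω) := by
  simp only [NSFlow.nm, Y.tl_ρ, NSFlow.tl_one]
  rw [← (mp_diag (pow_ne_zero k hl)).lintegral_comp
    (f := fun u => F.W u (Y.S ω) * β (dgi l k u)) (by fun_prop),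
    ← lintegral_const_mul' _ _ (Y.ρ_ne_top ω)]
  refine lintegral_congr fun u => ?_
  have := dgi_dg hl k u
  simp only [dg] at this ⊢
  rw [this]; ring

lemma Cond.bound {F : NSFlow Ω M} {l : ℝ} {H : Hyp F l} (c : Cond H) (L : ℝ≥0) (N : ℕ)
    {φ : Ω → ℝ≥0∞} (hφ : Measurable φ) :
    L * ∫⁻ ω, φ ω ∂M ≤ ∑ k ∈ Finset.range N, ∫⁻ ω, φ ω * c.s k ω ∂M +
      L * ∫⁻ ω in {ω | ∑ k ∈ Finset.range N, c.s k ω < L}, φ ω ∂M := by
  have hZ : MeasurableSet {ω | ∑ k ∈ Finset.range N, c.s k ω < L} :=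
    measurableSet_lt (Finset.measurable_sum _ fun k _ => c.meas k) measurable_const
  rw [← lintegral_finsetSum (f := fun k ω => φ ω * c.s k ω) _ fun k _ => hφ.mul (c.meas k),
    ← lintegral_indicator hZ,
    ← lintegral_const_mul _ hφ, ← lintegral_const_mul _ (hφ.indicator hZ),
    ← lintegral_add_right _ ((hφ.indicator hZ).const_mul _)]
  refine lintegral_mono fun ω => ?_
  by_cases h : ∑ k ∈ Finset.range N, c.s k ω < L
  · rw [Set.indicator_of_mem (show ω ∈ {ω | ∑ k ∈ Finset.range N, c.s k ω < L} from h)]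
    exact le_add_self
  · rw [← Finset.mul_sum, mul_comm]
    exact le_add_right (mul_le_mul_right (not_lt.1 h) _)

end Pool.Agent.MP_2b113a_an.H83
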