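import Mathlib
import Pool.Agent.MP_2b113a_an.H83.Dir
import Pool.Agent.MP_2b113a_an.H83.Iface

/-!
The orbit mass is not concentrated at small scales.
-/

namespace Pool.Agent.MP_2b113a_an.H83

open MeasureTheory ProbabilityTheory Filter Topology
open scoped ENNReal NNReal Real

variable {Ω : Type} [MeasurableSpace Ω] {M : Measure Ω}

lemma bmp_shift' (q : ℝ × ℝ) {ε : ℝ} (hε : 0 < ε) :
    ∃ s₀ : ℝ, ∀ s, s₀ ≤ s → ∀ v,
      bmp s v ≤ bmp s (v + q) + ENNReal.ofReal ε * bmp (2 * s) v := by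
  set η : ℝ := min (ε / 3) 1 with hη
  have hη0 : 0 < η := lt_min (by positivity) one_pos
  have hη1 : η ≤ ε / 3 := min_le_left _ _
  have hη2 : η ≤ 1 := min_le_right _ _
  refine ⟨nsq q / η ^ 2 + 1, fun s hs v => ?_⟩
  have hq := nsq_nonneg q
  have hv := nsq_nonneg v
  have hs0 : 0 < s := lt_of_lt_of_le (by positivity) hs
  simp only [bmp]
  rw [← ENNReal.ofReal_mul hε.le, ← ENNReal.ofReal_add (by positivity) (by positivity)]
  refine ENNReal.ofReal_le_ofReal ?_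
  set A := nsq v / (4 * s) with hA
  have hA0 : 0 ≤ A := by positivity
  have e1 : -nsq v / (2 * s) = -A + -A := by rw [hA]; field_simp; ring
  have e2 : -nsq v / (2 * (2 * s)) = -A := by rw [hA]; field_simp; ring
  have hqs : nsq q ≤ η ^ 2 * s := by
    have : nsq q / η ^ 2 ≤ s := by linarith
    rwa [div_le_iff₀ (by positivity), mul_comm] at this
  have e3 : -A + -A + -(2 * η * A + η) ≤ -nsq (v + q) / (2 * s) := by
    rw [hA, le_div_iff₀ (by positivity)]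
    have h1 : (-(nsq v / (4 * s)) + -(nsq v / (4 * s)) + -(2 * η * (nsq v / (4 * s)) + η)) *
        (2 * s) = -nsq v - η * nsq v - 2 * η * s := by field_simp; ring
    rw [h1]
    have h3 : η * nsq q ≤ η ^ 2 * s := (mul_le_of_le_one_left hq hη2).trans hqs
    have h2 : η * (nsq (v + q) - nsq v) ≤ η * (η * nsq v + 2 * η * s) := by
      simp only [nsq, Prod.fst_add, Prod.snd_add] at hqs h3 ⊢
      nlinarith [sq_nonneg (η * v.1 - q.1), sq_nonneg (η * v.2 - q.2)]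
    have := le_of_mul_le_mul_left h2 hη0
    linarith
  rw [e1, e2]
  refine le_trans ?_ (add_le_add_left (Real.exp_le_exp.2 e3) _)
  rw [Real.exp_add (-A + -A), Real.exp_add (-A)]
  have c1 := Real.add_one_le_exp (-(2 * η * A + η))
  have c2 : Real.exp (-A) ≤ 1 := Real.exp_le_one_iff.2 (by linarith)
  have c3 : A * Real.exp (-A) ≤ 1 := by
    rw [Real.exp_neg, ← div_eq_mul_inv, div_le_one (Real.exp_pos _)]
    linarith [Real.add_one_le_exp A]
  have p := Real.exp_pos (-A)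
  set E := Real.exp (-A)
  have c4 : E * (2 * η * A + η) ≤ ε := by nlinarith
  nlinarith [mul_le_mul_of_nonneg_left c1 (mul_pos p p).le, mul_le_mul_of_nonneg_left c4 p.le]

lemma ratio_le' {n m n' m' a b : ℝ≥0∞} (h1 : n' ≤ m') (h2 : n' ≤ n + a) (h3 : m ≤ m' + b)
    (m0' : m' ≠ 0) (m1' : m' ≠ ∞) (m0 : m ≠ 0) (m1 : m ≠ ∞) :
    m'⁻¹ * n' ≤ m⁻¹ * n + (m⁻¹ * a + m⁻¹ * b) := by
  have e : m'⁻¹ * n' = m⁻¹ * (m * (m'⁻¹ * n')) := by
    rw [← mul_assoc, ENNReal.inv_mul_cancel m0 m1, one_mul]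
  rw [e, ← mul_add, ← mul_add, ← add_assoc]
  refine mul_le_mul_right ((mul_le_mul_left h3 _).trans ?_) _
  rw [add_mul, ← mul_assoc, ENNReal.mul_inv_cancel m0' m1', one_mul]
  refine add_le_add h2 ?_
  exact (mul_le_mul_right ((mul_le_mul_right h1 _).trans (ENNReal.inv_mul_le_one _)) _).trans
    (mul_one _).le

namespace NSFlow

variable (F : NSFlow Ω M) [IsProbabilityMeasure M]

lemma offsets_step (hW : ∀ᵐ ω ∂M, ∫⁻ q, F.W q ω = ∞) {ρ s : Ω → ℝ≥0∞} (hρ : Measurable ρ)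
    (hs : Measurable s) {C : ℝ≥0} (h1 : ∀ ω, ρ ω ≤ C) (h0 : ∀ ω, ρ ω ≠ 0) (h2 : ∀ ω, s ω ≤ C)
    (h3 : ∀ ω, 1 ≤ C * s ω) (hi : F.Inv s) (hR : F.Rel ρ s) {s₁ s₂ : ℕ → ℝ}
    (ht : Tendsto s₁ atTop atTop) (hp : ∀ i, 0 < s₁ i) (h12 : ∀ i, s₁ i ≤ s₂ i)
    {ε : ℝ≥0∞} (hε : ε ≠ 0) :
    ∀ᶠ i in atTop,
      ∫⁻ ω, (F.ms (s₂ i) ω)⁻¹ * F.nm (fun _ => 1) (fun v => bmp (s₁ i) v * psi v) ω * s ω ∂M ≤
        ∫⁻ ω, (F.nm ρ (bmp (s₂ i)) ω)⁻¹ * F.nm ρ (fun v => bmp (s₁ i) v * psi v) ω * ρ ω ∂M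
          + ε := by
  obtain ⟨δ, hδ, hδ'⟩ := ENNReal.exists_nnreal_pos_mul_lt (a := 2 * C * C + 1)
    (by simp [ENNReal.mul_ne_top]) hε
  have hδ0 : (δ : ℝ≥0∞) ≠ 0 := by simpa using hδ.ne'
  have hp2 : ∀ i, 0 < s₂ i := fun i => (hp i).trans_le (h12 i)
  let β : ℕ → ℝ × ℝ → ℝ≥0∞ := fun i v => bmp (s₁ i) v * psi v
  have mβ : ∀ i, Measurable (β i) := fun i => by simp only [β]; fun_prop
  have b1 : ∀ i v, β i v ≤ bmp (s₂ i) v := fun i v =>
    (mul_le_mul_right (psi_le_one v) _).trans ((mul_one _).le.trans (bmp_mono (hp i) (h12 i) v))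
  have b2 : ∀ i v, bmp (s₂ i) v ≤ bmp (2 * s₂ i) v := fun i v =>
    bmp_mono (hp2 i) (by linarith [hp2 i]) v
  have sv1 : F.SV β s₂ := F.sv_of hW ht h12 psi_le_one psi_slow
  have sv2 : F.SV (fun i => bmp (s₂ i)) s₂ := by
    have := F.sv_of hW (tendsto_atTop_mono h12 ht) (fun _ => le_rfl) (χ := fun _ => 1)
      (fun _ => le_rfl) fun _ _ _ => ⟨0, fun _ _ => le_self_add⟩
    simpa only [mul_one] using this
  let Φ : ℕ → Ω → ℝ≥0∞ := fun i ω => (F.ms (s₂ i) ω)⁻¹ * F.nm (fun _ => 1) (β i) ω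
  have mΦ : ∀ i, Measurable (Φ i) := fun i => by
    have := mβ i
    simp only [Φ]; fun_prop
  have bΦ : ∀ i ω, Φ i ω ≤ (1 : ℝ≥0) := fun i ω =>
    (mul_le_mul_right (F.nm_mono _ (b1 i) ω) _).trans (ENNReal.inv_mul_le_one _)
  have fin := fun i => F.nm_bmp_lt_top (r := fun _ => 1) measurable_const (C := 1)
    (fun _ => le_rfl) (hp2 i)
  have A := F.asymp_inv hρ hs h1 h2 hR mΦ bΦ (fun q => ?_) hδ0
  · filter_upwards [A, F.nm_rel hρ hs h1 h2 hR mβ hp2 (fun i v => (b1 i v).trans (b2 i v)) sv1 hδ0,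
      F.nm_rel hs hρ h2 h1 hR.symm (fun i => measurable_bmp _) hp2 b2 sv2 hδ0] with i a1 a2 a3
    have m1 := mβ i
    refine a1.trans ?_
    calc _ ≤ ∫⁻ ω, (F.nm ρ (bmp (s₂ i)) ω)⁻¹ * F.nm ρ (β i) ω * ρ ω +
            C * C * ((F.ms (s₂ i) ω)⁻¹ * (F.nm s (β i) ω - F.nm ρ (β i) ω) +
              (F.ms (s₂ i) ω)⁻¹ * (F.nm ρ (bmp (s₂ i)) ω - F.nm s (bmp (s₂ i)) ω)) ∂M + δ := by
          refine add_le_add_left (lintegral_mono_ae ?_) _
          filter_upwards [fin i, F.nm_bmp_lt_top hρ h1 (hp2 i)] with ω f1 f2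
          have := ratio_le (F.nm_mono (fun _ => 1) (b1 i) ω) (F.nm_mono ρ (b1 i) ω)
            (F.ms_ne_zero _ ω) f1.ne (F.nm_ne_zero hρ (measurable_bmp _) h0 (bmp_ne_zero _) ω) f2.ne
            (ne_top_of_le_ne_top ENNReal.coe_ne_top (h2 ω)) (h3 ω)
          rw [F.nm_inv hi m1, F.nm_inv hi (measurable_bmp _)]
          refine (mul_le_mul_left this _).trans ?_
          rw [add_mul]
          refine add_le_add_right ?_ _
          rw [mul_comm _ (ρ ω), ← mul_assoc]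
          exact mul_le_mul_left (mul_le_mul_left (h1 ω) _) _
      _ ≤ ∫⁻ ω, (F.nm ρ (bmp (s₂ i)) ω)⁻¹ * F.nm ρ (β i) ω * ρ ω ∂M + C * C * (δ + δ) + δ := by
          rw [lintegral_add_left (by fun_prop), lintegral_const_mul _ (by fun_prop),
            lintegral_add_left (by fun_prop)]
          gcongr
      _ ≤ _ := by
          rw [add_assoc]
          refine add_le_add_right (le_trans (le_of_eq ?_) hδ'.le) _
          ring
  · refine ENNReal.tendsto_nhds_zero.2 fun e he => ?_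
    obtain ⟨η, hη, hη'⟩ := ENNReal.exists_nnreal_pos_mul_lt (a := 32) (by simp)
      (ENNReal.half_pos he.ne').ne'
    obtain ⟨s₀, hs₀⟩ := bmp_shift' (-q) (ε := η) hη
    filter_upwards [sv1 (-q) (e / 2) (ENNReal.half_pos he.ne').ne',
      (tendsto_atTop_mono h12 ht).eventually_ge_atTop s₀] with i ⟨e₁, m₁, k₁, j₁⟩ hi
    have m1 := mβ i
    have j₂ : ∫⁻ ω, (F.ms (s₂ i) ω)⁻¹ * (η * F.ms (2 * s₂ i) ω) ∂M ≤ e / 2 := by
      simp_rw [mul_left_comm _ (η : ℝ≥0∞)]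
      rw [lintegral_const_mul _ (by fun_prop)]
      exact (mul_le_mul_right (F.out_mass (hp2 i)) _).trans hη'.le
    rw [← ENNReal.add_halves e]
    refine le_trans ?_ (add_le_add j₁ j₂)
    rw [← lintegral_add_left (by fun_prop)]
    refine lintegral_mono_ae ?_
    filter_upwards [fin i, (F.qmp q).ae (fin i)] with ω f1 f2
    have w0 := F.W_ne_zero q ω
    have w1 := F.W_ne_top q ω
    have c1 : F.nm (fun _ => 1) (β i) (F.τ q ω) * F.W q ω ≤
        F.nm (fun _ => 1) (β i) ω + F.nm (fun _ => 1) e₁ ω := by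
      rw [F.nm_τ, ← F.nm_add measurable_const m1]
      exact lintegral_mono fun u => mul_le_mul_right (by rw [sub_eq_add_neg]; exact k₁ u) _
    have c2 : F.ms (s₂ i) ω ≤ F.ms (s₂ i) (F.τ q ω) * F.W q ω + η * F.ms (2 * s₂ i) ω := by
      rw [ms, ms, F.nm_τ, ← F.nm_const_mul measurable_const (measurable_bmp _), nm, nm,
        ← lintegral_add_left (by fun_prop)]
      refine lintegral_mono fun u => ?_
      rw [← mul_add, sub_eq_add_neg, ← ENNReal.ofReal_coe_nnreal]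
      exact mul_le_mul_right (hs₀ _ hi u) _
    have c3 := mul_le_mul_left (F.nm_mono (fun _ => 1) (b1 i) (F.τ q ω)) (F.W q ω)
    have c4 : Φ i (F.τ q ω) = (F.ms (s₂ i) (F.τ q ω) * F.W q ω)⁻¹ *
        (F.nm (fun _ => 1) (β i) (F.τ q ω) * F.W q ω) := by
      rw [ENNReal.mul_inv (Or.inr w1) (Or.inr w0), mul_mul_mul_comm, ENNReal.inv_mul_cancel w0 w1,
        mul_one]
    rw [tsub_le_iff_left, c4]
    exact ratio_le' c3 c1 c2 (mul_ne_zero (F.ms_ne_zero _ _) w0) (ENNReal.mul_ne_top f2.ne w1)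
      (F.ms_ne_zero _ _) f1.ne

lemma offsets_frame (hW : ∀ᵐ ω ∂M, ∫⁻ q, F.W q ω = ∞) {l : ℝ} (hl : 2 ≤ l) (H : Hyp F l)
    {ε : ℝ≥0∞} (hε : ε ≠ 0) : ∀ᶠ N : ℕ in atTop, ∀ᶠ i : ℕ in atTop,
      ∫⁻ ω, (F.ms ((l ^ 2) ^ (i + 2 * N)) ω)⁻¹ *
        F.nm (fun _ => 1) (fun v => bmp ((l ^ 2) ^ i) v * psi v) ω ∂M ≤ ε := by
  obtain ⟨c⟩ := H.cond
  obtain ⟨δ, hδ, hδ'⟩ := ENNReal.exists_nnreal_pos_mul_lt (a := 3) (by simp)
    (ENNReal.half_pos hε).ne'
  have hδ0 : δ ≠ 0 := hδ.ne'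
  obtain ⟨N₀, hN₀⟩ := c.small δ⁻¹ (ε / 2) (ENNReal.half_pos hε).ne'
  have κ1 : 1 < l ^ 2 := by nlinarith
  have κ0 : 0 < l ^ 2 := by positivity
  have ht : Tendsto (fun i : ℕ => (l ^ 2) ^ i) atTop atTop := tendsto_pow_atTop_atTop_of_one_lt κ1
  have mono : ∀ {a b : ℕ}, a ≤ b → (l ^ 2) ^ a ≤ (l ^ 2) ^ b := fun h =>
    pow_le_pow_right₀ κ1.le h
  filter_upwards [eventually_ge_atTop N₀] with N hN
  have step := fun k => F.offsets_step hW (H.Y k).meas_ρ (c.meas k) (H.Y k).ρ_le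
    (H.Y k).ρ_ne_zero (c.le k) (c.ge k) (c.inv k) (c.rel k)
    (s₂ := fun i => (l ^ 2) ^ (i + 2 * N)) ht (fun i => by positivity)
    (fun i => mono (by omega)) (ε := (N₀ : ℝ≥0∞)⁻¹) (by simp)
  filter_upwards [(eventually_all_finset (Finset.range N₀)).2 fun k _ => step k] with i hi
  set φ : Ω → ℝ≥0∞ := fun ω => (F.ms ((l ^ 2) ^ (i + 2 * N)) ω)⁻¹ *
    F.nm (fun _ => 1) (fun v => bmp ((l ^ 2) ^ i) v * psi v) ω with hφ
  have mφ : Measurable φ := by rw [hφ]; fun_prop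
  have φ1 : ∀ ω, φ ω ≤ 1 := fun ω => by
    refine (mul_le_mul_right (F.nm_mono _ (fun v => ?_) ω) _).trans (ENNReal.inv_mul_le_one _)
    exact (mul_le_mul_right (psi_le_one v) _).trans
      ((mul_one _).le.trans (bmp_mono (by positivity) (mono (by omega)) v))
  set r := (l ^ 2) ^ (i + N) with hr
  have b : ∀ k ∈ Finset.range N₀, ∫⁻ ω, φ ω * c.s k ω ∂M ≤ ∫⁻ ω, (F.ms r ω)⁻¹ *
      F.nm (fun _ => 1) (fun v => bmp r v * psi (dgi l k v)) ω ∂M + (N₀ : ℝ≥0∞)⁻¹ := by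
    intro k hk
    have hk' : k ≤ N := (Finset.mem_range.1 hk).le.trans hN
    refine (hi k hk).trans (add_le_add_left ?_ _)
    refine le_trans (lintegral_mono fun ω => mul_le_mul_left ?_ _)
      ((H.Y k).inv _ (by fun_prop)).le
    rw [(H.Y k).nm_ρ (by linarith) (by fun_prop), (H.Y k).nm_ρ (by linarith) (by fun_prop),
      ENNReal.mul_inv (Or.inl ((H.Y k).ρ_ne_zero ω)) (Or.inl ((H.Y k).ρ_ne_top ω)),
      mul_mul_mul_comm, ENNReal.inv_mul_cancel ((H.Y k).ρ_ne_zero ω) ((H.Y k).ρ_ne_top ω), one_mul]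
    have pk : 0 < (l ^ 2) ^ k := by positivity
    refine mul_le_mul' (ENNReal.inv_le_inv.2 (F.nm_mono _ (fun v => bmp_le_of ?_) _))
      (F.nm_mono _ (fun v => mul_le_mul_left (bmp_le_of ?_) _) _)
    · rw [div_le_div_iff₀ (by positivity) (by positivity)]
      have h1 : (l ^ 2) ^ k * r ≤ (l ^ 2) ^ (i + 2 * N) := by
        rw [hr, ← pow_add]; exact mono (by omega)
      calc _ ≤ (l ^ 2) ^ k * nsq v * (2 * r) := by gcongr; exact (nsq_dgi_le hl k v).1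
        _ = nsq v * (2 * ((l ^ 2) ^ k * r)) := by ring
        _ ≤ _ := by have := nsq_nonneg v; gcongr
    · rw [div_le_div_iff₀ (by positivity) (by positivity)]
      have h1 : (l ^ 2) ^ k * (l ^ 2) ^ i ≤ r := by
        rw [hr, ← pow_add]; exact mono (by omega)
      calc _ ≤ (l ^ 2) ^ k * nsq (dgi l k v) * (2 * (l ^ 2) ^ i) := by
            gcongr; exact (nsq_dgi_le hl k v).2
        _ = nsq (dgi l k v) * (2 * ((l ^ 2) ^ k * (l ^ 2) ^ i)) := by ring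
        _ ≤ _ := by have := nsq_nonneg (dgi l k v); gcongr
  have b2 : ∑ k ∈ Finset.range N₀, ∫⁻ ω, (F.ms r ω)⁻¹ *
      F.nm (fun _ => 1) (fun v => bmp r v * psi (dgi l k v)) ω ∂M ≤ 2 := by
    rw [← lintegral_finsetSum _ fun k _ => by fun_prop]
    refine (lintegral_mono fun ω => ?_).trans (le_of_eq (by simp : ∫⁻ _, 2 ∂M = 2))
    rw [← Finset.mul_sum]
    have : ∑ k ∈ Finset.range N₀, F.nm (fun _ => 1) (fun v => bmp r v * psi (dgi l k v)) ω ≤
        2 * F.ms r ω := by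
      rw [ms, ← F.nm_const_mul measurable_const (measurable_bmp _)]
      simp only [nm]
      rw [← lintegral_finsetSum _ fun k _ => by fun_prop]
      refine lintegral_mono fun u => ?_
      rw [← Finset.mul_sum, ← Finset.mul_sum, mul_comm 2]
      exact mul_le_mul_right (mul_le_mul_right (psi_sum hl N₀ u) _) _
    refine (mul_le_mul_right this _).trans ?_
    rw [mul_left_comm]
    exact (mul_le_mul_right (ENNReal.inv_mul_le_one _) _).trans (mul_one _).le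
  have b3 : ∑ k ∈ Finset.range N₀, ∫⁻ ω, φ ω * c.s k ω ∂M ≤ 3 := by
    refine (Finset.sum_le_sum b).trans ?_
    rw [Finset.sum_add_distrib, Finset.sum_const, Finset.card_range, nsmul_eq_mul,
      show (3 : ℝ≥0∞) = 2 + 1 by norm_num]
    exact add_le_add b2 (ENNReal.mul_inv_le_one _)
  have b4 : ∫⁻ ω in {ω | ∑ k ∈ Finset.range N₀, c.s k ω < (δ⁻¹ : ℝ≥0)}, φ ω ∂M ≤ ε / 2 :=
    (lintegral_mono φ1).trans (by simpa using hN₀)
  have b5 := (c.bound δ⁻¹ N₀ mφ).trans (add_le_add b3 (mul_le_mul_right b4 _))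
  have b6 := mul_le_mul_right b5 δ
  rw [mul_add, ← mul_assoc, ← mul_assoc, ← ENNReal.coe_mul, mul_inv_cancel₀ hδ0, ENNReal.coe_one,
    one_mul, one_mul] at b6
  exact b6.trans ((add_le_add_left hδ'.le _).trans (ENNReal.add_halves ε).le)

omit [IsProbabilityMeasure M] in
lemma rotate_nm {c s : ℝ} (h : c ^ 2 + s ^ 2 = 1) {X : Ω → ℝ≥0∞} (hX : Measurable X)
    {β : ℝ × ℝ → ℝ≥0∞} (hβ : Measurable β) (ω : Ω) :
    (F.rotate c s).nm X β ω = F.nm X (fun u => β (rot c (-s) u)) ω := by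
  rw [nm, nm, ← (mp_rot h).lintegral_comp (f := fun u => F.tl X ω u * β (rot c (-s) u))
    (by fun_prop)]
  simp only [rotate_tl, rot_neg_rot h]

omit [IsProbabilityMeasure M] in
lemma rotate_ms {c s : ℝ} (h : c ^ 2 + s ^ 2 = 1) (t : ℝ) : (F.rotate c s).ms t = F.ms t := by
  ext ω
  rw [ms, ms, F.rotate_nm h measurable_const (measurable_bmp _)]
  simp only [bmp_rot (show c ^ 2 + (-s) ^ 2 = 1 by rw [neg_sq]; exact h)]

end NSFlow

theorem emp : EmpStmt := by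
  intro Ω _ M _ F l c s hl h hc hs ⟨H₁⟩ ⟨H₂⟩ hW ε hε
  have hW' : ∀ᵐ ω ∂M, ∫⁻ q, (F.rotate c s).W q ω = ∞ := by
    filter_upwards [hW] with ω hω
    rw [← hω]
    exact (mp_rot h).lintegral_comp (f := fun q => F.W q ω) (by fun_prop)
  set γ := ENNReal.ofReal (c ^ 2 * s ^ 2 / 3) with hγ
  have γ0 : γ ≠ 0 := by
    rw [hγ, Ne, ENNReal.ofReal_eq_zero, not_le]; positivity
  have e0 : γ * ε / 2 ≠ 0 := (ENNReal.half_pos (mul_ne_zero γ0 hε)).ne'
  obtain ⟨N, h1, h2⟩ := ((F.offsets_frame hW hl H₁ e0).and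
    ((F.rotate c s).offsets_frame hW' hl H₂ e0)).exists
  refine ⟨2 * N, ?_⟩
  filter_upwards [h1, h2] with i a1 a2
  have hk : (kap l : ℝ) = l ^ 2 := rfl
  rw [hk]
  refine (ENNReal.mul_le_mul_iff_right γ0 ENNReal.ofReal_ne_top).1 ?_
  rw [← ENNReal.add_halves (γ * ε)]
  refine le_trans ?_ (add_le_add a1 a2)
  rw [← lintegral_add_left (by fun_prop), ← lintegral_const_mul _ (by fun_prop)]
  refine lintegral_mono fun ω => ?_
  rw [F.rotate_ms h, F.rotate_nm h measurable_const (by fun_prop), ← mul_add, mul_left_comm,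
    ← F.nm_add measurable_const (by fun_prop), NSFlow.ms, NSFlow.ms,
    ← F.nm_const_mul measurable_const (measurable_bmp _)]
  refine mul_le_mul_right (lintegral_mono_ae ?_) _
  filter_upwards [compl_mem_ae_iff.2 (measure_singleton (0 : ℝ × ℝ))] with u hu
  refine mul_le_mul_right ?_ _
  rw [bmp_rot (show c ^ 2 + (-s) ^ 2 = 1 by rw [neg_sq]; exact h), ← mul_add, mul_comm]
  exact mul_le_mul_right (psi_lower h hu) _

end Pool.Agent.MP_2b113a_an.H83
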