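import Mathlib
import Pool.Agent.MP_2b113a_an.H83.Offsets

/-!
The core theorem from its pieces.
-/

namespace Pool.Agent.MP_2b113a_an.H83

open MeasureTheory ProbabilityTheory Filter Topology
open scoped ENNReal NNReal Real

variable {Ω : Type} [MeasurableSpace Ω] {M : Measure Ω}

lemma NSFlow.ext' {F G : NSFlow Ω M} (h1 : F.τ = G.τ) (h2 : F.W = G.W) : F = G := by
  cases F; cases G
  simp only at h1 h2
  subst h1 h2
  rfl

lemma NSFlow.rotate_rotate (F : NSFlow Ω M) (c s c' s' : ℝ) :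
    (F.rotate c s).rotate c' s' = F.rotate (c * c' - s * s') (s * c' + c * s') := by
  have : ∀ q, rot c s (rot c' s' q) = rot (c * c' - s * s') (s * c' + c * s') q := fun q => by
    ext <;> simp only [rot] <;> ring
  refine NSFlow.ext' ?_ ?_ <;> ext q ω <;> simp only [NSFlow.rotate, this]

theorem core_of (hE : EntStmt) (hW : WinStmt) (hS : SpecStmt) : CoreStmt := by
  intro Ω _ M _ F l c₁ s₁ c₂ s₂ hl h₁ h₂ hc hs H₁ H₂ hI
  set c := c₁ * c₂ + s₁ * s₂ with hcd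
  set s := c₁ * s₂ - s₁ * c₂ with hsd
  have h : c ^ 2 + s ^ 2 = 1 := by
    rw [hcd, hsd]; linear_combination (c₂ ^ 2 + s₂ ^ 2) * h₁ + h₂
  have e : (F.rotate c₁ s₁).rotate c s = F.rotate c₂ s₂ := by
    rw [NSFlow.rotate_rotate]
    congr 1
    · rw [hcd, hsd]; linear_combination c₂ * h₁
    · rw [hcd, hsd]; linear_combination s₂ * h₁
  have K₁ := H₁.hyp h₁
  have K₂ : Nonempty (Hyp ((F.rotate c₁ s₁).rotate c s) l) := e ▸ H₂.hyp h₂
  have hI' : ∀ᵐ ω ∂M, ∫⁻ q, (F.rotate c₁ s₁).W q ω = ∞ := by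
    filter_upwards [hI] with ω hω
    rw [← hω]
    exact (mp_rot h₁).lintegral_comp (f := fun q => F.W q ω) (by fun_prop)
  have hκ : 4 ≤ kap l := by
    rw [← NNReal.coe_le_coe]
    show (4 : ℝ) ≤ l ^ 2
    nlinarith
  obtain ⟨ν, a, b, d, hν⟩ := hS Ω M _ l c s hl h hc hs K₁ K₂
    (hW Ω M _ _ c s hκ h hc hs (hE Ω M _ l hl K₁) (hE Ω M _ l hl K₂)
      (emp Ω M _ l c s hl h hc hs K₁ K₂ hI'))
  refine ⟨ν, a, b, d, fun q => ?_⟩
  have := hν (rot c₁ (-s₁) q)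
  simpa only [NSFlow.rotate, rot_rot_neg h₁] using this

end Pool.Agent.MP_2b113a_an.H83
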