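import Mathlib
import Pool.Agent.MP_2b113a_an.H83.Iface

/-!
Koopman operators of the flow and their matrix coefficients.
-/

namespace Pool.Agent.MP_2b113a_an.H83

open MeasureTheory ProbabilityTheory Filter Topology
open scoped ENNReal NNReal Real

variable {Ω : Type} [MeasurableSpace Ω] {M : Measure Ω}

/-- Measurable square integrable functions. -/
structure L2 (M : Measure Ω) (ξ : Ω → ℝ) : Prop where
  m : Measurable ξ
  l : MemLp ξ 2 M

/-- The squared norm. -/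
noncomputable def n2 (M : Measure Ω) (ξ : Ω → ℝ) : ℝ := ∫ ω, ξ ω * ξ ω ∂M

lemma n2_nonneg (ξ : Ω → ℝ) : 0 ≤ n2 M ξ := integral_nonneg fun _ => mul_self_nonneg _

lemma L2.int {ξ η : Ω → ℝ} (h : L2 M ξ) (h' : L2 M η) : Integrable (fun ω => ξ ω * η ω) M :=
  int_mul h.l h'.l

lemma L2.add {ξ η : Ω → ℝ} (h : L2 M ξ) (h' : L2 M η) : L2 M fun ω => ξ ω + η ω :=
  ⟨h.m.add h'.m, h.l.add h'.l⟩

lemma L2.sub {ξ η : Ω → ℝ} (h : L2 M ξ) (h' : L2 M η) : L2 M fun ω => ξ ω - η ω :=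
  ⟨h.m.sub h'.m, h.l.sub h'.l⟩

lemma L2.neg {ξ : Ω → ℝ} (h : L2 M ξ) : L2 M fun ω => -ξ ω := ⟨h.m.neg, h.l.neg⟩

lemma L2.of_int {ξ : Ω → ℝ} (h : Measurable ξ) (h' : Integrable (fun ω => ξ ω * ξ ω) M) :
    L2 M ξ :=
  ⟨h, (memLp_two_iff_integrable_sq h.aestronglyMeasurable).2 (by simpa only [sq] using h')⟩

lemma L2.abs_int {ξ η : Ω → ℝ} (h : L2 M ξ) (h' : L2 M η) :
    ∫ ω, |ξ ω * η ω| ∂M ≤ (n2 M ξ + n2 M η) / 2 := by
  rw [n2, n2, ← integral_add (h.int h) (h'.int h'), ← integral_div]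
  refine integral_mono (h.int h').abs (((h.int h).add (h'.int h')).div_const _) fun ω => ?_
  show |_| ≤ _
  rw [abs_le]
  constructor <;> nlinarith [sq_nonneg (ξ ω + η ω), sq_nonneg (ξ ω - η ω)]

lemma n2_sub {ξ η : Ω → ℝ} (h : L2 M ξ) (h' : L2 M η) :
    n2 M (fun ω => ξ ω - η ω) = n2 M ξ + n2 M η - 2 * ∫ ω, ξ ω * η ω ∂M := by
  rw [n2, n2, n2, ← integral_add (h.int h) (h'.int h'), ← integral_const_mul,
    ← integral_sub (f := fun a => ξ a * ξ a + η a * η a) ((h.int h).add (h'.int h'))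
      ((h.int h').const_mul _)]
  exact integral_congr_ae (ae_of_all _ fun ω => by simp only; ring)

/-- The square root of a density. -/
noncomputable def rt (X : Ω → ℝ≥0∞) (ω : Ω) : ℝ := √(X ω).toReal

omit [MeasurableSpace Ω] in
lemma rt_nonneg (X : Ω → ℝ≥0∞) (ω : Ω) : 0 ≤ rt X ω := Real.sqrt_nonneg _

omit [MeasurableSpace Ω] in
lemma rt_mul_self (X : Ω → ℝ≥0∞) (ω : Ω) : rt X ω * rt X ω = (X ω).toReal :=
  Real.mul_self_sqrt ENNReal.toReal_nonneg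

omit [MeasurableSpace Ω] in
lemma rt_mul (X Y : Ω → ℝ≥0∞) (ω : Ω) : rt (fun x => X x * Y x) ω = rt X ω * rt Y ω := by
  simp [rt]

lemma L2.rt {X : Ω → ℝ≥0∞} (hX : Measurable X) (h : ∫⁻ ω, X ω ∂M ≠ ∞) : L2 M (rt X) :=
  L2.of_int (by unfold H83.rt; fun_prop) (by
    simp_rw [rt_mul_self]
    exact integrable_toReal_of_lintegral_ne_top hX.aemeasurable h)

lemma n2_rt {X : Ω → ℝ≥0∞} (hX : Measurable X) (h : ∫⁻ ω, X ω ∂M ≠ ∞) :
    n2 M (rt X) = (∫⁻ ω, X ω ∂M).toReal := by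
  simp_rw [n2, rt_mul_self]
  exact integral_toReal hX.aemeasurable (ae_lt_top hX h)

lemma n2_rt_sub {X Y : Ω → ℝ≥0∞} (hX : Measurable X) (hY : Measurable Y)
    (h : ∫⁻ ω, X ω ∂M ≠ ∞) (he : ∫⁻ ω, X ω ∂M = ∫⁻ ω, Y ω ∂M) :
    n2 M (fun ω => rt X ω - rt Y ω) ≤ 2 * (∫⁻ ω, X ω - Y ω ∂M).toReal := by
  have h' : ∫⁻ ω, Y ω ∂M ≠ ∞ := he ▸ h
  have h'' : ∫⁻ ω, X ω - Y ω ∂M ≠ ∞ := ne_top_of_le_ne_top h (lintegral_mono fun _ => tsub_le_self)
  have a := L2.rt hX h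
  have b := L2.rt hY h'
  have mm : Measurable fun ω => X ω - Y ω := hX.sub hY
  have c := L2.rt mm h''
  rw [n2_sub a b, n2_rt hY h', ← he, ← n2_rt hX h, ← n2_rt mm h'']
  have : n2 M (rt X) ≤ ∫ ω, rt X ω * rt Y ω ∂M + n2 M (rt fun ω => X ω - Y ω) := by
    rw [n2, n2, ← integral_add (a.int b) (c.int c)]
    refine integral_mono_ae (a.int a) ((a.int b).add (c.int c)) ?_
    filter_upwards [ae_lt_top hY h'] with ω hω
    have e := ENNReal.le_toReal_sub (a := X ω) hω.ne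
    have e0 : 0 ≤ (X ω - Y ω).toReal := ENNReal.toReal_nonneg
    rw [rt_mul_self fun ω => X ω - Y ω]
    rw [← rt_mul_self X, ← rt_mul_self Y] at e
    rcases le_total (rt X ω) (rt Y ω) with h1 | h1 <;>
      nlinarith [rt_nonneg X ω, rt_nonneg Y ω]
  linarith

/-- Bounded measurable functions of the plane. -/
structure Bd (f : ℝ × ℝ → ℝ) : Prop where
  m : Measurable f
  b : ∃ B, ∀ q, |f q| ≤ B

lemma Bd.int {f : ℝ × ℝ → ℝ} (h : Bd f) (a b : ℝ≥0) : Integrable f (N2 a b) := by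
  obtain ⟨B, hB⟩ := h.b
  exact Integrable.of_bound h.m.aestronglyMeasurable B (ae_of_all _ hB)

lemma Dk_add {f g : ℝ × ℝ → ℝ} (hf : Bd f) (hg : Bd g) (κ : ℝ≥0) (i j : ℕ) :
    Dk κ (fun q => f q + g q) i j = Dk κ f i j + Dk κ g i j := by
  simp only [Dk, Gi, integral_add (hf.int _ _) (hg.int _ _)]; ring

lemma Dk_mul (c : ℝ) (f : ℝ × ℝ → ℝ) (κ : ℝ≥0) (i j : ℕ) :
    Dk κ (fun q => c * f q) i j = c * Dk κ f i j := by
  simp only [Dk, Gi, integral_const_mul]; ring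

namespace NSFlow

variable (F : NSFlow Ω M)

/-- The Koopman operator. -/
noncomputable def U (q : ℝ × ℝ) (ξ : Ω → ℝ) (ω : Ω) : ℝ := ξ (F.τ q ω) * √(F.W q ω).toReal

@[fun_prop] lemma measurable_U {α : Type*} [MeasurableSpace α] {ξ : Ω → ℝ} {f : α → ℝ × ℝ}
    {g : α → Ω} (hξ : Measurable ξ) (hf : Measurable f) (hg : Measurable g) :
    Measurable fun x => F.U (f x) ξ (g x) := by
  unfold U; fun_prop

lemma U_mul (q : ℝ × ℝ) (ξ η : Ω → ℝ) (ω : Ω) :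
    F.U q ξ ω * F.U q η ω = ξ (F.τ q ω) * η (F.τ q ω) * (F.W q ω).toReal := by
  rw [U, U, mul_mul_mul_comm, Real.mul_self_sqrt ENNReal.toReal_nonneg]

lemma U_U (p q : ℝ × ℝ) (ξ : Ω → ℝ) : F.U p (F.U q ξ) = F.U (q + p) ξ := by
  ext ω
  simp only [U, F.τ_add, F.W_add, ENNReal.toReal_mul, Real.sqrt_mul ENNReal.toReal_nonneg]
  ring

lemma U_zero (ξ : Ω → ℝ) : F.U 0 ξ = ξ := by
  ext ω
  simp [U, F.τ_zero, F.W_zero]

lemma U_rt (q : ℝ × ℝ) (X : Ω → ℝ≥0∞) : F.U q (rt X) = rt fun ω => F.tl X ω q := by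
  ext ω
  simp [U, rt, tl]

lemma integral_U (q : ℝ × ℝ) {ξ η : Ω → ℝ} (hξ : Measurable ξ) (hη : Measurable η) :
    ∫ ω, F.U q ξ ω * F.U q η ω ∂M = ∫ ω, ξ ω * η ω ∂M := by
  simp_rw [U_mul]
  exact F.integral_τ q (g := fun ω => ξ ω * η ω) (hξ.mul hη)

lemma n2_U (q : ℝ × ℝ) {ξ : Ω → ℝ} (hξ : Measurable ξ) : n2 M (F.U q ξ) = n2 M ξ :=
  F.integral_U q hξ hξ

lemma l2_U (q : ℝ × ℝ) {ξ : Ω → ℝ} (h : L2 M ξ) : L2 M (F.U q ξ) := by
  have hm := h.m
  refine L2.of_int (by fun_prop) ?_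
  simp_rw [U_mul]
  have h2 : Integrable (fun ω => ξ ω * ξ ω) ((M.withDensity (F.W q)).map (F.τ q)) := by
    rw [F.map_τ]; exact h.int h
  rw [integrable_map_measure (by fun_prop) (by fun_prop),
    integrable_withDensity_iff (by fun_prop)
      (ae_of_all _ fun ω => (F.W_ne_top q ω).lt_top)] at h2
  exact h2

lemma adj_U (q : ℝ × ℝ) {ξ η : Ω → ℝ} (hξ : Measurable ξ) (hη : Measurable η) :
    ∫ ω, ξ ω * F.U (-q) η ω ∂M = ∫ ω, F.U q ξ ω * η ω ∂M := by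
  rw [← F.integral_U q hξ (by fun_prop), U_U, neg_add_cancel, U_zero]

/-- The diagonal matrix coefficient. -/
noncomputable def co (ξ : Ω → ℝ) (q : ℝ × ℝ) : ℝ := ∫ ω, F.U q ξ ω * ξ ω ∂M

lemma co_sub (ξ : Ω → ℝ) (hξ : Measurable ξ) (p q : ℝ × ℝ) :
    F.co ξ (p - q) = ∫ ω, F.U p ξ ω * F.U q ξ ω ∂M := by
  rw [co, ← F.integral_U q (by fun_prop) hξ, U_U, sub_add_cancel]

lemma abs_UU {ξ : Ω → ℝ} (h : L2 M ξ) (p q : ℝ × ℝ) :
    ∫ ω, |F.U p ξ ω * F.U q ξ ω| ∂M ≤ n2 M ξ := by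
  have := (F.l2_U p h).abs_int (F.l2_U q h)
  rw [F.n2_U p h.m, F.n2_U q h.m] at this
  linarith

lemma abs_co {ξ : Ω → ℝ} (h : L2 M ξ) (q : ℝ × ℝ) : |F.co ξ q| ≤ n2 M ξ := by
  have := F.abs_UU h q 0
  rw [U_zero] at this
  exact abs_integral_le_integral_abs.trans this

lemma co_eq {ξ : Ω → ℝ} (h : L2 M ξ) (q : ℝ × ℝ) :
    F.co ξ q = n2 M ξ - n2 M (fun ω => F.U q ξ ω - ξ ω) / 2 := by
  rw [n2_sub (F.l2_U q h) h, F.n2_U q h.m, co]; ring

lemma co_par {ξ η : Ω → ℝ} (h : L2 M ξ) (h' : L2 M η) (q : ℝ × ℝ) :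
    F.co (fun ω => ξ ω + η ω) q + F.co (fun ω => ξ ω - η ω) q = 2 * (F.co ξ q + F.co η q) := by
  simp only [co]
  rw [← integral_add ((F.l2_U q (h.add h')).int (h.add h')) ((F.l2_U q (h.sub h')).int (h.sub h')),
    ← integral_add ((F.l2_U q h).int h) ((F.l2_U q h').int h'), ← integral_const_mul]
  exact integral_congr_ae (ae_of_all _ fun ω => by simp only [U]; ring)

variable [SFinite M]

lemma bd_co {ξ : Ω → ℝ} (h : L2 M ξ) : Bd (F.co ξ) := by
  have hm := h.m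
  refine ⟨?_, _, F.abs_co h⟩
  exact (StronglyMeasurable.integral_prod_right (f := fun q ω => F.U q ξ ω * ξ ω)
    (Measurable.stronglyMeasurable (by fun_prop))).measurable

lemma pd_co {ξ : Ω → ℝ} (h : L2 M ξ) : PD (F.co ξ) := by
  refine ⟨(F.bd_co h).m, (F.bd_co h).b, fun g hg hi => ?_⟩
  have hm := h.m
  let H : (ℝ × ℝ) × (ℝ × ℝ) → Ω → ℝ := fun x ω => g x.1 * F.U x.1 ξ ω * (g x.2 * F.U x.2 ξ ω)
  have e : ∀ x ω, H x ω = g x.1 * g x.2 * (F.U x.1 ξ ω * F.U x.2 ξ ω) := fun x ω => by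
    simp only [H]; ring
  have mH : Measurable (Function.uncurry H) := by simp only [H]; fun_prop
  have iH : Integrable (Function.uncurry H) ((volume.prod volume).prod M) := by
    rw [integrable_prod_iff mH.aestronglyMeasurable]
    refine ⟨ae_of_all _ fun x => ?_, ?_⟩
    · simp only [Function.uncurry, e]
      exact ((F.l2_U _ h).int (F.l2_U _ h)).const_mul _
    · refine ((hi.abs.mul_prod hi.abs).mul_const (n2 M ξ)).mono'
        (mH.norm.stronglyMeasurable.integral_prod_right').aestronglyMeasurable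
        (ae_of_all _ fun x => ?_)
      rw [Real.norm_of_nonneg (integral_nonneg fun _ => norm_nonneg _)]
      simp only [Function.uncurry, e, Real.norm_eq_abs, abs_mul (g _ * g _), integral_const_mul]
      rw [abs_mul]
      exact mul_le_mul_of_nonneg_left (F.abs_UU h _ _) (by positivity)
  have e2 : ∀ p q, g p * g q * F.co ξ (p - q) = ∫ ω, H (p, q) ω ∂M := fun p q => by
    simp only [e, integral_const_mul, F.co_sub ξ hm]
  simp_rw [e2]
  rw [← integral_prod (fun x => ∫ ω, H x ω ∂M) iH.integral_prod_left, integral_integral_swap iH]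
  refine integral_nonneg fun ω => ?_
  simp only [H]
  rw [integral_prod_mul (fun p => g p * F.U p ξ ω) fun p => g p * F.U p ξ ω]
  exact mul_self_nonneg _

lemma Gi_le {ξ : Ω → ℝ} (h : L2 M ξ) (a b : ℝ≥0) : Gi (F.co ξ) a b ≤ n2 M ξ :=
  (integral_mono ((F.bd_co h).int a b) (integrable_const _)
    fun q => (le_abs_self _).trans (F.abs_co h q)).trans (by simp)

/-- The Gaussian average of the coefficient of a root density is at most an affinity. -/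
lemma Gi_rt_le {X Y : Ω → ℝ≥0∞} (hX : Measurable X) (hY : Measurable Y)
    (h : ∫⁻ ω, Y ω ∂M ≠ ∞) (hXY : ∀ ω, X ω ≤ Y ω) (a b : ℝ≥0) :
    Gi (F.co (rt X)) a b ≤ ∫ ω, rt (F.cv Y (N2 a b)) ω * rt X ω ∂M := by
  have h' : ∫⁻ ω, X ω ∂M ≠ ∞ := ne_top_of_le_ne_top h (lintegral_mono hXY)
  have l1 := L2.rt hX h'
  have f2 : ∫⁻ ω, F.cv Y (N2 a b) ω ∂M ≠ ∞ := by rwa [F.lintegral_cv_prob hY]
  have l2 := L2.rt (by fun_prop) f2
  have hm := l1.m
  have mH : Measurable (Function.uncurry fun q ω => F.U q (rt X) ω * rt X ω) := by fun_prop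
  have iH : Integrable (Function.uncurry fun q ω => F.U q (rt X) ω * rt X ω)
      ((N2 a b).prod M) := by
    rw [integrable_prod_iff mH.aestronglyMeasurable]
    refine ⟨ae_of_all _ fun q => (F.l2_U q l1).int l1, Integrable.of_bound
      (mH.norm.stronglyMeasurable.integral_prod_right').aestronglyMeasurable (n2 M (rt X))
      (ae_of_all _ fun q => ?_)⟩
    rw [Real.norm_of_nonneg (integral_nonneg fun _ => norm_nonneg _)]
    have := F.abs_UU l1 q 0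
    rwa [U_zero] at this
  simp only [Gi, co]
  rw [integral_integral_swap iH]
  refine integral_mono_ae iH.integral_prod_right (l2.int l1) ?_
  filter_upwards [ae_lt_top (by fun_prop) f2] with ω hω
  rw [integral_mul_const]
  refine mul_le_mul_of_nonneg_right (Real.le_sqrt_of_sq_le ?_) (rt_nonneg _ _)
  have b1 := (F.cv_mono hXY (N2 a b) ω)
  have b2 : ∫⁻ q, F.tl X ω q ∂N2 a b ≠ ∞ := (b1.trans_lt hω).ne
  simp only [U_rt]
  have i1 : Integrable (fun q => (F.tl X ω q).toReal) (N2 a b) :=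
    integrable_toReal_of_lintegral_ne_top (by fun_prop) b2
  have i2 : MemLp (fun q => rt (fun ω => F.tl X ω q) ω) 2 (N2 a b) := by
    refine (memLp_two_iff_integrable_sq
      (Measurable.aestronglyMeasurable (by unfold rt; fun_prop))).2 ?_
    simpa only [sq, rt_mul_self] using i1
  have v := variance_nonneg (fun q => rt (fun ω => F.tl X ω q) ω) (N2 a b)
  rw [variance_eq_sub i2] at v
  refine (sub_nonneg.1 v).trans ?_
  simp only [Pi.pow_apply, sq, rt_mul_self]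
  rw [integral_toReal (by fun_prop) (ae_lt_top (by fun_prop) b2)]
  exact ENNReal.toReal_mono hω.ne b1

end NSFlow

end Pool.Agent.MP_2b113a_an.H83
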