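import Mathlib
import Pool.Agent.MP_2b113a_an.H83.SpecB

/-!
The invariant density.
-/

namespace Pool.Agent.MP_2b113a_an.H83

open MeasureTheory ProbabilityTheory Filter Topology
open scoped ENNReal NNReal Real

variable {Ω : Type} [MeasurableSpace Ω] {M : Measure Ω}

namespace NSFlow

variable {F : NSFlow Ω M} [IsProbabilityMeasure M]

lemma Wt.shift {s : Ω → ℝ≥0∞} (h : F.Wt s) (h1 : ∀ ω, s ω ≤ 1) {t : ℕ → ℝ≥0}
    (ht : Tendsto t atTop atTop) (q : ℝ × ℝ) :
    Tendsto (fun i => n2 M fun ω => F.U q (rt fun ω => s ω * F.hh (t i) (t i) ω) ω -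
      rt (fun ω => s ω * F.hh (t i) (t i) ω) ω) atTop (𝓝 0) := by
  refine tendsto_order.2 ⟨fun a ha => Eventually.of_forall fun i => ha.trans_le (n2_nonneg _),
    fun a ha => ?_⟩
  obtain ⟨s₀, hs₀⟩ := N2_shift q (ε := a / 4) (by positivity)
  filter_upwards [(NNReal.tendsto_coe_atTop.2 ht).eventually_ge_atTop s₀] with i hi
  have m := h.m
  have e := F.lintegral_tl (X := fun ω => s ω * F.hh (t i) (t i) ω) (by fun_prop) q
  rw [U_rt]
  refine (n2_rt_sub (by fun_prop) (by fun_prop)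
    (e ▸ h.fin (by simp [F.lintegral_hh])) e).trans_lt ?_
  have : ∫⁻ ω, F.tl (fun ω => s ω * F.hh (t i) (t i) ω) ω q - s ω * F.hh (t i) (t i) ω ∂M ≤
      ENNReal.ofReal (a / 4) := by
    calc _ ≤ ∫⁻ ω, ENNReal.ofReal (a / 4) * F.hh (2 * t i) (2 * t i) ω ∂M := by
          refine lintegral_mono fun ω => ?_
          rw [F.tl_inv_mul h.i, tsub_le_iff_left, hh, F.tl_cv]
          refine (mul_le_mul_right (hs₀ _ hi (F.tl (fun _ => 1) ω) (by fun_prop)) _).trans ?_
          rw [mul_add]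
          exact add_le_add_right ((mul_le_mul_left (h1 ω) _).trans (one_mul _).le) _
      _ = _ := by rw [lintegral_const_mul _ (by fun_prop), F.lintegral_hh, mul_one]
  linarith [ENNReal.toReal_le_of_le_ofReal (by positivity) this]

lemma Wt.tendsto_Gi {s : Ω → ℝ≥0∞} (h : F.Wt s) (h1 : ∀ ω, s ω ≤ 1) {t : ℕ → ℝ≥0}
    (ht : Tendsto t atTop atTop) (a b : ℝ≥0) :
    Tendsto (fun i => Gi (F.co (rt fun ω => s ω * F.hh (t i) (t i) ω)) a b) atTop
      (𝓝 (∫⁻ ω, s ω ∂M).toReal) := by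
  have m := h.m
  have l : ∀ i, L2 M (rt fun ω => s ω * F.hh (t i) (t i) ω) := fun i =>
    h.l2 (by fun_prop) (by simp [F.lintegral_hh])
  have e : ∀ i, n2 M (rt fun ω => s ω * F.hh (t i) (t i) ω) = (∫⁻ ω, s ω ∂M).toReal := fun i => by
    rw [n2_rt (by fun_prop) (h.fin (by simp [F.lintegral_hh])), h.lintegral_hh]
  have := tendsto_integral_filter_of_dominated_convergence (μ := N2 a b) (l := atTop)
    (F := fun i => F.co (rt fun ω => s ω * F.hh (t i) (t i) ω))
    (f := fun _ => (∫⁻ ω, s ω ∂M).toReal) (fun _ => (∫⁻ ω, s ω ∂M).toReal)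
    (Eventually.of_forall fun i => (F.bd_co (l i)).m.aestronglyMeasurable)
    (Eventually.of_forall fun i => ae_of_all _ fun q => e i ▸ F.abs_co (l i) q)
    (integrable_const _) (ae_of_all _ fun q => by
      simp only [F.co_eq (l _), e]
      simpa using ((h.shift h1 ht q).div_const 2).const_sub (∫⁻ ω, s ω ∂M).toReal)
  simpa [Gi] using this

/-- A weak cluster point of the root densities is invariant. -/
lemma cluster_U {t : ℕ → ℝ≥0} (ht : Tendsto t atTop atTop) {ζ : Ω → ℝ} (hζ : L2 M ζ)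
    (H : ∀ (φ : Ω → ℝ) (c : ℝ), MemLp φ 2 M →
      (∀ᶠ i in atTop, ∫ ω, rt (F.hh (t i) (t i)) ω * φ ω ∂M ≤ c) → ∫ ω, ζ ω * φ ω ∂M ≤ c)
    (q : ℝ × ℝ) : ∀ᵐ ω ∂M, F.U q ζ ω = ζ ω := by
  have hφ := (F.l2_U q hζ).sub hζ
  set φ : Ω → ℝ := fun ω => F.U q ζ ω - ζ ω with hφd
  have key : ∀ {η : Ω → ℝ}, L2 M η →
      ∫ ω, η ω * (F.U (-q) φ ω - φ ω) ∂M = ∫ ω, (F.U q η ω - η ω) * φ ω ∂M := fun h => by
    simp only [mul_sub (_ : ℝ) (F.U (-q) φ _), sub_mul (F.U q _ _)]
    rw [integral_sub (h.int (F.l2_U _ hφ)) (h.int hφ),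
      integral_sub ((F.l2_U _ h).int hφ) (h.int hφ), F.adj_U q h.m hφ.m]
  have w1 : F.Wt fun _ => 1 := ⟨measurable_const, fun _ _ => rfl, 1, fun _ => le_rfl⟩
  have sh := w1.shift (fun _ => le_rfl) ht q
  simp only [one_mul] at sh
  have z : n2 M φ ≤ 0 := by
    refine le_of_forall_pos_le_add fun e he => ?_
    have := H _ ((e + n2 M φ) / 2) ((F.l2_U (-q) hφ).sub hφ).l ?_
    · rw [key hζ] at this
      change n2 M φ ≤ _ at this
      linarith
    · filter_upwards [sh.eventually_le_const he] with i hi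
      have l := L2.rt (M := M) (F.measurable_hh (t i) (t i)) (by simp [F.lintegral_hh])
      rw [key l]
      have := ((F.l2_U q l).sub l).abs_int hφ
      refine ((le_abs_self _).trans abs_integral_le_integral_abs).trans (this.trans ?_)
      linarith
  filter_upwards [(integral_eq_zero_iff_of_nonneg (fun ω => mul_self_nonneg (φ ω))
    (hφ.int hφ)).1 (le_antisymm z (n2_nonneg _))] with ω hω
  exact sub_eq_zero.1 (mul_self_eq_zero.1 hω)

end NSFlow

theorem spec (hP : PDStmt) : SpecStmt := by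
  classical
  intro Ω _ M _ F l c s hl h hc hs ⟨H₁⟩ ⟨H₂⟩ hW
  have κ2 : 2 ≤ kap l := by
    rw [← NNReal.coe_le_coe]
    show (2 : ℝ) ≤ l ^ 2
    nlinarith
  have κ1 : 1 < kap l := lt_of_lt_of_le one_lt_two κ2
  have ht := tendsto_pow_atTop_atTop_of_one_lt κ1
  obtain ⟨P1, P2, P3⟩ := hP _ κ2
  have P : PDk (kap l) := ⟨P1, P2⟩
  obtain ⟨c₁, hc₁, P4⟩ := P3 c s h hc hs
  have lh : ∀ i, L2 M (rt (F.hh (kap l ^ i) (kap l ^ i))) := fun i =>
    L2.rt (by fun_prop) (by simp [F.lintegral_hh])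
  obtain ⟨ζ, mζ, lζ, H⟩ := weak_cluster_fun (fun i => rt (F.hh (kap l ^ i) (kap l ^ i)))
    (fun i => (lh i).l) 1 fun i => by
      have := n2_rt (M := M) (F.measurable_hh (kap l ^ i) (kap l ^ i)) (by simp [F.lintegral_hh])
      rw [F.lintegral_hh] at this
      simp only [sq]
      exact this.le
  have hζ : L2 M ζ := ⟨mζ, lζ⟩
  have hU := NSFlow.cluster_U ht hζ H
  have hZ : MeasurableSet {ω | ζ ω = 0} := mζ (measurableSet_singleton 0)
  obtain ⟨g, mg, ig, eg⟩ := F.upgrade (measurable_one.indicator hZ) fun q => by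
    filter_upwards [hU q] with ω hω
    by_cases h0 : ζ (F.τ q ω) = 0
    · have : ζ ω = 0 := by rw [← hω, NSFlow.U, h0, zero_mul]
      simp [h0, this]
    · simp [h0]
  have wg : F.Wt fun ω => min (g ω) 1 :=
    ⟨by fun_prop, fun q ω => by simp only [ig q ω], 1, fun _ => min_le_right _ _⟩
  set w : Ω → ℝ≥0∞ := fun ω => min (g ω) 1 with hw
  have w1 : ∀ ω, w ω ≤ 1 := fun _ => min_le_right _ _
  have iw : ∫⁻ ω, w ω ∂M = M {ω | ζ ω = 0} := by
    rw [← lintegral_indicator_one hZ]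
    refine lintegral_congr_ae ?_
    filter_upwards [eg] with ω hω
    rw [hw]
    simp only [hω]
    exact min_eq_left (Set.indicator_apply_le' (fun _ => le_rfl) fun _ => zero_le)
  have main : ∀ ε : ℝ, 0 < ε → (M {ω | ζ ω = 0}).toReal ≤ ε + 2 * ε / c₁ := fun ε hε => by
    obtain ⟨N, ⟨δ₁, d₁, e₁⟩, δ₂, d₂, e₂⟩ :=
      ((H₁.frame hl P hε).and (H₂.frame hl P hε)).exists
    have e₃ := (wg.tendsto_Gi w1 ht (kap l ^ N) (kap l ^ N)).eventually_const_le
      (sub_lt_self _ hε)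
    obtain ⟨t, ⟨W₁, W₂⟩, a₁, a₂, a₃⟩ := ((hW N (min δ₁ δ₂)
      (lt_min (pos_iff_ne_zero.2 d₁) (pos_iff_ne_zero.2 d₂)).ne').and_eventually
      (e₁.and (e₂.and e₃))).exists
    have b₁ := a₁ (fun k hk => (W₁ k hk).trans (min_le_left _ _)) w wg w1
    have b₂ := a₂ (fun k hk => (W₂ k hk).trans (min_le_right _ _)) w
      ⟨wg.m, (F.rotate_inv h).2 wg.i, wg.b⟩ w1
    have er : (F.rotate c s).hh (kap l ^ t) (kap l ^ t) = F.hh (kap l ^ t) (kap l ^ t) :=
      F.rotate_cv h measurable_const _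
    rw [er] at b₂
    have lξ := wg.l2 (F.measurable_hh (kap l ^ t) (kap l ^ t)) (by simp [F.lintegral_hh])
    set ξ := rt fun ω => w ω * F.hh (kap l ^ t) (kap l ^ t) ω with hξ
    have z : ∫ ω, ζ ω * -ξ ω ∂M = 0 := by
      refine integral_eq_zero_of_ae ?_
      filter_upwards [eg] with ω hω
      by_cases h0 : ζ ω = 0
      · simp [h0]
      · simp [hξ, rt, hw, hω, h0]
    have := H _ (-((M {ω | ζ ω = 0}).toReal - ε - 2 * ε / c₁) / Real.exp (1 / 2)) lξ.neg.l ?_
    · rw [z, le_div_iff₀ (Real.exp_pos _)] at this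
      linarith
    · filter_upwards [eventually_gt_atTop t] with i hi
      have hlt : kap l ^ t < kap l ^ i := pow_lt_pow_right₀ κ1 hi
      obtain ⟨m₁, hm⟩ := P4 _ (F.pd_co lξ) N (kap l ^ i - kap l ^ t) (tsub_pos_of_lt hlt).ne'
      rw [Finset.sum_add_distrib] at hm
      have k1 := hm.trans (add_le_add (b₁ m₁) (b₂ m₁))
      have k2 : Gi (F.co ξ) (kap l ^ i - kap l ^ t) (kap l ^ i - kap l ^ t) ≤
          ∫ ω, rt (F.hh (kap l ^ i) (kap l ^ i)) ω * ξ ω ∂M := by
        have := F.Gi_rt_le (X := fun ω => w ω * F.hh (kap l ^ t) (kap l ^ t) ω)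
          (wg.m.mul (by fun_prop)) (F.measurable_hh (kap l ^ t) (kap l ^ t))
          (by simp [F.lintegral_hh]) (fun ω => (mul_le_mul_left (w1 ω) _).trans (one_mul _).le)
          (kap l ^ i - kap l ^ t) (kap l ^ i - kap l ^ t)
        rwa [NSFlow.hh, F.cv_cv measurable_const, add_tsub_cancel_of_le hlt.le] at this
      rw [iw] at a₃
      simp only [mul_neg, integral_neg]
      rw [neg_div, neg_le_neg_iff, div_le_iff₀ (Real.exp_pos _)]
      rw [← le_div_iff₀' hc₁, ← two_mul] at k1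
      have k3 := mul_le_mul_of_nonneg_left k2 (Real.exp_pos (1 / 2)).le
      linarith
  have z0 : M {ω | ζ ω = 0} = 0 := by
    have : (M {ω | ζ ω = 0}).toReal ≤ 0 := by
      refine le_of_forall_pos_le_add fun e he => ?_
      have := main (e * c₁ / (c₁ + 2)) (by positivity)
      refine this.trans (le_of_eq ?_)
      field_simp; ring
    simpa [ENNReal.toReal_eq_zero_iff] using le_antisymm this ENNReal.toReal_nonneg
  have mf : Measurable fun ω => ENNReal.ofReal (ζ ω * ζ ω) := by fun_prop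
  refine ⟨M.withDensity fun ω => ENNReal.ofReal (ζ ω * ζ ω),
    isFiniteMeasure_withDensity_ofReal (hζ.int hζ).2, withDensity_absolutelyContinuous _ _,
    withDensity_absolutelyContinuous' mf.aemeasurable ?_, fun q => ?_⟩
  · filter_upwards [compl_mem_ae_iff.2 z0] with ω hω
    simpa using mul_self_pos.2 hω
  · refine Measure.ext_of_lintegral _ fun f hf => ?_
    rw [lintegral_map hf (by fun_prop), lintegral_withDensity_eq_lintegral_mul _ mf (by fun_prop),
      lintegral_withDensity_eq_lintegral_mul _ mf hf, ← F.inv q _ (mf.mul hf)]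
    refine lintegral_congr_ae ?_
    filter_upwards [hU q] with ω hω
    simp only [Pi.mul_apply]
    rw [← hω, F.U_mul, ENNReal.ofReal_mul (mul_self_nonneg _), ENNReal.ofReal_toReal (F.W_ne_top _ _)]
    ring

end Pool.Agent.MP_2b113a_an.H83
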