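import Mathlib
import Pool.Agent.MP_2b113a_an.H83.Core
import Pool.Agent.MP_2b113a_an.H83.Spec
import Pool.Agent.MP_2b113a_an.H36.PD
import Pool.Agent.MP_2b113a_an.H46.Susp
import Pool.Agent.MP_2b113a_an.H46.Win
import Pool.Agent.MP_2b113a_an.H49.Final
import Pool.Agent.MP_2b113a_an.H50.Rigid
import Pool.Agent.MP_2b113a_an.H61.BG
import Pool.Agent.MP_2b113a_an.H92.Ent

/-!
Assembly of the pieces.
-/

namespace Pool.Agent.MP_2b113a_an.H83

theorem core : CoreStmt := core_of H92.ent (H46.win H50.rigid) (spec H36.pd)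

theorem plane : PlaneStmt := H46.plane_of_core core

theorem final : FinalStmt := H49.final_of plane H61.bg

end Pool.Agent.MP_2b113a_an.H83
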